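import Pool.Agent.Lib_MP_a95293_cg.Side
import Pool.Agent.Lib_MP_a95293_ps.FamJ

/-!
# Piece CG-16 (CASESW): the cases for the exponent `θ > 1/3`

`h` is a function such that `h κ` is the exponent `h₀` of `famK J κ ε`.
PROOF. `d = θ - 1/3` (we may assume `d ≤ 1/3`, replacing nothing: use `min`), `J ≥ 1` with `4 / J ≤ d`. LEVELS:
`L 0 = e₀ + 4`, `L (i + 1) = (J + 1) * (h ((J + 1) * L i) + 4) + L i + e₀` (so `Monotone`, `L i ≥ e₀ + 4`), `V = J + 3`,
`M = 3 * ((J + 1) * L (V + 1) + 4)`, `E = A * J`, `X₀` large (`X ≥ 2`, `X ≥ C ^ 2 + ...`).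
Let `z` be given, `r = rd (pr3 z)`, `Y = X ^ θ`. If `r ≤ Y` then `rd z.1 * rd z.2 ≤ Y`: first alternative. So `r > Y ≥ X ^ (1/3)` and
`z.1 + z.2 ≥ r ^ M ≥ X ^ (M / 3)`, `2 * z.2 ≥ z.1 + z.2`, so `z.2, z.1 + z.2 > X ^ ((J + 1) * L i)` for all `i ≤ V + 1`.
`U` = the set of the `p ^ v_p (z.1 * z.2 * (z.1 + z.2))`, `p ∣ pr3 z`, `X ≤ p ^ J` (at most `J`, `big_card`), and of the three numbers
`Qs J X (sd z i)`; `level` gives `i`; put `L = L i`, `L' = L (i + 1)`. For `p ∣ sd z j` the exponent of `p` in `pr3 z` is the one in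
`sd z j` (coprime sides). A side `n = sd z j` is SPREAD if `X ^ L' ≤ Qs J X n` (then `spread` with
`h := h κ + 4`, `κ = (J + 1) * L`, gives `q ∣ n`, `X ^ (h κ + 4) ≤ q`, `rd q ^ J ≤ X ^ 2`, so `rd q ≤ X ^ (d / 2)`), otherwise
`Qs J X n < X ^ L` and by `conc` it is concentrated: `Cc X κ (A * J) J n`.
Three spread sides: `i` the one of largest radical: `rd (sd z j) * rd (sd z k) ≤ X ^ (2/3)`: E (`C * rd ^ 2 ≤ C X ^ 2 ≤ X ^ 4 ≤ q`).
Two spread sides `j`, `i`, `rd (sd z j) ≤ rd (sd z i)`, `k` concentrated: `q ∣ sd z i`; if `rd (sd z j) ≤ X ^ (1/3)`: K1. Otherwise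
`rd (sd z i) > X ^ (1/3)`, `rd (sd z j) * rd (sd z k) < X ^ (2/3)`: E.
One spread side `i`: K2 (`rd q ≤ Y`). No spread side: if some `p ∣ sd z i`, `X ≤ p ^ J`, `X ^ L' ≤ p ^ v`, has `p ≤ Y`: K2 with
`q = p ^ v`, `rd q = p`. Otherwise all such primes are `> Y ≥ X ^ (1/3)`; there are at most two (three different primes dividing
`pr3 z` would have product `> X ≥ r`). The sides `z.2` and `z.1 + z.2` are `> X ^ κ`, so by the second half of `conc` each has at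
least one: exactly one each, `x` and `y`, `z.2 = B * x ^ k`, `z.1 + z.2 = D * y ^ m` with `k`, `m` the full exponents, `B`, `D` prime to
`x`, `y`: `rd z.1 * rd B * rd D * x * y = r ≤ X`, so `rd z.1 * rd B * rd D ≤ X / Y ^ 2 ≤ Y`. `k ≥ L' ≥ e₀` since
`X ^ L' ≤ x ^ k ≤ X ^ k`; `k ≤ A * J` since `X ^ k ≤ x ^ (J k) ≤ X ^ (A J)`. This is `PS.PJ1`.
-/

set_option autoImplicit false

namespace Pool.MP_a95293_nt.CG

open Finset
open Pool.MP_a95293_nt.RC (rd Prm pr3)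
open Pool.MP_a95293_nt.PS (PJ1)

private theorem CW_third : ∀ i j : Fin 3, i ≠ j → ∃ k : Fin 3, j ≠ k ∧ i ≠ k := by decide

private theorem CW_perm : ∀ i j k : Fin 3, i ≠ j → j ≠ k → i ≠ k →
    (i = 0 ∧ j = 1 ∧ k = 2) ∨ (i = 0 ∧ j = 2 ∧ k = 1) ∨ (i = 1 ∧ j = 0 ∧ k = 2) ∨
    (i = 1 ∧ j = 2 ∧ k = 0) ∨ (i = 2 ∧ j = 0 ∧ k = 1) ∨ (i = 2 ∧ j = 1 ∧ k = 0) := by decide

private theorem CW_prod (f : Fin 3 → ℝ) {i j k : Fin 3} (h1 : i ≠ j) (h2 : j ≠ k) (h3 : i ≠ k) :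
    f i * f j * f k = f 0 * f 1 * f 2 := by
  rcases CW_perm i j k h1 h2 h3 with ⟨rfl, rfl, rfl⟩ | ⟨rfl, rfl, rfl⟩ | ⟨rfl, rfl, rfl⟩ |
    ⟨rfl, rfl, rfl⟩ | ⟨rfl, rfl, rfl⟩ | ⟨rfl, rfl, rfl⟩ <;> ring

private theorem CW_rd {X J r : ℕ} {d : ℝ} (hX : 1 ≤ X) (hJ1 : 1 ≤ J) (hJ : 4 / (J : ℝ) ≤ d)
    (h : r ^ J ≤ X ^ 2) : (r : ℝ) ≤ (X : ℝ) ^ (d / 2) := by
  have hX1 : (1 : ℝ) ≤ X := by exact_mod_cast hX
  have hX0 : (0 : ℝ) ≤ X := by linarith
  have hr : (0 : ℝ) ≤ r := Nat.cast_nonneg r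
  have h1 : (r : ℝ) ^ J ≤ (X : ℝ) ^ 2 := by exact_mod_cast h
  have h2 : (r : ℝ) ≤ ((X : ℝ) ^ 2) ^ ((J : ℝ)⁻¹) := by
    rw [← Real.pow_rpow_inv_natCast hr (by omega : J ≠ 0)]
    exact Real.rpow_le_rpow (by positivity) h1 (by positivity)
  refine h2.trans ?_
  rw [← Real.rpow_natCast, ← Real.rpow_mul hX0]
  apply Real.rpow_le_rpow_of_exponent_le hX1
  have : (4 : ℝ) / J = 2 * (2 * (J : ℝ)⁻¹) := by
    field_simp
    norm_num
  push_cast
  linarith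

private theorem CW_sd (z : ℕ × ℕ) (i : Fin 3) : sd z i = z.1 ∨ sd z i = z.2 ∨ sd z i = z.1 + z.2 := by
  fin_cases i
  · exact Or.inl rfl
  · exact Or.inr (Or.inl rfl)
  · exact Or.inr (Or.inr rfl)

/-- splitting off a prime power -/
private theorem CW_split {n x : ℕ} (hn : 1 ≤ n) (hx : x ∈ n.primeFactors) : ∃ B : ℕ,
    n = B * x ^ n.factorization x ∧ rd n = rd B * x := by
  have hp := Nat.prime_of_mem_primeFactors hx
  have hn0 : n ≠ 0 := by omega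
  have he : 1 ≤ n.factorization x := by
    have := (Nat.Prime.dvd_iff_one_le_factorization hp hn0).1 (Nat.dvd_of_mem_primeFactors hx)
    exact this
  refine ⟨n / x ^ n.factorization x, ?_, ?_⟩
  · exact (Nat.div_mul_cancel (Nat.ordProj_dvd n x)).symm
  · have hc : (n / x ^ n.factorization x).Coprime (x ^ n.factorization x) :=
      Nat.Coprime.pow_right _ (Nat.coprime_ordCompl hp hn0).symm
    have e1 : n = n / x ^ n.factorization x * x ^ n.factorization x :=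
      (Nat.div_mul_cancel (Nat.ordProj_dvd n x)).symm
    conv_lhs => rw [e1]
    rw [Pool.MP_a95293_nt.RC.rd_mul hc]
    congr 1
    unfold Pool.MP_a95293_nt.RC.rd
    rw [Nat.primeFactors_prime_pow (by omega) hp, prod_singleton]

private theorem CW_exp {X x k L J A n : ℕ} (hX : 2 ≤ X) (hxX : x ≤ X) (hJ : X ≤ x ^ J)
    (hL : X ^ L ≤ x ^ k) (hd : x ^ k ≤ n) (hn : n ≤ X ^ A) : L ≤ k ∧ k ≤ A * J := by
  constructor
  · have h1 : X ^ L ≤ X ^ k := hL.trans (Nat.pow_le_pow_left hxX k)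
    exact (Nat.pow_le_pow_iff_right (by omega)).1 h1
  · have h1 : X ^ k ≤ X ^ (A * J) := by
      calc X ^ k ≤ (x ^ J) ^ k := Nat.pow_le_pow_left hJ k
        _ = (x ^ k) ^ J := by rw [← pow_mul, ← pow_mul, mul_comm]
        _ ≤ (X ^ A) ^ J := Nat.pow_le_pow_left (hd.trans hn) J
        _ = X ^ (A * J) := by rw [← pow_mul]
    exact (Nat.pow_le_pow_iff_right (by omega)).1 h1

/-- the levels -/
private def CW_L (J e₀ : ℕ) (h : ℕ → ℕ) : ℕ → ℕ
  | 0 => e₀ + 4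
  | i + 1 => (J + 1) * (h ((J + 1) * CW_L J e₀ h i) + 4) + CW_L J e₀ h i + e₀

private theorem CW_L_mono (J e₀ : ℕ) (h : ℕ → ℕ) : Monotone (CW_L J e₀ h) := by
  apply monotone_nat_of_le_succ
  intro i
  show CW_L J e₀ h i ≤ (J + 1) * (h ((J + 1) * CW_L J e₀ h i) + 4) + CW_L J e₀ h i + e₀
  omega

theorem casesW (θ : ℝ) (h1 : 1 / 3 < θ) (e₀ : ℕ) (he₀ : 2 ≤ e₀) : ∃ J : ℕ, 1 ≤ J ∧ ∀ h : ℕ → ℕ,
    ∃ (M V : ℕ) (κ : ℕ → ℕ), ∀ A : ℕ, ∃ E : ℕ,
    ∀ C : ℝ, 1 ≤ C → ∃ X₀ : ℕ, ∀ X : ℕ, X₀ ≤ X → ∀ z : ℕ × ℕ, Prm z → z.1 ≤ z.2 →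
    rd (pr3 z) ≤ X → rd (pr3 z) ^ M ≤ z.1 + z.2 → z.1 + z.2 ≤ X ^ A →
    ((rd z.1 : ℝ) * rd z.2 ≤ (X : ℝ) ^ θ) ∨
    (∃ i j k : Fin 3, i ≠ j ∧ j ≠ k ∧ i ≠ k ∧ ∃ q : ℕ, 1 ≤ q ∧ q ∣ sd z i ∧
        C * (rd (sd z j) : ℝ) ^ 2 ≤ q ∧ C * (rd (sd z k) : ℝ) ^ 2 ≤ q ∧
        (rd q : ℝ) * Real.sqrt ((rd (sd z j) : ℝ) * rd (sd z k)) ≤ (X : ℝ) ^ θ) ∨
    (∃ v < V, ∃ i j k : Fin 3, i ≠ j ∧ j ≠ k ∧ i ≠ k ∧ ∃ q : ℕ, X ^ h (κ v) ≤ q ∧ q ∣ sd z i ∧
        ((Cc X (κ v) E J (sd z k) ∧ (rd q : ℝ) * rd (sd z j) ≤ (X : ℝ) ^ θ) ∨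
          (Cc X (κ v) E J (sd z j) ∧ Cc X (κ v) E J (sd z k) ∧ (rd q : ℝ) ≤ (X : ℝ) ^ θ))) ∨
    PJ1 X e₀ E ((X : ℝ) ^ θ) z := by
  classical
  set d : ℝ := θ - 1 / 3 with hd
  have hd0 : 0 < d := by rw [hd]; linarith
  set J : ℕ := ⌈4 / d⌉₊ + 1 with hJ
  have hJ1 : 1 ≤ J := by omega
  have hJd : 4 / (J : ℝ) ≤ d := by
    have h2 : 4 / d ≤ (J : ℝ) := by
      rw [hJ]
      push_cast
      linarith [Nat.le_ceil (4 / d)]
    rw [div_le_iff₀ (by positivity)]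
    rw [div_le_iff₀ hd0] at h2
    linarith
  refine ⟨J, hJ1, fun h => ?_⟩
  set L : ℕ → ℕ := CW_L J e₀ h with hL
  have hLmono : Monotone L := CW_L_mono J e₀ h
  have hLs : ∀ i, L (i + 1) = (J + 1) * (h ((J + 1) * L i) + 4) + L i + e₀ := fun i => rfl
  set V : ℕ := 3 * J + 3 with hV
  set M' : ℕ := (J + 1) * L (V + 1) + 4 with hM'
  refine ⟨3 * M', V + 1, fun v => (J + 1) * L v, fun A => ⟨A * J, fun C hC => ⟨⌈C⌉₊ + 2, ?_⟩⟩⟩
  intro X hX z hz hab hR hRM hcA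
  have hX2 : 2 ≤ X := by omega
  have hXC : C ≤ (X : ℝ) := by
    have h3 : (⌈C⌉₊ : ℝ) ≤ X := by exact_mod_cast (by omega : ⌈C⌉₊ ≤ X)
    exact (Nat.le_ceil _).trans h3
  have hX0 : (0 : ℝ) < X := by exact_mod_cast (by omega : 0 < X)
  have hX1 : (1 : ℝ) < X := by exact_mod_cast (by omega : 1 < X)
  have hY0 : 0 < (X : ℝ) ^ θ := by positivity
  rw [or_iff_not_imp_left]
  intro n12
  push Not at n12
  -- the radicals
  have hpr : rd (pr3 z) = rd z.1 * rd z.2 * rd (z.1 + z.2) := Pool.MP_a95293_nt.RC.rd_pr3 hz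
  have ha0 : 0 < z.1 := hz.1
  have hb0 : 0 < z.2 := hz.2.1
  have hRpos : ∀ i, 0 < rd (sd z i) := fun i => Pool.MP_a95293_nt.RC.rd_pos _
  set R : Fin 3 → ℝ := fun i => (rd (sd z i) : ℝ) with hRdef
  have hR1 : ∀ i, 1 ≤ R i := fun i => by
    show (1 : ℝ) ≤ (rd (sd z i) : ℝ)
    exact_mod_cast hRpos i
  have hR0 : ∀ i, 0 < R i := fun i => lt_of_lt_of_le one_pos (hR1 i)
  have hR3 : R 0 * R 1 * R 2 ≤ X := by
    show (rd z.1 : ℝ) * rd z.2 * rd (z.1 + z.2) ≤ X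
    have h3 : rd z.1 * rd z.2 * rd (z.1 + z.2) ≤ X := by rw [← hpr]; exact hR
    exact_mod_cast h3
  have hRprod : ∀ {i j k : Fin 3}, i ≠ j → j ≠ k → i ≠ k → R i * R j * R k ≤ X := by
    intro i j k e1 e2 e3
    rw [CW_prod R e1 e2 e3]
    exact hR3
  have hRX : ∀ i, rd (sd z i) ≤ X := by
    intro i
    have e1 : 0 < rd z.1 := Pool.MP_a95293_nt.RC.rd_pos _
    have e2 : 0 < rd z.2 := Pool.MP_a95293_nt.RC.rd_pos _
    have e3 : 0 < rd (z.1 + z.2) := Pool.MP_a95293_nt.RC.rd_pos _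
    have h3 : rd z.1 * rd z.2 * rd (z.1 + z.2) ≤ X := by rw [← hpr]; exact hR
    have e12 : 0 < rd z.1 * rd z.2 := Nat.mul_pos e1 e2
    rcases CW_sd z i with h4 | h4 | h4 <;> rw [h4]
    · calc rd z.1 ≤ rd z.1 * rd z.2 := Nat.le_mul_of_pos_right _ e2
        _ ≤ rd z.1 * rd z.2 * rd (z.1 + z.2) := Nat.le_mul_of_pos_right _ e3
        _ ≤ X := h3
    · calc rd z.2 ≤ rd z.1 * rd z.2 := Nat.le_mul_of_pos_left _ e1
        _ ≤ rd z.1 * rd z.2 * rd (z.1 + z.2) := Nat.le_mul_of_pos_right _ e3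
        _ ≤ X := h3
    · exact (Nat.le_mul_of_pos_left _ e12).trans h3
  have hn1 : ∀ i, 1 ≤ sd z i := by
    intro i
    rcases CW_sd z i with h4 | h4 | h4 <;> rw [h4] <;> omega
  have hnA : ∀ i, sd z i ≤ X ^ A := by
    intro i
    rcases CW_sd z i with h4 | h4 | h4 <;> rw [h4] <;> omega
  -- `Y ≥ X ^ (1/3)`
  have hY3 : (X : ℝ) ^ ((1 : ℝ) / 3) ≤ (X : ℝ) ^ θ :=
    Real.rpow_le_rpow_of_exponent_le hX1.le h1.le
  have hYc : (X : ℝ) < ((X : ℝ) ^ θ) ^ 3 := by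
    rw [← Real.rpow_natCast, ← Real.rpow_mul hX0.le]
    conv_lhs => rw [← Real.rpow_one (X : ℝ)]
    apply Real.rpow_lt_rpow_of_exponent_lt hX1
    push_cast
    linarith
  have hd2 : (X : ℝ) ^ (d / 2) * (X : ℝ) ^ ((1 : ℝ) / 3) ≤ (X : ℝ) ^ θ := by
    rw [← Real.rpow_add hX0]
    apply Real.rpow_le_rpow_of_exponent_le hX1.le
    rw [hd]
    linarith
  have hd1 : (X : ℝ) ^ (d / 2) ≤ (X : ℝ) ^ θ := by
    apply Real.rpow_le_rpow_of_exponent_le hX1.le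
    rw [hd]
    linarith
  -- sizes
  have hr3 : X < rd (pr3 z) ^ 3 := by
    have h3 : (X : ℝ) ^ θ < (rd (pr3 z) : ℝ) := by
      refine lt_of_lt_of_le n12 ?_
      rw [hpr]
      push_cast
      have e1 : (1 : ℝ) ≤ rd (z.1 + z.2) := by
        exact_mod_cast Pool.MP_a95293_nt.RC.rd_pos (z.1 + z.2)
      have e2 : (0 : ℝ) ≤ (rd z.1 : ℝ) * rd z.2 := by positivity
      nlinarith
    have h4 : (X : ℝ) < (rd (pr3 z) : ℝ) ^ 3 := by
      refine hYc.trans ?_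
      exact pow_lt_pow_left₀ h3 hY0.le (by norm_num)
    exact_mod_cast h4
  have hcbig : X ^ M' ≤ z.1 + z.2 := by
    refine le_trans ?_ hRM
    rw [pow_mul]
    exact Nat.pow_le_pow_left hr3.le M'
  have hbbig : X ^ (M' - 1) ≤ z.2 := by
    have e1 : X ^ M' = X ^ (M' - 1) * X := by
      rw [← pow_succ]
      congr 1
    have e2 : X ^ (M' - 1) * 2 ≤ X ^ (M' - 1) * X := Nat.mul_le_mul_left _ hX2
    omega
  -- the level
  set bp : Fin 3 → Finset ℕ := fun i =>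
    ((sd z i).primeFactors.filter fun p => X ≤ p ^ J).image
      fun p => p ^ (sd z i).factorization p with hbp
  set U : Finset ℕ := (bp 0 ∪ bp 1 ∪ bp 2) ∪ {Qs J X (sd z 0), Qs J X (sd z 1), Qs J X (sd z 2)}
    with hU
  have hbpc : ∀ i, (bp i).card ≤ J := fun i =>
    card_image_le.trans (big_card J X (sd z i) hX2 (hRX i))
  have hUc : U.card ≤ V := by
    rw [hU, hV]
    refine (card_union_le _ _).trans ?_
    have e1 : (bp 0 ∪ bp 1 ∪ bp 2).card ≤ 3 * J := by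
      refine (card_union_le _ _).trans ?_
      have := card_union_le (bp 0) (bp 1)
      have := hbpc 0
      have := hbpc 1
      have := hbpc 2
      omega
    have e2 : ({Qs J X (sd z 0), Qs J X (sd z 1), Qs J X (sd z 2)} : Finset ℕ).card ≤ 3 :=
      card_le_three
    omega
  obtain ⟨lv, hlv, hgap⟩ := level X V (by omega) L hLmono U hUc
  have hlvV : lv < V + 1 := by omega
  have hbpU : ∀ i, bp i ⊆ U := by
    intro i x hx
    rw [hU, mem_union, mem_union, mem_union]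
    fin_cases i
    · exact Or.inl (Or.inl (Or.inl hx))
    · exact Or.inl (Or.inl (Or.inr hx))
    · exact Or.inl (Or.inr hx)
  have hQU : ∀ i, Qs J X (sd z i) ∈ U := by
    intro i
    rw [hU, mem_union, mem_insert, mem_insert, mem_singleton]
    fin_cases i
    · exact Or.inr (Or.inl rfl)
    · exact Or.inr (Or.inr (Or.inl rfl))
    · exact Or.inr (Or.inr (Or.inr rfl))
  set κ : ℕ := (J + 1) * L lv with hκ
  have hL' : (J + 1) * (h κ + 4) ≤ L (lv + 1) := by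
    rw [hLs, ← hκ]
    omega
  have hLe : e₀ ≤ L (lv + 1) := by
    rw [hLs]
    omega
  have hLh : h κ ≤ L (lv + 1) := by
    refine le_trans ?_ hL'
    nlinarith [Nat.zero_le (J * (h κ + 4))]
  have hdich : ∀ i, (∃ q : ℕ, q ∣ sd z i ∧ X ^ (h κ + 4) ≤ q ∧ rd q ^ J ≤ X ^ 2) ∨
      (Cc X κ (A * J) J (sd z i) ∧ ((∀ p ∈ (sd z i).primeFactors, X ≤ p ^ J →
        p ^ (sd z i).factorization p < X ^ L lv) → sd z i ≤ X ^ κ)) := by
    intro i
    rcases hgap _ (hQU i) with h3 | h3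
    · exact Or.inr (conc J X (sd z i) (L lv) A hX2 (hn1 i) (hRX i) (hnA i) h3)
    · exact Or.inl (spread J X (sd z i) (h κ + 4) hX2 (hn1 i) (hRX i)
        ((Nat.pow_le_pow_right (by omega) hL').trans h3))
  -- the energy condition
  have hsq : ∀ (i : Fin 3) (q : ℕ), X ^ (h κ + 4) ≤ q → C * (rd (sd z i) : ℝ) ^ 2 ≤ q := by
    intro i q hq
    have e1 : (rd (sd z i) : ℝ) ≤ X := by exact_mod_cast hRX i
    have e2 : (0 : ℝ) ≤ rd (sd z i) := Nat.cast_nonneg _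
    have e3 : ((X ^ 4 : ℕ) : ℝ) ≤ q := by
      exact_mod_cast (Nat.pow_le_pow_right (by omega) (by omega : 4 ≤ h κ + 4)).trans hq
    refine le_trans ?_ e3
    push_cast
    have e4 : (rd (sd z i) : ℝ) ^ 2 ≤ (X : ℝ) ^ 2 := by nlinarith
    have e5 : C * (rd (sd z i) : ℝ) ^ 2 ≤ X * (X : ℝ) ^ 2 :=
      mul_le_mul hXC e4 (by positivity) hX0.le
    refine e5.trans ?_
    have e6 : (X : ℝ) * (X : ℝ) ^ 2 = (X : ℝ) ^ 3 := by ring
    rw [e6]
    exact pow_le_pow_right₀ hX1.le (by norm_num)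
  by_cases hsp : ∃ i : Fin 3, ∃ q : ℕ, q ∣ sd z i ∧ X ^ (h κ + 4) ≤ q ∧ rd q ^ J ≤ X ^ 2
  · -- some spread side: take the one of largest radical
    set F : Finset (Fin 3) := univ.filter fun i =>
      ∃ q : ℕ, q ∣ sd z i ∧ X ^ (h κ + 4) ≤ q ∧ rd q ^ J ≤ X ^ 2 with hF
    have hFne : F.Nonempty := by
      obtain ⟨i, hi⟩ := hsp
      exact ⟨i, by rw [hF, mem_filter]; exact ⟨mem_univ _, hi⟩⟩
    obtain ⟨i, hiF, himax⟩ := Finset.exists_max_image F R hFne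
    have hi := (mem_filter.1 (hF ▸ hiF)).2
    obtain ⟨q, q1, q2, q3⟩ := hi
    have hqr := CW_rd (by omega : 1 ≤ X) hJ1 hJd q3
    have hqr0 : (0 : ℝ) ≤ rd q := Nat.cast_nonneg _
    have hqh : X ^ h κ ≤ q := (Nat.pow_le_pow_right (by omega) (by omega)).trans q2
    have hq1 : 1 ≤ q := (Nat.one_le_pow _ _ (by omega)).trans q2
    by_cases hsec : ∃ j ∈ F, j ≠ i
    · obtain ⟨j, hjF, hji⟩ := hsec
      obtain ⟨k, hjk, hik⟩ := CW_third i j (Ne.symm hji)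
      by_cases hE : R j * R k ≤ (X : ℝ) ^ ((2 : ℝ) / 3)
      · refine Or.inl ⟨i, j, k, Ne.symm hji, hjk, hik, q, hq1, q1, hsq j q q2, hsq k q q2, ?_⟩
        have e1 : Real.sqrt (R j * R k) ≤ (X : ℝ) ^ ((1 : ℝ) / 3) := by
          rw [Real.sqrt_le_left (by positivity)]
          refine hE.trans (le_of_eq ?_)
          rw [← Real.rpow_natCast, ← Real.rpow_mul hX0.le]
          norm_num
        exact (mul_le_mul hqr e1 (Real.sqrt_nonneg _) (by positivity)).trans hd2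
      · push Not at hE
        have e1 : R i * (X : ℝ) ^ ((2 : ℝ) / 3) < X := by
          have := hRprod (Ne.symm hji) hjk hik
          have e2 : R i * (X : ℝ) ^ ((2 : ℝ) / 3) < R i * (R j * R k) :=
            mul_lt_mul_of_pos_left hE (hR0 i)
          linarith [mul_assoc (R i) (R j) (R k)]
        have e2 : R i < (X : ℝ) ^ ((1 : ℝ) / 3) := by
          have e3 : (X : ℝ) ^ ((1 : ℝ) / 3) * (X : ℝ) ^ ((2 : ℝ) / 3) = X := by
            rw [← Real.rpow_add hX0]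
            norm_num
          have e4 : R i * (X : ℝ) ^ ((2 : ℝ) / 3) <
              (X : ℝ) ^ ((1 : ℝ) / 3) * (X : ℝ) ^ ((2 : ℝ) / 3) := lt_of_lt_of_eq e1 e3.symm
          exact lt_of_mul_lt_mul_right e4 (by positivity)
        have e3 := himax j hjF
        have hk : k ∉ F := by
          intro hkF
          have e4 := himax k hkF
          have e5 : R j * R k < (X : ℝ) ^ ((1 : ℝ) / 3) * (X : ℝ) ^ ((1 : ℝ) / 3) :=
            mul_lt_mul'' (by linarith) (by linarith) (hR0 j).le (hR0 k).le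
          rw [← Real.rpow_add hX0] at e5
          norm_num at e5
          norm_num at hE
          linarith
        have hkc : Cc X κ (A * J) J (sd z k) := by
          rcases hdich k with h3 | h3
          · exact absurd (by rw [hF, mem_filter]; exact ⟨mem_univ _, h3⟩) hk
          · exact h3.1
        refine Or.inr (Or.inl ⟨lv, hlvV, i, j, k, Ne.symm hji, hjk, hik, q, hqh, q1, Or.inl ⟨hkc, ?_⟩⟩)
        have e6 : (rd (sd z j) : ℝ) ≤ (X : ℝ) ^ ((1 : ℝ) / 3) := (e3.trans_lt e2).le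
        exact (mul_le_mul hqr e6 (Nat.cast_nonneg _) (by positivity)).trans hd2
    · push Not at hsec
      have hoth : ∀ j, j ≠ i → Cc X κ (A * J) J (sd z j) := by
        intro j hj
        rcases hdich j with h3 | h3
        · exact absurd (hsec j (by rw [hF, mem_filter]; exact ⟨mem_univ _, h3⟩)) hj
        · exact h3.1
      obtain ⟨j, hj⟩ : ∃ j : Fin 3, i ≠ j := by
        fin_cases i
        · exact ⟨1, by decide⟩
        · exact ⟨0, by decide⟩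
        · exact ⟨0, by decide⟩
      obtain ⟨k, hjk, hik⟩ := CW_third i j hj
      exact Or.inr (Or.inl ⟨lv, hlvV, i, j, k, hj, hjk, hik, q, hqh, q1,
        Or.inr ⟨hoth j (Ne.symm hj), hoth k (Ne.symm hik), hqr.trans hd1⟩⟩)
  · -- no spread side
    push Not at hsp
    have hcon : ∀ i, Cc X κ (A * J) J (sd z i) ∧ ((∀ p ∈ (sd z i).primeFactors, X ≤ p ^ J →
        p ^ (sd z i).factorization p < X ^ L lv) → sd z i ≤ X ^ κ) := by
      intro i
      rcases hdich i with h3 | h3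
      · obtain ⟨q, q1, q2, q3⟩ := h3
        exact absurd q3 (not_le.2 (hsp i q q1 q2))
      · exact h3
    by_cases hw : ∃ i : Fin 3, ∃ p ∈ (sd z i).primeFactors, X ^ L (lv + 1) ≤
        p ^ (sd z i).factorization p ∧ (p : ℝ) ≤ (X : ℝ) ^ θ
    · obtain ⟨i, p, hp, hpL, hpY⟩ := hw
      obtain ⟨j, hj⟩ : ∃ j : Fin 3, i ≠ j := by
        fin_cases i
        · exact ⟨1, by decide⟩
        · exact ⟨0, by decide⟩
        · exact ⟨0, by decide⟩
      obtain ⟨k, hjk, hik⟩ := CW_third i j hj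
      have hpp := Nat.prime_of_mem_primeFactors hp
      have hpe : (sd z i).factorization p ≠ 0 := by
        have := (Nat.Prime.dvd_iff_one_le_factorization hpp (by have := hn1 i; omega)).1
          (Nat.dvd_of_mem_primeFactors hp)
        omega
      refine Or.inr (Or.inl ⟨lv, hlvV, i, j, k, hj, hjk, hik, p ^ (sd z i).factorization p,
        (Nat.pow_le_pow_right (by omega) hLh).trans hpL, Nat.ordProj_dvd _ _,
        Or.inr ⟨(hcon j).1, (hcon k).1, ?_⟩⟩)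
      have : rd (p ^ (sd z i).factorization p) = p := by
        unfold Pool.MP_a95293_nt.RC.rd
        rw [Nat.primeFactors_prime_pow hpe hpp, prod_singleton]
      rw [this]
      exact hpY
    · push Not at hw
      -- the big primes of `b` and `c`
      have hbig : ∀ i : Fin 3, X ^ κ < sd z i → ∃ p ∈ (sd z i).primeFactors, X ≤ p ^ J ∧
          X ^ L (lv + 1) ≤ p ^ (sd z i).factorization p := by
        intro i hi
        by_contra hno
        push Not at hno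
        refine absurd ((hcon i).2 ?_) (not_le.2 hi)
        intro p hp hpJ
        have hmem : p ^ (sd z i).factorization p ∈ U := by
          apply hbpU i
          rw [hbp]
          exact mem_image.2 ⟨p, mem_filter.2 ⟨hp, hpJ⟩, rfl⟩
        rcases hgap _ hmem with h3 | h3
        · exact h3
        · exact absurd h3 (not_le.2 (hno p hp hpJ))
      have hκM : κ < M' - 1 := by
        have e1 : L lv ≤ L (V + 1) := hLmono (by omega)
        have e2 : (J + 1) * L lv ≤ (J + 1) * L (V + 1) := Nat.mul_le_mul_left _ e1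
        omega
      have hbκ : X ^ κ < sd z 1 := by
        show X ^ κ < z.2
        exact lt_of_lt_of_le (Nat.pow_lt_pow_right (by omega) hκM) hbbig
      have hcκ : X ^ κ < sd z 2 := by
        show X ^ κ < z.1 + z.2
        have e1 : X ^ κ < z.2 := hbκ
        omega
      obtain ⟨x, hx, hxJ, hxL⟩ := hbig 1 hbκ
      obtain ⟨y, hy, hyJ, hyL⟩ := hbig 2 hcκ
      have hxY := hw 1 x hx hxL
      have hyY := hw 2 y hy hyL
      obtain ⟨B, hB, hBr⟩ := CW_split (hn1 1) hx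
      obtain ⟨D, hD, hDr⟩ := CW_split (hn1 2) hy
      have hxX : x ≤ X := by
        refine le_trans ?_ (hRX 1)
        rw [hBr]
        exact Nat.le_mul_of_pos_left _ (Pool.MP_a95293_nt.RC.rd_pos _)
      have hyX : y ≤ X := by
        refine le_trans ?_ (hRX 2)
        rw [hDr]
        exact Nat.le_mul_of_pos_left _ (Pool.MP_a95293_nt.RC.rd_pos _)
      have hxe := CW_exp (A := A) (n := sd z 1) hX2 hxX hxJ hxL
        (Nat.le_of_dvd (hn1 1) (Nat.ordProj_dvd _ _)) (hnA 1)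
      have hye := CW_exp (A := A) (n := sd z 2) hX2 hyX hyJ hyL
        (Nat.le_of_dvd (hn1 2) (Nat.ordProj_dvd _ _)) (hnA 2)
      refine Or.inr (Or.inr ⟨(sd z 1).factorization x, (sd z 2).factorization y, B, D, x, y,
        ⟨hLe.trans hxe.1, hxe.2⟩, ⟨hLe.trans hye.1, hye.2⟩,
        ⟨Nat.prime_of_mem_primeFactors hx, hxX⟩, ⟨Nat.prime_of_mem_primeFactors hy, hyX⟩,
        hB, hD, ?_⟩)
      have e1 : R 0 * R 1 * R 2 = ((rd z.1 : ℝ) * rd B * rd D) * ((x : ℝ) * y) := by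
        show (rd (sd z 0) : ℝ) * (rd (sd z 1) : ℝ) * (rd (sd z 2) : ℝ) = _
        rw [hBr, hDr]
        push_cast
        show (rd z.1 : ℝ) * _ * _ = _
        ring
      rw [e1] at hR3
      set P : ℝ := (rd z.1 : ℝ) * rd B * rd D with hP
      have hP0 : 0 ≤ P := by positivity
      by_contra hcon2
      push Not at hcon2
      set Y : ℝ := (X : ℝ) ^ θ with hY
      have e2 : Y * Y < (x : ℝ) * y := mul_lt_mul'' hxY hyY hY0.le hY0.le
      have e3 : Y * (Y * Y) < P * ((x : ℝ) * y) := mul_lt_mul'' hcon2 e2 hY0.le (by positivity)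
      have e4 : Y ^ 3 = Y * (Y * Y) := by ring
      rw [e4] at hYc
      linarith

end Pool.MP_a95293_nt.CG
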