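import Pool.Agent.Lib_MP_a95293_cg.Defs

/-!
# Piece CG-5 (GRP): one coordinate is a monomial in the others, modulo `p ^ a`

PROOF of `grp`. Let `P = p ^ a`, `m_l = p ^ v * m'_l`, `p` does not divide `m'_i`. Choose an integer `u` with
`m'_i * u ≡ 1 [ZMOD p ^ a]` and `t l : ℕ` with `t l ≡ - m'_l * u [ZMOD p ^ a]`.
Work in the unit group `G = (ZMod (p ^ (a + v)))ˣ` and its quotient modulo `p ^ a`. Put `x_l = y_l / y'_l ∈ G`:
`x_l ≡ 1` modulo `p ^ min (j + v) (a + v)`. `Rel` says `∏ x_l ^ m_l = 1` in `G`. Put `w = ∏ x_l ^ m'_l`, so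
`w ^ (p ^ v) = 1` modulo `p ^ (a + v)` and `w ≡ 1` modulo `p ^ (j + v)` (if `j + v ≤ a + v`; otherwise
`w = 1` and everything is clear). CLAIM `w ≡ 1` modulo `p ^ a`: `w ^ (p ^ v) - 1 = (w - 1) * ∑_(u < p ^ v) w ^ u`
(`geom_sum_mul`) and `∑ w ^ u ≡ p ^ v` modulo `p ^ (j + v)`, so `∑ w ^ u = p ^ v * (1 + p * ...)`, a unit times `p ^ v`
(`j ≥ 1`); for integers: `p ^ (a + v) ∣ (W - 1) * p ^ v * unit`, so `p ^ a ∣ W - 1`.
The units `≡ 1` modulo `p` of `ZMod (p ^ a)` satisfy `x ^ (p ^ a) = 1` (or `x ^ (p ^ (a - 1)) = 1`): from `w = 1` in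
`(ZMod (p ^ a))ˣ`: `1 = w ^ u = x_i ^ (m'_i u) * ∏_(l ≠ i) x_l ^ (m'_l u)`, and exponents may be changed modulo `p ^ a`:
`x_i = ∏_(l ≠ i) x_l ^ (t l)`. (All `x_l ≡ 1` modulo `p` because `j + v ≥ 1`.)
`pow_card_one`: `(1 + p z) ^ (p ^ a) ≡ 1` modulo `p ^ a`: `Int.ModEq`/`ZMod` lemma by induction on `a`
(`dvd_sub_pow_of_dvd_sub` in Mathlib: `p ∣ a - b → p ^ (k + 1) ∣ a ^ (p ^ k) - b ^ (p ^ k)`).
-/

set_option autoImplicit false

namespace Pool.MP_a95293_nt.CG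

open Finset

private theorem xzpow_eq {G : Type*} [Group G] (x : G) (q : ℕ) (hx : x ^ q = 1) (b c : ℤ)
    (h : (q : ℤ) ∣ b - c) : x ^ b = x ^ c := by
  obtain ⟨d, hd⟩ := h
  have hb : b = c + q * d := by linarith
  rw [hb, zpow_add, zpow_mul, zpow_natCast, hx, one_zpow, mul_one]

private theorem xdiv {G : Type*} [CommGroup G] {n : ℕ} (f g : Fin n → G) (m : Fin n → ℤ)
    (h : (∏ l, f l ^ (m l).toNat) * (∏ l, g l ^ (-m l).toNat) =
      (∏ l, g l ^ (m l).toNat) * (∏ l, f l ^ (-m l).toNat)) :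
    ∏ l, (f l * (g l)⁻¹) ^ (m l) = 1 := by
  have e1 : ∀ (x : G) (k : ℤ), x ^ k = x ^ (k.toNat) * (x ^ ((-k).toNat))⁻¹ := by
    intro x k
    rw [← zpow_natCast x k.toNat, ← zpow_natCast x (-k).toNat, ← zpow_neg, ← zpow_add]
    congr 1
    omega
  have e2 : ∀ l, (f l * (g l)⁻¹) ^ (m l) =
      (f l ^ (m l).toNat * g l ^ (-m l).toNat) * (g l ^ (m l).toNat * f l ^ (-m l).toNat)⁻¹ := by
    intro l
    rw [mul_zpow, inv_zpow, e1 (f l) (m l), e1 (g l) (m l)]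
    rw [mul_inv, mul_inv, inv_inv]
    generalize f l ^ (m l).toNat = A
    generalize f l ^ (-m l).toNat = B
    generalize g l ^ (m l).toNat = C
    generalize g l ^ (-m l).toNat = D
    rw [mul_mul_mul_comm A D C⁻¹ B⁻¹, mul_comm D B⁻¹, mul_mul_mul_comm]
  rw [Finset.prod_congr rfl fun l _ => e2 l, Finset.prod_mul_distrib, Finset.prod_inv_distrib,
    Finset.prod_mul_distrib, Finset.prod_mul_distrib, h, mul_inv_cancel]

theorem grp {n : ℕ} (p : ℕ) (hp : p.Prime) (a j v : ℕ) (hj : 1 ≤ j) (m : Fin n → ℤ) (i : Fin n)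
    (hv : ∀ l, (p : ℤ) ^ v ∣ m l) (hi : ¬ (p : ℤ) ^ (v + 1) ∣ m i) :
    ∃ t : Fin n → ℕ, ∀ y y' : Fin n → ℕ, (∀ l, ¬ p ∣ y l) → (∀ l, ¬ p ∣ y' l) →
      (∀ l, y l ≡ y' l [MOD p ^ (j + v)]) → Rel (p ^ (a + v)) m y y' →
      y i * ∏ l ∈ univ.erase i, y' l ^ t l ≡ y' i * ∏ l ∈ univ.erase i, y l ^ t l [MOD p ^ a] := by
  have hP : 0 < p := hp.pos
  have : Fact p.Prime := ⟨hp⟩
  choose m' hm' using hv
  have hcop : ¬ (p : ℤ) ∣ m' i := by
    rintro ⟨d, hd⟩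
    apply hi
    refine ⟨d, ?_⟩
    rw [hm' i, hd, pow_succ, mul_assoc]
  -- inverse of m' i modulo p ^ a
  have hgcd : IsCoprime (m' i) ((p : ℤ) ^ a) := by
    apply IsCoprime.pow_right
    rw [isCoprime_comm]
    exact (Prime.coprime_iff_not_dvd (Nat.prime_iff_prime_int.mp hp)).mpr hcop
  obtain ⟨u, u', hu⟩ := hgcd
  have hPa : (0 : ℤ) < (p : ℤ) ^ a := by positivity
  refine ⟨fun l => ((-(m' l * u)) % ((p : ℤ) ^ a)).toNat, ?_⟩
  intro y y' hy hy' hyy hrel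
  have ht : ∀ l, ((((-(m' l * u)) % ((p : ℤ) ^ a)).toNat : ℕ) : ℤ) = (-(m' l * u)) % ((p : ℤ) ^ a) := by
    intro l
    exact Int.toNat_of_nonneg (Int.emod_nonneg _ hPa.ne')
  set t : Fin n → ℕ := fun l => ((-(m' l * u)) % ((p : ℤ) ^ a)).toNat with htdef
  have hc : ∀ (k : ℕ) (z : ℕ), ¬ p ∣ z → z.Coprime (p ^ k) := fun k z hz =>
    Nat.Coprime.pow_right _ ((Nat.Prime.coprime_iff_not_dvd hp).mpr hz).symm
  -- units modulo p ^ (a + v)
  let Y : Fin n → (ZMod (p ^ (a + v)))ˣ := fun l => ZMod.unitOfCoprime (y l) (hc _ _ (hy l))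
  let Y' : Fin n → (ZMod (p ^ (a + v)))ˣ := fun l => ZMod.unitOfCoprime (y' l) (hc _ _ (hy' l))
  have hY : ∀ l, ((Y l : (ZMod (p ^ (a + v)))ˣ) : ZMod (p ^ (a + v))) = (y l : ZMod (p ^ (a + v))) :=
    fun l => ZMod.coe_unitOfCoprime _ _
  have hY' : ∀ l, ((Y' l : (ZMod (p ^ (a + v)))ˣ) : ZMod (p ^ (a + v))) = (y' l : ZMod (p ^ (a + v))) :=
    fun l => ZMod.coe_unitOfCoprime _ _
  have hR : ∏ l, (Y l * (Y' l)⁻¹) ^ (m l) = 1 := by
    apply xdiv
    apply Units.ext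
    have h1 := (ZMod.natCast_eq_natCast_iff _ _ _).mpr hrel
    push_cast at h1 ⊢
    simp only [hY, hY']
    exact h1
  set w : (ZMod (p ^ (a + v)))ˣ := ∏ l, (Y l * (Y' l)⁻¹) ^ (m' l) with hw
  have hwp : w ^ (p ^ v) = 1 := by
    rw [hw, ← Finset.prod_pow, ← hR]
    apply Finset.prod_congr rfl
    intro l _
    rw [hm' l, mul_comm ((p : ℤ) ^ v) (m' l), zpow_mul, ← zpow_natCast]
    push_cast
    rfl
  -- w = 1 modulo p ^ (j + v)
  have hw1 : ((p : ZMod (p ^ (a + v))) ^ (j + v)) ∣ ((w : ZMod (p ^ (a + v))) - 1) := by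
    let I : Ideal (ZMod (p ^ (a + v))) := Ideal.span {((p : ZMod (p ^ (a + v))) ^ (j + v))}
    let π : (ZMod (p ^ (a + v)))ˣ →* (ZMod (p ^ (a + v)) ⧸ I)ˣ := Units.map (Ideal.Quotient.mk I).toMonoidHom
    have hk : ∀ l, π (Y l * (Y' l)⁻¹) = 1 := by
      intro l
      rw [map_mul, map_inv, mul_inv_eq_one]
      apply Units.ext
      change (Ideal.Quotient.mk I) (Y l : ZMod (p ^ (a + v))) = (Ideal.Quotient.mk I) (Y' l : ZMod (p ^ (a + v)))
      rw [Ideal.Quotient.eq, Ideal.mem_span_singleton, hY, hY']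
      obtain ⟨c, hc⟩ := (Int.natCast_modEq_iff.mpr (hyy l).symm).dvd
      refine ⟨(c : ZMod (p ^ (a + v))), ?_⟩
      have := congrArg (fun z : ℤ => (z : ZMod (p ^ (a + v)))) hc
      push_cast at this
      exact this
    have hkw : π w = 1 := by
      rw [hw, map_prod]
      apply Finset.prod_eq_one
      intro l _
      rw [map_zpow, hk, one_zpow]
    have := congrArg Units.val hkw
    change (Ideal.Quotient.mk I) (w : ZMod (p ^ (a + v))) = 1 at this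
    rw [← map_one (Ideal.Quotient.mk I), Ideal.Quotient.eq, Ideal.mem_span_singleton] at this
    exact this
  -- p ^ v * (w - 1) = 0
  have hw2 : (p : ZMod (p ^ (a + v))) ^ v * ((w : ZMod (p ^ (a + v))) - 1) = 0 := by
    have hs : (p : ZMod (p ^ (a + v))) ^ (j + v) ∣
        (∑ k ∈ range (p ^ v), (w : ZMod (p ^ (a + v))) ^ k) - (p : ZMod (p ^ (a + v))) ^ v := by
      have : (∑ k ∈ range (p ^ v), (w : ZMod (p ^ (a + v))) ^ k) - (p : ZMod (p ^ (a + v))) ^ v =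
          ∑ k ∈ range (p ^ v), ((w : ZMod (p ^ (a + v))) ^ k - 1) := by
        rw [Finset.sum_sub_distrib]
        simp
      rw [this]
      apply Finset.dvd_sum
      intro k _
      refine hw1.trans ?_
      have := sub_dvd_pow_sub_pow (w : ZMod (p ^ (a + v))) 1 k
      rwa [one_pow] at this
    obtain ⟨z, hz⟩ := hs
    have hg := mul_geom_sum (w : ZMod (p ^ (a + v))) (p ^ v)
    have hwp' : (w : ZMod (p ^ (a + v))) ^ (p ^ v) = 1 := by
      have := congrArg Units.val hwp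
      simpa using this
    rw [hwp', sub_self, sub_eq_iff_eq_add.mp hz] at hg
    obtain ⟨j', rfl⟩ : ∃ j', j = j' + 1 := ⟨j - 1, by omega⟩
    have hun : IsUnit (1 + (p : ZMod (p ^ (a + v))) * ((p : ZMod (p ^ (a + v))) ^ j' * z)) := by
      apply IsNilpotent.isUnit_one_add
      refine ⟨a + v, ?_⟩
      rw [mul_pow]
      have : (p : ZMod (p ^ (a + v))) ^ (a + v) = 0 := by
        have := ZMod.natCast_self (p ^ (a + v))
        push_cast at this
        exact this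
      rw [this, zero_mul]
    have hg2 : (p : ZMod (p ^ (a + v))) ^ v * ((w : ZMod (p ^ (a + v))) - 1) *
        (1 + (p : ZMod (p ^ (a + v))) * ((p : ZMod (p ^ (a + v))) ^ j' * z)) = 0 := by
      rw [← hg]
      ring
    exact (IsUnit.mul_left_eq_zero hun).mp hg2
  -- reduction modulo p ^ a
  have hdv : p ^ a ∣ p ^ (a + v) := pow_dvd_pow p (Nat.le_add_right a v)
  let ρ : (ZMod (p ^ (a + v)))ˣ →* (ZMod (p ^ a))ˣ := ZMod.unitsMap hdv
  have hρ : ∀ x : (ZMod (p ^ (a + v)))ˣ, ((ρ x : (ZMod (p ^ a))ˣ) : ZMod (p ^ a)) =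
      ZMod.castHom hdv (ZMod (p ^ a)) (x : ZMod (p ^ (a + v))) := fun x => rfl
  have hρw : ρ w = 1 := by
    apply Units.ext
    rw [hρ, Units.val_one]
    have : NeZero (p ^ (a + v)) := ⟨(pow_pos hP _).ne'⟩
    have h3 : ∃ W : ℕ, (W : ZMod (p ^ (a + v))) = (w : ZMod (p ^ (a + v))) - 1 :=
      ⟨((w : ZMod (p ^ (a + v))) - 1).val, ZMod.natCast_zmod_val _⟩
    obtain ⟨W, hW⟩ := h3
    rw [← hW] at hw2
    have h4 : ((p ^ v * W : ℕ) : ZMod (p ^ (a + v))) = 0 := by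
      push_cast
      exact hw2
    rw [ZMod.natCast_eq_zero_iff, pow_add, mul_comm (p ^ a)] at h4
    have h5 : p ^ a ∣ W := Nat.dvd_of_mul_dvd_mul_left (pow_pos hP v) h4
    have h6 : (w : ZMod (p ^ (a + v))) = (W : ZMod (p ^ (a + v))) + 1 := by rw [hW]; ring
    rw [h6, map_add, map_one, map_natCast, (ZMod.natCast_eq_zero_iff _ _).mpr h5, zero_add]
  let X : Fin n → (ZMod (p ^ a))ˣ := fun l => ρ (Y l * (Y' l)⁻¹)
  have hX1 : ∏ l, X l ^ (m' l) = 1 := by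
    have h7 := hρw
    rw [hw, map_prod] at h7
    rw [← h7]
    apply Finset.prod_congr rfl
    intro l _
    rw [map_zpow]
  let V : Fin n → (ZMod (p ^ a))ˣ := fun l => ρ (Y l)
  let V' : Fin n → (ZMod (p ^ a))ˣ := fun l => ρ (Y' l)
  have hV : ∀ l, ((V l : (ZMod (p ^ a))ˣ) : ZMod (p ^ a)) = (y l : ZMod (p ^ a)) := by
    intro l
    change ((ρ (Y l) : (ZMod (p ^ a))ˣ) : ZMod (p ^ a)) = _
    rw [hρ, hY, map_natCast]
  have hV' : ∀ l, ((V' l : (ZMod (p ^ a))ˣ) : ZMod (p ^ a)) = (y' l : ZMod (p ^ a)) := by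
    intro l
    change ((ρ (Y' l) : (ZMod (p ^ a))ˣ) : ZMod (p ^ a)) = _
    rw [hρ, hY', map_natCast]
  have hXV : ∀ l, X l = V l * (V' l)⁻¹ := by
    intro l
    change ρ (Y l * (Y' l)⁻¹) = ρ (Y l) * (ρ (Y' l))⁻¹
    rw [map_mul, map_inv]
  have hVpow : ∀ l, (V l) ^ (p ^ a) = (V' l) ^ (p ^ a) := by
    intro l
    apply Units.ext
    push_cast
    rw [hV, hV']
    have h8 : ((p : ℕ) : ℤ) ∣ ((y l : ℕ) : ℤ) - ((y' l : ℕ) : ℤ) := by
      have h9 : y l ≡ y' l [MOD p] := (hyy l).of_dvd (dvd_pow_self p (by omega))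
      exact (Int.natCast_modEq_iff.mpr h9.symm).dvd
    have h10 := dvd_sub_pow_of_dvd_sub h8 a
    have h11 : ((p : ℤ) ^ a) ∣ (y l : ℤ) ^ p ^ a - (y' l : ℤ) ^ p ^ a :=
      (pow_dvd_pow (p : ℤ) (Nat.le_succ a)).trans h10
    obtain ⟨c, hc⟩ := h11
    have h12 := congrArg (fun z : ℤ => (z : ZMod (p ^ a))) hc
    push_cast at h12
    have h13 : (p : ZMod (p ^ a)) ^ a = 0 := by
      have := ZMod.natCast_self (p ^ a)
      push_cast at this
      exact this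
    rw [h13, zero_mul] at h12
    exact sub_eq_zero.mp h12
  have hXpow : ∀ l, (X l) ^ (p ^ a) = 1 := by
    intro l
    rw [hXV, mul_pow, inv_pow, hVpow, mul_inv_cancel]
  have hq : (((p ^ a : ℕ)) : ℤ) = (p : ℤ) ^ a := by push_cast; rfl
  have hmain : X i = ∏ l ∈ univ.erase i, X l ^ (t l) := by
    have h14 : ∏ l, X l ^ (m' l * u) = 1 := by
      have : ∏ l, X l ^ (m' l * u) = (∏ l, X l ^ (m' l)) ^ u := by
        rw [← Finset.prod_zpow]
        apply Finset.prod_congr rfl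
        intro l _
        rw [zpow_mul]
      rw [this, hX1, one_zpow]
    rw [← Finset.mul_prod_erase univ _ (mem_univ i)] at h14
    have h15 : X i ^ (m' i * u) = X i := by
      rw [xzpow_eq (X i) (p ^ a) (hXpow i) (m' i * u) 1, zpow_one]
      rw [hq]
      refine ⟨-u', ?_⟩
      linarith
    have h16 : ∏ l ∈ univ.erase i, X l ^ (m' l * u) = (∏ l ∈ univ.erase i, X l ^ (t l))⁻¹ := by
      rw [← Finset.prod_inv_distrib]
      apply Finset.prod_congr rfl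
      intro l _
      rw [← zpow_natCast, ← zpow_neg]
      apply xzpow_eq (X l) (p ^ a) (hXpow l)
      rw [hq, ht l]
      have := Int.emod_add_mul_ediv (-(m' l * u)) ((p : ℤ) ^ a)
      refine ⟨-(-(m' l * u) / (p : ℤ) ^ a), ?_⟩
      linarith
    rw [h15, h16, mul_inv_eq_one] at h14
    exact h14
  have hfin : V i * ∏ l ∈ univ.erase i, V' l ^ (t l) = V' i * ∏ l ∈ univ.erase i, V l ^ (t l) := by
    have h17 : ∏ l ∈ univ.erase i, X l ^ (t l) =
        (∏ l ∈ univ.erase i, V l ^ (t l)) * (∏ l ∈ univ.erase i, V' l ^ (t l))⁻¹ := by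
      rw [← Finset.prod_inv_distrib, ← Finset.prod_mul_distrib]
      apply Finset.prod_congr rfl
      intro l _
      rw [hXV, mul_pow, inv_pow]
    rw [hXV, h17] at hmain
    rw [mul_inv_eq_iff_eq_mul] at hmain
    have h19 : ∀ A B v' : (ZMod (p ^ a))ˣ, A * B⁻¹ * v' * B = v' * A := by
      intro A B v'
      rw [mul_assoc, mul_comm v' B, ← mul_assoc, inv_mul_cancel_right, mul_comm]
    rw [hmain]
    exact h19 _ _ _
  rw [← ZMod.natCast_eq_natCast_iff]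
  push_cast
  have h18 := congrArg Units.val hfin
  push_cast at h18
  simp only [hV, hV'] at h18
  exact h18

end Pool.MP_a95293_nt.CG
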