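import Pool.Agent.Lib_MP_a95293_cg.DetG
import Pool.Agent.Lib_MP_a95293_cg.Grp

/-!
# Piece CG-6 (DETP): divisibility of the determinant by prime powers, and by `gcd (q, q0 ^ T)`

PROOF of `detP`. `N = 0` is trivial (then `K * (0 - _) = 0`, so `a = 0`). Let `s₀ = 0 : Fin N`. In `R = ZMod (p ^ a)`
the `y s₀ l` are units; let `x s l = y s l / y s₀ l`. As `y s l ≡ y s₀ l` modulo `p ^ j` we have `x s l = 1 + p ^ j * u s l`.
By `grp` `x s i = ∏_(l ≠ i) x s l ^ t l`. So `∏ l, (y s l) ^ e k l = (∏ l, y s₀ l ^ e k l) * ∏_(l ≠ i) x s l ^ (e k l + t l * e k i)`: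
the determinant in `R` is `∏ k (...)` times the determinant of `det_pi` with `π = (p : R) ^ j`,
`π ^ T = p ^ (j T) = 0` because `a ≤ j T`. (`Matrix.det_mul_row`, `RingHom.map_det`, `ZMod.intCast_zmod_eq_zero_iff_dvd`.)
PROOF of `detQ`. By `Nat.dvd_iff_prime_pow_dvd_dvd`-type argument (for `b = factorization`): let `p ^ b ∣ gcd (q, q0 ^ T)`,
`b ≥ 1`, `p` prime; `j = q0.factorization p ≥ 1`, `b ≤ j T` . Let `v` be the minimum of the `p`-adic valuations of the `m l`,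
attained at `i`; `p ^ v ∣ ∏ |m l|`. If `b ≤ v` then `p ^ b ∣ ∏ |m l|`. Otherwise `a = b - v`: `a + v = b`,
`p ^ (a + v) ∣ q`, so `Rel (p ^ (a + v))`, and `y s ≡ y s'` modulo `p ^ (j + v)` because `p ^ (j + v) ∣ q0 * ∏ |m l|`;
`detP` gives `p ^ a ∣ det`, so `p ^ b ∣ (∏ |m l|) * det`.
-/

set_option autoImplicit false

namespace Pool.MP_a95293_nt.CG

open Finset

theorem detP {n : ℕ} (N K : ℕ) (p : ℕ) (hp : p.Prime) (a j v : ℕ) (hj : 1 ≤ j)
    (ha : a ≤ j * (K * (N - K ^ (n - 1)))) (m : Fin n → ℤ) (i : Fin n)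
    (hv : ∀ l, (p : ℤ) ^ v ∣ m l) (hi : ¬ (p : ℤ) ^ (v + 1) ∣ m i)
    (y : Fin N → Fin n → ℕ) (hy : ∀ s l, ¬ p ∣ y s l) (hc : ∀ s s' l, y s l ≡ y s' l [MOD p ^ (j + v)])
    (hR : ∀ s s', Rel (p ^ (a + v)) m (y s) (y s')) (e : Fin N → Fin n → ℕ) :
    (p : ℤ) ^ a ∣ Matrix.det (Matrix.of fun s k : Fin N => ∏ l, (y s l : ℤ) ^ e k l) := by
  classical
  rcases Nat.eq_zero_or_pos N with hN | hN
  · subst hN
    have : a = 0 := by simpa using ha
    subst this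
    simp
  obtain ⟨t, ht⟩ := grp p hp a j v hj m i hv hi
  let s₀ : Fin N := ⟨0, hN⟩
  let R := ZMod (p ^ a)
  have hp0 : ((p : R)) ^ a = 0 := by
    have h : (((p ^ a : ℕ)) : R) = 0 := ZMod.natCast_self (p ^ a)
    rwa [Nat.cast_pow] at h
  -- the `y s l` are units
  have hunit : ∀ s l, IsUnit ((y s l : ℕ) : R) := by
    intro s l
    rw [ZMod.isUnit_iff_coprime]
    exact (((Nat.Prime.coprime_iff_not_dvd hp).2 (hy s l)).pow_left a).symm
  -- the `u s l`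
  have hu : ∀ s l, ∃ u : R, ((y s l : ℕ) : R) = ((y s₀ l : ℕ) : R) * (1 + (p : R) ^ j * u) := by
    intro s l
    have hd : ((p ^ (j + v) : ℕ) : ℤ) ∣ ((y s l : ℕ) : ℤ) - ((y s₀ l : ℕ) : ℤ) :=
      (Nat.modEq_iff_dvd.1 (hc s₀ s l))
    obtain ⟨z, hz⟩ := hd
    obtain ⟨w, hw⟩ := hunit s₀ l
    refine ⟨(p : R) ^ v * (z : R) * ((w⁻¹ : Rˣ) : R), ?_⟩
    have hz' : ((y s l : ℕ) : R) = ((y s₀ l : ℕ) : R) + (p : R) ^ (j + v) * (z : R) := by
      have h1 : (((y s l : ℕ) : ℤ) : R) = ((((y s₀ l : ℕ) : ℤ) + ((p ^ (j + v) : ℕ) : ℤ) * z : ℤ) : R) := by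
        congr 1
        linarith
      rw [Int.cast_add, Int.cast_mul, Int.cast_natCast, Int.cast_natCast, Int.cast_natCast, Nat.cast_pow] at h1
      exact h1
    have hww : ((y s₀ l : ℕ) : R) * ((w⁻¹ : Rˣ) : R) = 1 := by
      rw [← hw]
      exact w.mul_inv
    calc ((y s l : ℕ) : R) = ((y s₀ l : ℕ) : R) + (p : R) ^ j * ((p : R) ^ v * (z : R)) := by
          rw [hz', pow_add]; ring
      _ = ((y s₀ l : ℕ) : R) + (p : R) ^ j * ((p : R) ^ v * (z : R)) * (((y s₀ l : ℕ) : R) * ((w⁻¹ : Rˣ) : R)) := by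
          rw [hww, mul_one]
      _ = _ := by ring
  choose u hu using hu
  -- the relation for coordinate `i`
  have hx : ∀ s, (1 + (p : R) ^ j * u s i) = ∏ l ∈ univ.erase i, (1 + (p : R) ^ j * u s l) ^ t l := by
    intro s
    have h1 := ht (y s) (y s₀) (hy s) (hy s₀) (hc s s₀) (hR s s₀)
    have h2 := (ZMod.natCast_eq_natCast_iff _ _ _).2 h1
    push_cast at h2
    change ((y s i : ℕ) : R) * ∏ l ∈ univ.erase i, ((y s₀ l : ℕ) : R) ^ t l =
      ((y s₀ i : ℕ) : R) * ∏ l ∈ univ.erase i, ((y s l : ℕ) : R) ^ t l at h2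
    have h3 : ∏ l ∈ univ.erase i, ((y s l : ℕ) : R) ^ t l =
        (∏ l ∈ univ.erase i, ((y s₀ l : ℕ) : R) ^ t l) * ∏ l ∈ univ.erase i, (1 + (p : R) ^ j * u s l) ^ t l := by
      rw [← prod_mul_distrib]
      refine prod_congr rfl fun l _ => ?_
      rw [hu s l, mul_pow]
    rw [h3, hu s i] at h2
    have hU : IsUnit (((y s₀ i : ℕ) : R) * ∏ l ∈ univ.erase i, ((y s₀ l : ℕ) : R) ^ t l) := by
      refine (hunit s₀ i).mul ?_
      refine IsUnit.prod_iff.2 fun l _ => (hunit s₀ l).pow _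
    refine hU.mul_left_cancel ?_
    calc ((y s₀ i : ℕ) : R) * (∏ l ∈ univ.erase i, ((y s₀ l : ℕ) : R) ^ t l) * (1 + (p : R) ^ j * u s i)
        = ((y s₀ i : ℕ) : R) * (1 + (p : R) ^ j * u s i) * ∏ l ∈ univ.erase i, ((y s₀ l : ℕ) : R) ^ t l := by ring
      _ = _ := by rw [h2]; ring
  -- the determinant in `R`
  have hent : ∀ s k : Fin N, ∏ l, (((y s l : ℕ) : R)) ^ e k l = (∏ l, ((y s₀ l : ℕ) : R) ^ e k l) *
      ∏ l ∈ univ.erase i, (1 + (p : R) ^ j * u s l) ^ (e k l + t l * e k i) := by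
    intro s k
    have h1 : ∏ l, (((y s l : ℕ) : R)) ^ e k l =
        (∏ l, ((y s₀ l : ℕ) : R) ^ e k l) * ∏ l, (1 + (p : R) ^ j * u s l) ^ e k l := by
      rw [← prod_mul_distrib]
      refine prod_congr rfl fun l _ => ?_
      rw [hu s l, mul_pow]
    rw [h1, ← mul_prod_erase univ (fun l => (1 + (p : R) ^ j * u s l) ^ e k l) (mem_univ i), hx s]
    congr 1
    rw [← prod_pow, ← prod_mul_distrib]
    refine prod_congr rfl fun l _ => ?_
    rw [← pow_mul, ← pow_add]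
    congr 1
    ring
  have hdet : Matrix.det (Matrix.of fun s k : Fin N => ∏ l, (((y s l : ℕ) : R)) ^ e k l) = 0 := by
    have h1 : (Matrix.of fun s k : Fin N => ∏ l, (((y s l : ℕ) : R)) ^ e k l) =
        Matrix.of fun s k : Fin N => (∏ l, ((y s₀ l : ℕ) : R) ^ e k l) *
          (Matrix.of fun s k : Fin N => ∏ l ∈ univ.erase i, (1 + (p : R) ^ j * u s l) ^ (e k l + t l * e k i)) s k := by
      ext s k
      exact hent s k
    rw [h1, Matrix.det_mul_row]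
    rw [det_pi i N K ((p : R) ^ j) (by
      rw [Fintype.card_fin, ← pow_mul]
      obtain ⟨b, hb⟩ := Nat.exists_eq_add_of_le ha
      rw [hb, pow_add, hp0, zero_mul]) u (fun k l => e k l + t l * e k i), mul_zero]
  -- back to the integers
  have hcast : ((Matrix.det (Matrix.of fun s k : Fin N => ∏ l, (y s l : ℤ) ^ e k l) : ℤ) : R) = 0 := by
    have h1 := (Int.castRingHom R).map_det (Matrix.of fun s k : Fin N => ∏ l, (y s l : ℤ) ^ e k l)
    have h2 : (Int.castRingHom R).mapMatrix (Matrix.of fun s k : Fin N => ∏ l, (y s l : ℤ) ^ e k l) =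
        Matrix.of fun s k : Fin N => ∏ l, (((y s l : ℕ) : R)) ^ e k l := by
      ext s k
      simp [RingHom.mapMatrix_apply, Matrix.map_apply]
    rw [h2, hdet] at h1
    exact h1
  have := (ZMod.intCast_zmod_eq_zero_iff_dvd _ _).1 hcast
  rwa [Nat.cast_pow] at this

theorem detQ {n : ℕ} (hn : 0 < n) (N K : ℕ) (q q0 : ℕ) (hq : 1 ≤ q) (hq0 : 1 ≤ q0)
    (hpq : ∀ p, p.Prime → p ∣ q → p ∣ q0) (m : Fin n → ℤ) (hm : ∀ i, m i ≠ 0)
    (y : Fin N → Fin n → ℕ) (hy : ∀ s l, (y s l).Coprime q)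
    (hc : ∀ s s' l, y s l ≡ y s' l [MOD q0 * ∏ i, (m i).natAbs])
    (hR : ∀ s s', Rel q m (y s) (y s')) (e : Fin N → Fin n → ℕ) :
    ((Nat.gcd q (q0 ^ (K * (N - K ^ (n - 1)))) : ℕ) : ℤ) ∣
      (∏ i, ((m i).natAbs : ℤ)) * Matrix.det (Matrix.of fun s k : Fin N => ∏ l, (y s l : ℤ) ^ e k l) := by
  classical
  set D := Matrix.det (Matrix.of fun s k : Fin N => ∏ l, (y s l : ℤ) ^ e k l) with hD
  set T := K * (N - K ^ (n - 1)) with hT
  rw [Int.natCast_dvd, Nat.dvd_iff_prime_pow_dvd_dvd]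
  intro p b hp hb
  rw [← Int.natCast_dvd]
  rcases Nat.eq_zero_or_pos b with hb0 | hb0
  · subst hb0
    simp
  have hbq : p ^ b ∣ q := hb.trans (Nat.gcd_dvd_left _ _)
  have hbq0 : p ^ b ∣ q0 ^ T := hb.trans (Nat.gcd_dvd_right _ _)
  have hpdq : p ∣ q := (dvd_pow_self p hb0.ne').trans hbq
  have hpdq0 : p ∣ q0 := hpq p hp hpdq
  set j := q0.factorization p with hj
  have hj1 : 1 ≤ j := hp.factorization_pos_of_dvd (by omega) hpdq0
  have hjT : b ≤ j * T := by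
    have h1 : b ≤ (q0 ^ T).factorization p :=
      (hp.pow_dvd_iff_le_factorization (pow_ne_zero _ (by omega))).1 hbq0
    rw [Nat.factorization_pow] at h1
    have h2 : (T • q0.factorization) p = T * j := by simp [hj]
    rw [h2] at h1
    rw [mul_comm]
    exact h1
  have hpj : p ^ j ∣ q0 := Nat.ordProj_dvd q0 p
  haveI : Nonempty (Fin n) := ⟨⟨0, hn⟩⟩
  obtain ⟨i, hi⟩ := Finite.exists_min (fun l : Fin n => (m l).natAbs.factorization p)
  set v := (m i).natAbs.factorization p with hv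
  have hv1 : ∀ l, p ^ v ∣ (m l).natAbs := fun l =>
    (hp.pow_dvd_iff_le_factorization (Int.natAbs_ne_zero.2 (hm l))).2 (hi l)
  have hv2 : ∀ l, (p : ℤ) ^ v ∣ m l := fun l => by
    have := Int.natCast_dvd.2 (hv1 l)
    rwa [Nat.cast_pow] at this
  have hv3 : ¬ (p : ℤ) ^ (v + 1) ∣ m i := by
    intro h
    have h1 : ((p ^ (v + 1) : ℕ) : ℤ) ∣ m i := by
      rwa [Nat.cast_pow]
    have h2 := (hp.pow_dvd_iff_le_factorization (Int.natAbs_ne_zero.2 (hm i))).1 (Int.natCast_dvd.1 h1)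
    omega
  have hprod : p ^ v ∣ ∏ l, (m l).natAbs := (hv1 i).trans (dvd_prod_of_mem _ (mem_univ i))
  have hprod' : ((p : ℤ)) ^ v ∣ ∏ l, ((m l).natAbs : ℤ) := by
    have := Int.natCast_dvd_natCast.2 hprod
    rw [Nat.cast_pow] at this
    refine this.trans (dvd_of_eq ?_)
    push_cast
    rfl
  rw [Nat.cast_pow]
  rcases le_total b v with hbv | hbv
  · exact ((pow_dvd_pow (p : ℤ) hbv).trans hprod').mul_right _
  · obtain ⟨a, rfl⟩ := Nat.exists_eq_add_of_le hbv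
    have hdp := detP N K p hp a j v hj1 (le_trans (by omega) hjT) m i hv2 hv3 y
      (fun s l hpy => by
        have h1 : p ∣ Nat.gcd (y s l) q := Nat.dvd_gcd hpy hpdq
        rw [hy s l] at h1
        exact hp.one_lt.ne' (Nat.dvd_one.1 h1))
      (fun s s' l => (hc s s' l).of_dvd (by
        rw [pow_add]
        exact mul_dvd_mul hpj hprod))
      (fun s s' => by
        have h1 := hR s s'
        unfold Rel at h1 ⊢
        refine h1.of_dvd ?_
        rwa [add_comm]) e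
    rw [pow_add]
    exact mul_dvd_mul hprod' hdp

end Pool.MP_a95293_nt.CG
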