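import Pool.Agent.Lib_MP_a95293_cg.Defs

/-!
# Piece CG-7 (QZ): the class modulus `q0`

PROOF of `exists_q0`. Let `M` be minimal with `q ≤ X ^ M` (`M ≥ 2` as `X < q`), so `X ^ (M - 1) < q`. Let
`q0 = ∏_(p ∣ q) p ^ ((v_p q + M - 1) / M)` (ceiling of `v_p q / M`). Then `p ∣ q0` for `p ∣ q`;
`q0 ^ M ∣ q * rd q ^ M` (prime by prime: `M * ceil (v / M) ≤ v + M`), so `q0 ^ M ≤ X ^ M * X ^ M`, `q0 ≤ X ^ 2`.
Let `g = gcd (q, q0 ^ T)`. If `M ≤ T`: `q ∣ q0 ^ M ∣ q0 ^ T`, so `g = q ≥ X ^ B`. If `T < M`: `q ^ T ∣ g ^ M` (prime by prime: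
`T v ≤ M * min v (T * ceil (v / M))`, true since `T < M` and `v ≤ M * ceil (v / M)`), so
`g ^ M ≥ q ^ T ≥ X ^ ((M - 1) T) ≥ X ^ (M B)`, because `(M - 1) T ≥ M T / 2 ≥ M B` (`M ≥ 2`, `2 B ≤ T`).
-/

set_option autoImplicit false

namespace Pool.MP_a95293_nt.CG

open Finset
open Pool.MP_a95293_nt.RC (rd)

private theorem Qz_dvd {a b : ℕ} (ha : a ≠ 0) (hb : b ≠ 0)
    (h : ∀ p, p.Prime → a.factorization p ≤ b.factorization p) : a ∣ b := by
  rw [← Nat.factorization_le_iff_dvd ha hb]
  intro p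
  by_cases hp : p.Prime
  · exact h p hp
  · rw [Nat.factorization_eq_zero_of_not_prime a hp]
    exact Nat.zero_le _

private theorem Qz_rd_fac {q p : ℕ} (hq : q ≠ 0) (hp : p.Prime) (hd : p ∣ q) :
    1 ≤ (rd q).factorization p := by
  have h1 : rd q ≠ 0 := by
    unfold rd
    exact Finset.prod_ne_zero_iff.mpr fun r hr => (Nat.prime_of_mem_primeFactors hr).ne_zero
  have h2 : p ∣ rd q := by
    unfold rd
    exact Finset.dvd_prod_of_mem (fun r => r) (Nat.mem_primeFactors.mpr ⟨hp, hd, hq⟩)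
  exact (hp.dvd_iff_one_le_factorization h1).mp h2

theorem exists_q0 (X q : ℕ) (hX : 2 ≤ X) (hq : X < q) (hr : rd q ≤ X) : ∃ q0 : ℕ, 1 ≤ q0 ∧
    q0 ≤ X ^ 2 ∧ (∀ p, p.Prime → p ∣ q → p ∣ q0) ∧
    ∀ T B : ℕ, 2 * B ≤ T → X ^ B ≤ q → X ^ B ≤ Nat.gcd q (q0 ^ T) := by
  have hq0 : q ≠ 0 := by omega
  have hrd0 : rd q ≠ 0 := by
    unfold rd
    exact Finset.prod_ne_zero_iff.mpr fun r hr => (Nat.prime_of_mem_primeFactors hr).ne_zero
  -- the exponent `M`
  have hex : ∃ M, q ≤ X ^ M := ⟨q, (Nat.lt_pow_self (by omega : 1 < X)).le⟩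
  classical
  obtain ⟨M, hM1, hM2⟩ : ∃ M, q ≤ X ^ M ∧ ∀ k < M, X ^ k < q :=
    ⟨Nat.find hex, Nat.find_spec hex, fun k hk => not_le.mp (Nat.find_min hex hk)⟩
  have hM : 2 ≤ M := by
    by_contra hcon
    have h1 : X ^ M ≤ X ^ 1 := Nat.pow_le_pow_right (by omega) (by omega)
    rw [pow_one] at h1
    omega
  have hM3 : X ^ (M - 1) < q := hM2 (M - 1) (by omega)
  -- the modulus
  set f : ℕ →₀ ℕ := q.factorization.mapRange (fun v => (v + M - 1) / M) (by
    rw [zero_add]
    exact Nat.div_eq_of_lt (by omega)) with hf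
  have hfp : ∀ p, f p = (q.factorization p + M - 1) / M := fun p => by
    rw [hf, Finsupp.mapRange_apply]
  have hfs : ∀ p ∈ f.support, p.Prime := by
    intro p hp
    by_contra hcon
    rw [Finsupp.mem_support_iff, hfp, Nat.factorization_eq_zero_of_not_prime q hcon, zero_add] at hp
    exact hp (Nat.div_eq_of_lt (by omega))
  set q0 : ℕ := f.prod (· ^ ·) with hq0def
  have hfac : q0.factorization = f := Nat.prod_pow_factorization_eq_self hfs
  have hq00 : q0 ≠ 0 := by
    rw [hq0def, Finsupp.prod]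
    exact Finset.prod_ne_zero_iff.mpr fun p hp => pow_ne_zero _ (hfs p hp).ne_zero
  have hc1 : ∀ p, q.factorization p ≤ M * q0.factorization p := by
    intro p
    rw [hfac, hfp]
    have h1 := Nat.div_add_mod (q.factorization p + M - 1) M
    have h2 := Nat.mod_lt (q.factorization p + M - 1) (by omega : M > 0)
    omega
  have hc2 : ∀ p, M * q0.factorization p ≤ q.factorization p + M - 1 := by
    intro p
    rw [hfac, hfp]
    exact Nat.mul_div_le _ _
  refine ⟨q0, Nat.one_le_iff_ne_zero.mpr hq00, ?_, ?_, ?_⟩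
  · -- the size of `q0`
    have h1 : q0 ^ M ∣ q * rd q ^ M := by
      apply Qz_dvd (pow_ne_zero _ hq00) (mul_ne_zero hq0 (pow_ne_zero _ hrd0))
      intro p hp
      rw [Nat.factorization_pow, Nat.factorization_mul hq0 (pow_ne_zero _ hrd0),
        Nat.factorization_pow]
      simp only [Finsupp.smul_apply, Finsupp.add_apply, smul_eq_mul]
      by_cases hd : p ∣ q
      · have h2 := Qz_rd_fac hq0 hp hd
        have h3 := hc2 p
        have h4 : M * 1 ≤ M * (rd q).factorization p := Nat.mul_le_mul_left _ h2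
        omega
      · have h2 : q.factorization p = 0 := Nat.factorization_eq_zero_of_not_dvd hd
        have h3 : q0.factorization p = 0 := by
          rw [hfac, hfp, h2, zero_add]
          exact Nat.div_eq_of_lt (by omega)
        rw [h3, mul_zero]
        exact Nat.zero_le _
    have h2 : q0 ^ M ≤ (X ^ 2) ^ M := by
      calc q0 ^ M ≤ q * rd q ^ M :=
            Nat.le_of_dvd (Nat.pos_of_ne_zero (mul_ne_zero hq0 (pow_ne_zero _ hrd0))) h1
        _ ≤ X ^ M * X ^ M := Nat.mul_le_mul hM1 (Nat.pow_le_pow_left hr M)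
        _ = (X ^ 2) ^ M := by rw [← pow_mul, ← pow_add]; congr 1; ring
    exact (Nat.pow_le_pow_iff_left (by omega)).mp h2
  · intro p hp hd
    have h1 := (hp.dvd_iff_one_le_factorization hq0).mp hd
    have h2 := hc1 p
    rw [hp.dvd_iff_one_le_factorization hq00]
    by_contra hcon
    have h3 : q0.factorization p = 0 := by omega
    rw [h3, mul_zero] at h2
    omega
  · intro T B hTB hB
    rcases Nat.lt_or_ge T M with hT | hT
    · -- `T < M`
      have h1 : q ^ T ∣ Nat.gcd q (q0 ^ T) ^ M := by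
        have hg : Nat.gcd q (q0 ^ T) ≠ 0 := Nat.gcd_ne_zero_left hq0
        apply Qz_dvd (pow_ne_zero _ hq0) (pow_ne_zero _ hg)
        intro p hp
        rw [Nat.factorization_pow, Nat.factorization_pow,
          Nat.factorization_gcd hq0 (pow_ne_zero _ hq00), Nat.factorization_pow]
        simp only [Finsupp.smul_apply, Finsupp.inf_apply, smul_eq_mul]
        rcases le_total (q.factorization p) (T * q0.factorization p) with h2 | h2
        · rw [inf_eq_left.mpr h2]
          exact Nat.mul_le_mul_right _ hT.le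
        · rw [inf_eq_right.mpr h2]
          calc T * q.factorization p ≤ T * (M * q0.factorization p) :=
                Nat.mul_le_mul_left _ (hc1 p)
            _ = M * (T * q0.factorization p) := by ring
      have hg : 0 < Nat.gcd q (q0 ^ T) := Nat.gcd_pos_of_pos_left _ (Nat.pos_of_ne_zero hq0)
      have h2 : (X ^ B) ^ M ≤ Nat.gcd q (q0 ^ T) ^ M := by
        calc (X ^ B) ^ M = X ^ (B * M) := by rw [pow_mul]
          _ ≤ X ^ ((M - 1) * T) := by
              apply Nat.pow_le_pow_right (by omega)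
              obtain ⟨k, rfl⟩ : ∃ k, M = k + 2 := ⟨M - 2, by omega⟩
              rw [show k + 2 - 1 = k + 1 by omega]
              nlinarith
          _ = (X ^ (M - 1)) ^ T := by rw [pow_mul]
          _ ≤ q ^ T := Nat.pow_le_pow_left hM3.le T
          _ ≤ Nat.gcd q (q0 ^ T) ^ M := Nat.le_of_dvd (pow_pos hg M) h1
      exact (Nat.pow_le_pow_iff_left (by omega)).mp h2
    · -- `M ≤ T`
      have h1 : q ∣ q0 ^ M := by
        apply Qz_dvd hq0 (pow_ne_zero _ hq00)
        intro p _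
        rw [Nat.factorization_pow]
        simp only [Finsupp.smul_apply, smul_eq_mul]
        exact hc1 p
      have h2 : q ∣ q0 ^ T := h1.trans (pow_dvd_pow q0 hT)
      rw [Nat.gcd_eq_left h2]
      exact hB

end Pool.MP_a95293_nt.CG
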