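import Mathlib

/-!
# Piece CG-8 (RANKP): vanishing determinants give a polynomial; size of the determinants

PROOF of `rank_poly`. Let `e₀ : Fin (r ^ n) → (Fin n → ℕ)` be the enumeration of `[0, r)^n` (`finFunctionFinEquiv`), and
`V` the span in `Fin (r ^ n) → ℚ` of the vectors `v y = (∏ l, (y l : ℚ) ^ e₀ k l)_k`, `y ∈ Y`. If `V = ⊤` then some
`r ^ n` of the `v y` form a basis (`exists_linearIndependent`, `Module.finrank`), so the matrix of these rows has non-zero
determinant (`Matrix.linearIndependent_rows_iff_isUnit`), against `h` (cast to `ℚ`). So `V ≠ ⊤` and there is a non-zero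
linear functional `c` vanishing on `V` (`Submodule.exists_dual_map_eq_bot_of_lt_top` or
`Submodule.exists_le_ker_of_lt_top`), i.e. `∑ k, c k * v y k = 0` for `y ∈ Y`. Take
`P = ∑ k, monomial (Finsupp.equivFunOnFinite.symm (e₀ k)) (c k)`; `P ≠ 0` because the exponents are different, its degree
is `≤ n * (r - 1) ≤ n * r`.
PROOF of `det_size`: `Matrix.det_apply`, triangle inequality; every entry is at most `Z ^ (n * r)` in absolute value.
-/

set_option autoImplicit false

namespace Pool.MP_a95293_nt.CG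

open Finset

private noncomputable def RankP_e (n r : ℕ) (k : Fin (r ^ n)) : Fin n → ℕ :=
  fun l => ((finFunctionFinEquiv.symm k : Fin n → Fin r) l : ℕ)

private theorem RankP_e_lt (n r : ℕ) (k : Fin (r ^ n)) (l : Fin n) : RankP_e n r k l < r :=
  (finFunctionFinEquiv.symm k l).isLt

private theorem RankP_e_inj (n r : ℕ) : Function.Injective (RankP_e n r) := by
  intro k k' h
  apply finFunctionFinEquiv.symm.injective
  funext l
  exact Fin.ext (congrFun h l)

private noncomputable def RankP_v (n r : ℕ) (y : Fin n → ℕ) : Fin (r ^ n) → ℚ :=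
  fun k => ∏ l, (y l : ℚ) ^ RankP_e n r k l

theorem rank_poly (n r : ℕ) (Y : Finset (Fin n → ℕ))
    (h : ∀ y : Fin (r ^ n) → Fin n → ℕ, (∀ s, y s ∈ Y) → ∀ e : Fin (r ^ n) → Fin n → ℕ, (∀ k l, e k l < r) →
      Matrix.det (Matrix.of fun s k : Fin (r ^ n) => ∏ l, (y s l : ℤ) ^ e k l) = 0) :
    ∃ P : MvPolynomial (Fin n) ℚ, P ≠ 0 ∧ P.totalDegree ≤ n * r ∧
      ∀ y ∈ Y, MvPolynomial.eval (fun i => (y i : ℚ)) P = 0 := by
  classical
  have hlt : Submodule.span ℚ (RankP_v n r '' (Y : Set (Fin n → ℕ))) < ⊤ := by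
    rw [lt_top_iff_ne_top]
    intro htop
    obtain ⟨f, hf1, -, hf3⟩ := Submodule.exists_fun_fin_finrank_span_eq ℚ (RankP_v n r '' (Y : Set (Fin n → ℕ)))
    have hfr : Module.finrank ℚ (Submodule.span ℚ (RankP_v n r '' (Y : Set (Fin n → ℕ)))) = r ^ n := by
      rw [htop, finrank_top, Module.finrank_fin_fun]
    have hex : ∃ g : Fin (r ^ n) → Fin (r ^ n) → ℚ,
        (∀ i, g i ∈ RankP_v n r '' (Y : Set (Fin n → ℕ))) ∧ LinearIndependent ℚ g :=
      ⟨f ∘ Fin.cast hfr.symm, fun i => hf1 _, hf3.comp _ (Fin.cast_injective _)⟩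
    obtain ⟨g, hg1, hg2⟩ := hex
    choose y hy1 hy2 using hg1
    have hA : (Matrix.of fun s k : Fin (r ^ n) => g s k).det ≠ 0 := by
      have h1 : LinearIndependent ℚ (Matrix.of fun s k : Fin (r ^ n) => g s k).row := hg2
      have h2 := Matrix.linearIndependent_rows_iff_isUnit.mp h1
      rw [Matrix.isUnit_iff_isUnit_det] at h2
      exact h2.ne_zero
    apply hA
    have h3 := h y (fun s => hy1 s) (RankP_e n r) (RankP_e_lt n r)
    have h4 : (Matrix.of fun s k : Fin (r ^ n) => g s k) =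
        (Int.castRingHom ℚ).mapMatrix
          (Matrix.of fun s k : Fin (r ^ n) => ∏ l, (y s l : ℤ) ^ RankP_e n r k l) := by
      ext s k
      rw [RingHom.mapMatrix_apply, Matrix.map_apply, Matrix.of_apply, Matrix.of_apply, ← hy2 s]
      unfold RankP_v
      simp
    rw [h4, ← RingHom.map_det, h3, map_zero]
  obtain ⟨f, hf0, hfk⟩ := Submodule.exists_le_ker_of_lt_top _ hlt
  set c : Fin (r ^ n) → ℚ := fun k => f (Pi.single k 1) with hc
  have hfc : ∀ x : Fin (r ^ n) → ℚ, f x = ∑ k, c k * x k := by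
    intro x
    have h1 : x = ∑ k, x k • (Pi.single k (1 : ℚ) : Fin (r ^ n) → ℚ) := by
      funext j
      rw [Finset.sum_apply]
      simp [Pi.single_apply]
    conv_lhs => rw [h1]
    rw [map_sum]
    refine Finset.sum_congr rfl fun k _ => ?_
    rw [map_smul, smul_eq_mul, mul_comm]
  refine ⟨∑ k, MvPolynomial.monomial (Finsupp.equivFunOnFinite.symm (RankP_e n r k)) (c k), ?_, ?_, ?_⟩
  · intro hP
    apply hf0
    have hc0 : ∀ k, c k = 0 := by
      intro k
      have h1 := congrArg (MvPolynomial.coeff (Finsupp.equivFunOnFinite.symm (RankP_e n r k))) hP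
      rw [MvPolynomial.coeff_sum, MvPolynomial.coeff_zero, Finset.sum_eq_single k] at h1
      · rwa [MvPolynomial.coeff_monomial, if_pos rfl] at h1
      · intro j _ hj
        rw [MvPolynomial.coeff_monomial, if_neg]
        intro he
        exact hj (RankP_e_inj n r (Finsupp.equivFunOnFinite.symm.injective he))
      · intro hk
        exact absurd (Finset.mem_univ k) hk
    refine LinearMap.ext fun x => ?_
    rw [hfc, LinearMap.zero_apply]
    exact Finset.sum_eq_zero fun k _ => by rw [hc0 k, zero_mul]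
  · refine (MvPolynomial.totalDegree_finsetSum _ _).trans ?_
    refine Finset.sup_le fun k _ => ?_
    refine (MvPolynomial.totalDegree_monomial_le _ _).trans ?_
    rw [Finsupp.sum_fintype _ _ (fun _ => rfl)]
    calc ∑ i, (Finsupp.equivFunOnFinite.symm (RankP_e n r k)) i ≤ ∑ _i : Fin n, r :=
          Finset.sum_le_sum fun i _ => (RankP_e_lt n r k i).le
      _ = n * r := by simp
  · intro y hy
    have h1 : f (RankP_v n r y) = 0 := by
      have h2 := hfk (Submodule.subset_span ⟨y, hy, rfl⟩)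
      rwa [LinearMap.mem_ker] at h2
    rw [hfc] at h1
    rw [map_sum, ← h1]
    refine Finset.sum_congr rfl fun k _ => ?_
    rw [MvPolynomial.eval_monomial, Finsupp.prod_fintype _ _ (fun _ => pow_zero _)]
    rfl

theorem det_size (n r N Z : ℕ) (hZ : 1 ≤ Z) (y : Fin N → Fin n → ℕ) (hy : ∀ s l, y s l ≤ Z)
    (e : Fin N → Fin n → ℕ) (he : ∀ k l, e k l < r) :
    |Matrix.det (Matrix.of fun s k : Fin N => ∏ l, (y s l : ℤ) ^ e k l)| ≤
      (N.factorial : ℤ) * (Z : ℤ) ^ (n * r * N) := by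
  have hZ' : (1 : ℤ) ≤ (Z : ℤ) := by exact_mod_cast hZ
  have hentry : ∀ s k : Fin N, |∏ l, (y s l : ℤ) ^ e k l| ≤ (Z : ℤ) ^ (n * r) := by
    intro s k
    rw [Finset.abs_prod]
    calc ∏ l, |(y s l : ℤ) ^ e k l| ≤ ∏ _l : Fin n, (Z : ℤ) ^ r := by
          refine Finset.prod_le_prod (fun _ _ => abs_nonneg _) fun l _ => ?_
          rw [abs_of_nonneg (by positivity)]
          calc (y s l : ℤ) ^ e k l ≤ (Z : ℤ) ^ e k l :=
                pow_le_pow_left₀ (by positivity) (by exact_mod_cast hy s l) _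
            _ ≤ (Z : ℤ) ^ r := pow_le_pow_right₀ hZ' (he k l).le
      _ = (Z : ℤ) ^ (n * r) := by
          rw [Finset.prod_const, Finset.card_univ, Fintype.card_fin, ← pow_mul, mul_comm]
  rw [Matrix.det_apply]
  calc |∑ σ : Equiv.Perm (Fin N), Equiv.Perm.sign σ • ∏ i, (Matrix.of fun s k : Fin N =>
          ∏ l, (y s l : ℤ) ^ e k l) (σ i) i|
      ≤ ∑ σ : Equiv.Perm (Fin N), |Equiv.Perm.sign σ • ∏ i, (Matrix.of fun s k : Fin N =>
          ∏ l, (y s l : ℤ) ^ e k l) (σ i) i| := Finset.abs_sum_le_sum_abs _ _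
    _ ≤ ∑ _σ : Equiv.Perm (Fin N), (Z : ℤ) ^ (n * r * N) := by
        refine Finset.sum_le_sum fun σ _ => ?_
        have h1 : |Equiv.Perm.sign σ • ∏ i, (Matrix.of fun s k : Fin N =>
            ∏ l, (y s l : ℤ) ^ e k l) (σ i) i| = |∏ i, (Matrix.of fun s k : Fin N =>
            ∏ l, (y s l : ℤ) ^ e k l) (σ i) i| := by
          rw [Units.smul_def, smul_eq_mul, abs_mul]
          rcases Int.units_eq_one_or (Equiv.Perm.sign σ) with h | h <;> rw [h] <;> simp
        rw [h1, Finset.abs_prod]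
        calc ∏ i, |(Matrix.of fun s k : Fin N => ∏ l, (y s l : ℤ) ^ e k l) (σ i) i|
            ≤ ∏ _i : Fin N, (Z : ℤ) ^ (n * r) :=
              Finset.prod_le_prod (fun _ _ => abs_nonneg _) fun i _ => hentry (σ i) i
          _ = (Z : ℤ) ^ (n * r * N) := by
              rw [Finset.prod_const, Finset.card_univ, Fintype.card_fin, ← pow_mul]
    _ = (N.factorial : ℤ) * (Z : ℤ) ^ (n * r * N) := by
        rw [Finset.sum_const, Finset.card_univ, Fintype.card_perm, Fintype.card_fin, nsmul_eq_mul]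

end Pool.MP_a95293_nt.CG
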