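import Pool.Agent.Lib_MP_a95293_cg.Zero
import Pool.Agent.Lib_MP_a95293_cg.DetP
import Pool.Agent.Lib_MP_a95293_cg.Qz
import Pool.Agent.Lib_MP_a95293_cg.RankP

/-!
# Piece CG-9 (CHR): a character takes few values on a class

PROOF of `Rel.mul`, `Rel.prod`: multiply the congruences (`Nat.ModEq.mul`, `mul_pow`, `Finset.prod_mul_distrib`).
PROOF of `class_char`. Put `n' = n + 1`, `c = 8 * κ * n' ^ 2 + 8`, `r = 2 * c ^ n`, `K = c * r`, `N = r ^ n'`. Then `N = 2 * K ^ n`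
(`r ^ (n + 1) = 2 * c ^ n * r ^ n`), `K * (N - K ^ n) = K * K ^ n = K ^ n'`, and `T = K ^ n'` satisfies
`T = K * N / 2 = c * r * N / 2`. `B = (2 * κ * n' ^ 2 + 2) * r * N`: `2 * B = T`. `h₀ = B + 2`; `f` from `zero_est n' (n' * r)`;
`X₀ = N! * E ^ n' + 2`. `q0` from `exists_q0`, `Q0 = q0 * ∏ |m i|`.
For `Sg` let `Y` be the set of all `n'`-fold products `∏ j, s j`, `s : Fin n' → Sg`. The elements `y` of `Y` have coordinates
`≤ X ^ (κ n')`, prime to `q`, are pairwise congruent modulo `Q0` and satisfy `Rel q m`. By `detQ` and `exists_q0`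
`gcd (q, q0 ^ T) ≥ X ^ B` divides `(∏ |m i|) * det`, whose absolute value is (`det_size`)
`≤ E ^ n' * N! * X ^ (κ n' * n' * r * N) < X ^ B` as `B ≥ κ n' ^ 2 r N + 2`. So all the determinants are `0`; `rank_poly` gives `P`
and `zero_est` (for the image of `Sg` in `Fin n' → ℚ`, `(∏ j, s j) i` casts to the product) gives `e`.
-/

set_option autoImplicit false

namespace Pool.MP_a95293_nt.CG

open Finset
open Pool.MP_a95293_nt.RC (rd)

theorem Rel.mul {q n : ℕ} {m : Fin n → ℤ} {z z' w w' : Fin n → ℕ} (h : Rel q m z z') (h' : Rel q m w w') :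
    Rel q m (z * w) (z' * w') := by
  unfold Rel at *
  simp only [Pi.mul_apply, mul_pow, Finset.prod_mul_distrib]
  have h2 := Nat.ModEq.mul h h'
  rw [mul_mul_mul_comm (∏ i, z i ^ (m i).toNat), mul_mul_mul_comm (∏ i, z' i ^ (m i).toNat)]
  exact h2

theorem Rel.prod {q n k : ℕ} {m : Fin n → ℤ} {z z' : Fin k → Fin n → ℕ} (h : ∀ j, Rel q m (z j) (z' j)) :
    Rel q m (∏ j, z j) (∏ j, z' j) := by
  have key : ∀ S : Finset (Fin k), Rel q m (∏ j ∈ S, z j) (∏ j ∈ S, z' j) := by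
    intro S
    induction S using Finset.induction_on with
    | empty =>
      rw [Finset.prod_empty, Finset.prod_empty]
      exact Nat.ModEq.refl _
    | insert j S hj ih =>
      rw [Finset.prod_insert hj, Finset.prod_insert hj]
      exact (h j).mul ih
  exact key _

private theorem Chr_modEq_prod {k Q : ℕ} {a b : Fin k → ℕ} (h : ∀ j, a j ≡ b j [MOD Q]) :
    ∏ j, a j ≡ ∏ j, b j [MOD Q] := by
  have key : ∀ S : Finset (Fin k), ∏ j ∈ S, a j ≡ ∏ j ∈ S, b j [MOD Q] := by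
    intro S
    induction S using Finset.induction_on with
    | empty => exact Nat.ModEq.refl _
    | insert j S hj ih =>
      rw [Finset.prod_insert hj, Finset.prod_insert hj]
      exact (h j).mul ih
  exact key _

/-- the numerical part: the determinants are too small -/
private theorem Chr_small {n κ r N X E B : ℕ} (hX : N.factorial * E ^ (n + 1) + 2 ≤ X)
    (hB : κ * (n + 1) * ((n + 1) * r * N) + 1 ≤ B) {M D : ℤ} (hM : |M| ≤ (E : ℤ) ^ (n + 1))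
    (hD : |D| ≤ (N.factorial : ℤ) * ((X ^ (κ * (n + 1)) : ℕ) : ℤ) ^ ((n + 1) * r * N)) :
    |M * D| < (X : ℤ) ^ B := by
  have h0 : (0 : ℤ) ≤ (X : ℤ) := Int.natCast_nonneg _
  have hX1 : (1 : ℤ) ≤ (X : ℤ) := by
    have : 1 ≤ X := by omega
    exact_mod_cast this
  have hXZ : (N.factorial : ℤ) * (E : ℤ) ^ (n + 1) + 2 ≤ X := by exact_mod_cast hX
  have h1 : |M * D| ≤ (E : ℤ) ^ (n + 1) *
      ((N.factorial : ℤ) * ((X ^ (κ * (n + 1)) : ℕ) : ℤ) ^ ((n + 1) * r * N)) := by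
    rw [abs_mul]
    exact mul_le_mul hM hD (abs_nonneg _) (by positivity)
  have h2 : (E : ℤ) ^ (n + 1) *
      ((N.factorial : ℤ) * ((X ^ (κ * (n + 1)) : ℕ) : ℤ) ^ ((n + 1) * r * N)) =
      ((N.factorial : ℤ) * (E : ℤ) ^ (n + 1)) * (X : ℤ) ^ (κ * (n + 1) * ((n + 1) * r * N)) := by
    rw [Nat.cast_pow, ← pow_mul]
    ring
  have h3 : (0 : ℤ) < (X : ℤ) ^ (κ * (n + 1) * ((n + 1) * r * N)) := by positivity
  calc |M * D| ≤ _ := h1
    _ = _ := h2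
    _ < (X : ℤ) * (X : ℤ) ^ (κ * (n + 1) * ((n + 1) * r * N)) := by
        refine mul_lt_mul_of_pos_right ?_ h3
        linarith
    _ = (X : ℤ) ^ (κ * (n + 1) * ((n + 1) * r * N) + 1) := by rw [pow_succ, mul_comm]
    _ ≤ (X : ℤ) ^ B := pow_le_pow_right₀ hX1 hB

theorem class_char (n κ : ℕ) : ∃ h₀ f : ℕ, ∀ E : ℕ, ∃ X₀ : ℕ, ∀ X q : ℕ, X₀ ≤ X → X ^ h₀ ≤ q → rd q ≤ X →
    ∀ m : Fin (n + 1) → ℤ, (∀ i, m i ≠ 0 ∧ |m i| ≤ E) → ∃ Q0 : ℕ, 1 ≤ Q0 ∧ Q0 ≤ X ^ 2 * E ^ (n + 1) ∧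
    ∀ Sg : Finset (Fin (n + 1) → ℕ), (∀ x ∈ Sg, ∀ i, (1 ≤ x i ∧ x i ≤ X ^ κ) ∧ (x i).Coprime q) →
    (∀ x ∈ Sg, ∀ x' ∈ Sg, Rel q m x x') → (∀ x ∈ Sg, ∀ x' ∈ Sg, ∀ i, x i ≡ x' i [MOD Q0]) →
    ∃ e : Fin (n + 1) → ℤ, e ≠ 0 ∧ (Sg.image fun x => ∏ i, (x i : ℚ) ^ e i).card ≤ f := by
  obtain ⟨c, hc⟩ : ∃ c, c = 8 * κ * (n + 1) ^ 2 + 8 := ⟨_, rfl⟩
  obtain ⟨r, hr⟩ : ∃ r, r = 2 * c ^ n := ⟨_, rfl⟩
  obtain ⟨K, hK⟩ : ∃ K, K = c * r := ⟨_, rfl⟩
  obtain ⟨N, hN⟩ : ∃ N, N = r ^ (n + 1) := ⟨_, rfl⟩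
  obtain ⟨B, hB⟩ : ∃ B, B = (2 * κ * (n + 1) ^ 2 + 2) * r * N := ⟨_, rfl⟩
  have hc0 : 1 ≤ c := by omega
  have hr0 : 1 ≤ r := by
    rw [hr]
    have := Nat.one_le_pow n c hc0
    omega
  have hN0 : 1 ≤ N := by
    rw [hN]
    exact Nat.one_le_pow _ _ hr0
  have hNK : N = 2 * K ^ n := by
    calc N = r * r ^ n := by rw [hN, pow_succ, mul_comm]
      _ = (2 * c ^ n) * r ^ n := by rw [← hr]
      _ = 2 * K ^ n := by rw [hK, mul_pow, mul_assoc]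
  have hT : K * (N - K ^ n) = 2 * B := by
    have h1 : N - K ^ n = K ^ n := by omega
    have h2 : 2 * (K * K ^ n) = 2 * (2 * B) := by
      calc 2 * (K * K ^ n) = K * (2 * K ^ n) := by ring
        _ = c * r * N := by rw [← hNK, hK]
        _ = 2 * (2 * B) := by rw [hB, hc]; ring
    rw [h1]
    omega
  have hB1 : κ * (n + 1) * ((n + 1) * r * N) + 1 ≤ B := by
    have h1 : B = 2 * (κ * (n + 1) * ((n + 1) * r * N)) + 2 * (r * N) := by rw [hB]; ring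
    have h2 : 1 ≤ r * N := Nat.mul_pos hr0 hN0
    omega
  obtain ⟨f, hf⟩ := zero_est (n + 1) ((n + 1) * r)
  refine ⟨B + 2, f, fun E => ⟨N.factorial * E ^ (n + 1) + 2, ?_⟩⟩
  intro X q hX hq hrd m hm
  have hX2 : 2 ≤ X := (Nat.le_add_left 2 _).trans hX
  have hX1 : 1 ≤ X := by omega
  have hXq : X < q := by
    have h1 : X ^ 2 ≤ X ^ (B + 2) := Nat.pow_le_pow_right hX1 (by omega)
    have h2 : X < X ^ 2 := by nlinarith
    omega
  have hBq : X ^ B ≤ q := (Nat.pow_le_pow_right hX1 (by omega)).trans hq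
  obtain ⟨q0, q1, q2, q3, q4⟩ := exists_q0 X q hX2 hXq hrd
  have hmN : ∀ i, (m i).natAbs ≤ E := by
    intro i
    have h1 := (hm i).2
    rw [Int.abs_eq_natAbs] at h1
    exact_mod_cast h1
  have hM1 : ∏ i, (m i).natAbs ≤ E ^ (n + 1) := by
    have h1 := Finset.prod_le_pow_card (Finset.univ : Finset (Fin (n + 1)))
      (fun i => (m i).natAbs) E (fun i _ => hmN i)
    rw [Finset.card_univ, Fintype.card_fin] at h1
    exact h1
  have hM0 : 1 ≤ ∏ i, (m i).natAbs := by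
    refine Nat.one_le_iff_ne_zero.mpr (Finset.prod_ne_zero_iff.mpr fun i _ => ?_)
    exact Int.natAbs_ne_zero.mpr (hm i).1
  refine ⟨q0 * ∏ i, (m i).natAbs, Nat.mul_pos q1 hM0, Nat.mul_le_mul q2 hM1, ?_⟩
  intro Sg hSg hRel hcon
  classical
  obtain ⟨Y, hY⟩ : ∃ Y : Finset (Fin (n + 1) → ℕ),
      Y = (Fintype.piFinset (fun _ : Fin (n + 1) => Sg)).image (fun s => ∏ j, s j) := ⟨_, rfl⟩
  have hYm : ∀ y, y ∈ Y ↔ ∃ s : Fin (n + 1) → Fin (n + 1) → ℕ, (∀ j, s j ∈ Sg) ∧ ∏ j, s j = y := by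
    intro y
    rw [hY, Finset.mem_image]
    constructor
    · rintro ⟨s, hs, e⟩
      exact ⟨s, fun j => Fintype.mem_piFinset.mp hs j, e⟩
    · rintro ⟨s, hs, e⟩
      exact ⟨s, Fintype.mem_piFinset.mpr hs, e⟩
  have hYle : ∀ y ∈ Y, ∀ i, y i ≤ X ^ (κ * (n + 1)) := by
    intro y hy i
    obtain ⟨s, hs, rfl⟩ := (hYm y).mp hy
    rw [Finset.prod_apply]
    have h1 := Finset.prod_le_pow_card (Finset.univ : Finset (Fin (n + 1)))
      (fun j => s j i) (X ^ κ) (fun j _ => (hSg (s j) (hs j) i).1.2)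
    rw [Finset.card_univ, Fintype.card_fin, ← pow_mul] at h1
    exact h1
  have hYco : ∀ y ∈ Y, ∀ i, (y i).Coprime q := by
    intro y hy i
    obtain ⟨s, hs, rfl⟩ := (hYm y).mp hy
    rw [Finset.prod_apply]
    exact Nat.Coprime.prod_left fun j _ => (hSg (s j) (hs j) i).2
  have hYcon : ∀ y ∈ Y, ∀ y' ∈ Y, ∀ i, y i ≡ y' i [MOD q0 * ∏ i, (m i).natAbs] := by
    intro y hy y' hy' i
    obtain ⟨s, hs, rfl⟩ := (hYm y).mp hy
    obtain ⟨s', hs', rfl⟩ := (hYm y').mp hy'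
    rw [Finset.prod_apply, Finset.prod_apply]
    exact Chr_modEq_prod fun j => hcon (s j) (hs j) (s' j) (hs' j) i
  have hYR : ∀ y ∈ Y, ∀ y' ∈ Y, Rel q m y y' := by
    intro y hy y' hy'
    obtain ⟨s, hs, rfl⟩ := (hYm y).mp hy
    obtain ⟨s', hs', rfl⟩ := (hYm y').mp hy'
    exact Rel.prod fun j => hRel (s j) (hs j) (s' j) (hs' j)
  have hdet : ∀ y : Fin (r ^ (n + 1)) → Fin (n + 1) → ℕ, (∀ s, y s ∈ Y) →
      ∀ e : Fin (r ^ (n + 1)) → Fin (n + 1) → ℕ, (∀ k l, e k l < r) →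
      Matrix.det (Matrix.of fun s k : Fin (r ^ (n + 1)) => ∏ l, (y s l : ℤ) ^ e k l) = 0 := by
    intro y hy e he
    subst hN
    have h1 := detQ (Nat.succ_pos n) (r ^ (n + 1)) K q q0 (by omega) q1 q3 m (fun i => (hm i).1) y
      (fun s l => hYco _ (hy s) l) (fun s s' l => hYcon _ (hy s) _ (hy s') l)
      (fun s s' => hYR _ (hy s) _ (hy s')) e
    have h2 := det_size (n + 1) r (r ^ (n + 1)) (X ^ (κ * (n + 1))) (Nat.one_le_pow _ _ hX1) y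
      (fun s l => hYle _ (hy s) l) e he
    have h3 : |∏ i, ((m i).natAbs : ℤ)| ≤ (E : ℤ) ^ (n + 1) := by
      rw [abs_of_nonneg (Finset.prod_nonneg fun i _ => Int.natCast_nonneg _)]
      exact_mod_cast hM1
    have h4 := Chr_small hX hB1 h3 h2
    have h5 := q4 (2 * B) B le_rfl hBq
    rw [Nat.succ_sub_one, hT] at h1
    have h6 : (X : ℤ) ^ B ≤ ((Nat.gcd q (q0 ^ (2 * B)) : ℕ) : ℤ) := by exact_mod_cast h5
    by_contra hne
    have hMne : (∏ i, ((m i).natAbs : ℤ)) ≠ 0 := by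
      have : ((∏ i, (m i).natAbs : ℕ) : ℤ) ≠ 0 := by
        exact_mod_cast (by omega : ∏ i, (m i).natAbs ≠ 0)
      rwa [Nat.cast_prod] at this
    have h7 := Int.le_of_dvd (abs_pos.mpr (mul_ne_zero hMne hne)) ((dvd_abs _ _).mpr h1)
    exact absurd (h6.trans h7) (not_le.mpr h4)
  obtain ⟨P, hP0, hPd, hPe⟩ := rank_poly (n + 1) r Y hdet
  have g1 : ∀ t ∈ Sg.image (fun (x : Fin (n + 1) → ℕ) (i : Fin (n + 1)) => (x i : ℚ)),
      ∀ i, t i ≠ 0 := by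
    intro t ht i
    obtain ⟨x, hx, rfl⟩ := Finset.mem_image.mp ht
    have h1 := (hSg x hx i).1.1
    have h2 : x i ≠ 0 := by omega
    exact Nat.cast_ne_zero.mpr h2
  have g2 : ∀ s : Fin (n + 1) → (Fin (n + 1) → ℚ),
      (∀ j, s j ∈ Sg.image (fun (x : Fin (n + 1) → ℕ) (i : Fin (n + 1)) => (x i : ℚ))) →
      MvPolynomial.eval (∏ j, s j) P = 0 := by
    intro s hs
    have h1 : ∀ j, ∃ x ∈ Sg, (fun i => (x i : ℚ)) = s j := fun j => Finset.mem_image.mp (hs j)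
    choose x hx hxs using h1
    have h2 := hPe (∏ j, x j) ((hYm _).mpr ⟨x, hx, rfl⟩)
    have h3 : (fun i => (((∏ j, x j) i : ℕ) : ℚ)) = ∏ j, s j := by
      funext i
      rw [Finset.prod_apply, Finset.prod_apply, Nat.cast_prod]
      exact Finset.prod_congr rfl fun j _ => congrFun (hxs j) i
    rw [← h3]
    exact h2
  obtain ⟨e, he0, hecard⟩ := hf P hP0 hPd _ g1 g2
  refine ⟨e, he0, ?_⟩
  rw [Finset.image_image] at hecard
  exact hecard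

end Pool.MP_a95293_nt.CG
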