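import Pool.Agent.Lib_MP_a95293_cg.Defs

/-!
# Piece CG-10 (COLR): colouring of the primes

PROOF of `colour`. Let `P` be the finite set of the primes dividing some `z i`, `z ∈ S`. Count the pairs
(`c : P → Fin n`, `z ∈ S`) such that every prime of `z i` has colour `i`: for given `z` the colours of the
`∑ i, (z i).primeFactors.card ≤ W` primes of the `z i` are prescribed (consistently: a prime divides at most one `z i`), so
there are `n ^ (|P| - ∑ ...) ≥ n ^ |P| / n ^ W` such `c`. If every `c` had `S.card > n ^ W * #(good z)` we would get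
`n ^ |P| * S.card > n ^ W * (number of pairs) ≥ n ^ |P| * S.card`. Extend `c` to `ℕ` by `0`.
(The number of functions `P → Fin n` with prescribed values on a subset: `Fintype.card_pi` of the singleton or full sets:
the set is `Fintype.piFinset`/`Fintype.card_piFinset`.)
PROOF of `fix_coord`. `p` prime with `c p = i`: `p` divides no `x l`, `l ≠ i` (and no `y l`), so taking `padicValRat p` of
`h`: `e i * padicValNat p (x i) = e i * padicValNat p (y i)`, hence the valuations are equal; a prime with `c p ≠ i`
divides neither `x i` nor `y i`. So `x i = y i` (`Nat.eq_of_factorization_eq`).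
-/

set_option autoImplicit false

namespace Pool.MP_a95293_nt.CG

open Finset

theorem colour (n W : ℕ) (hn : 1 ≤ n) (S : Finset (Fin n → ℕ))
    (hS : ∀ z ∈ S, (∀ i, z i ≠ 0) ∧ (∀ i j, i ≠ j → (z i).Coprime (z j)) ∧ ∑ i, (z i).primeFactors.card ≤ W) :
    ∃ c : ℕ → Fin n, S.card ≤ n ^ W * (S.filter fun z => ∀ i, ∀ p ∈ (z i).primeFactors, c p = i).card := by
  classical
  let P : Finset ℕ := S.biUnion fun z => univ.biUnion fun i => (z i).primeFactors
  have hP : ∀ z ∈ S, ∀ i, ∀ p ∈ (z i).primeFactors, p ∈ P := by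
    intro z hz i p hp
    exact mem_biUnion.2 ⟨z, hz, mem_biUnion.2 ⟨i, mem_univ i, hp⟩⟩
  let ext : (P → Fin n) → ℕ → Fin n := fun c p => if h : p ∈ P then c ⟨p, h⟩ else ⟨0, hn⟩
  let good : (P → Fin n) → (Fin n → ℕ) → Prop := fun c z => ∀ i, ∀ p ∈ (z i).primeFactors, ext c p = i
  -- for given `z`, many colourings
  have hmany : ∀ z ∈ S, n ^ P.card ≤ n ^ W * (univ.filter fun c : P → Fin n => good c z).card := by
    intro z hz
    obtain ⟨h0, hcop, hW⟩ := hS z hz
    let T : P → Finset (Fin n) := fun p => univ.filter fun a => ∀ i, p.1 ∈ (z i).primeFactors → a = i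
    have hsub : (Fintype.piFinset T) ⊆ univ.filter fun c : P → Fin n => good c z := by
      intro c hc
      rw [Fintype.mem_piFinset] at hc
      rw [mem_filter]
      refine ⟨mem_univ _, ?_⟩
      intro i p hp
      have hpP := hP z hz i p hp
      have h1 := hc ⟨p, hpP⟩
      rw [mem_filter] at h1
      have h2 := h1.2 i hp
      show (if h : p ∈ P then c ⟨p, h⟩ else ⟨0, hn⟩) = i
      rw [dif_pos hpP]
      exact h2
    have hT : ∀ p : P, n ≤ (if ∃ i, p.1 ∈ (z i).primeFactors then n else 1) * (T p).card := by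
      intro p
      by_cases hp : ∃ i, p.1 ∈ (z i).primeFactors
      · rw [if_pos hp]
        obtain ⟨i, hi⟩ := hp
        have : i ∈ T p := by
          rw [mem_filter]
          refine ⟨mem_univ _, ?_⟩
          intro j hj
          by_contra hne
          have h1 := Nat.Coprime.disjoint_primeFactors (hcop i j hne)
          exact (Finset.disjoint_left.1 h1) hi hj
        have : 1 ≤ (T p).card := card_pos.2 ⟨i, this⟩
        nlinarith
      · rw [if_neg hp, one_mul]
        have : T p = univ := by
          apply filter_true_of_mem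
          intro a _ i hi
          exact absurd ⟨i, hi⟩ hp
        rw [this, card_univ, Fintype.card_fin]
    have hcardP : Fintype.card P = P.card := Fintype.card_coe P
    have h1 : n ^ P.card ≤ ∏ p : P, ((if ∃ i, p.1 ∈ (z i).primeFactors then n else 1) * (T p).card) := by
      calc n ^ P.card = ∏ _p : P, n := by rw [prod_const, card_univ, hcardP]
        _ ≤ _ := prod_le_prod' fun p _ => hT p
    have h2 : ∏ p : P, (if ∃ i, p.1 ∈ (z i).primeFactors then n else 1) ≤ n ^ W := by
      have e1 : ∏ p : P, (if ∃ i, p.1 ∈ (z i).primeFactors then n else 1) =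
          ∏ p ∈ P, (if ∃ i, p ∈ (z i).primeFactors then n else 1) :=
        prod_coe_sort P fun p => if ∃ i, p ∈ (z i).primeFactors then n else 1
      rw [e1, ← prod_filter, prod_const]
      refine Nat.pow_le_pow_right hn ?_
      refine le_trans (card_le_card (t := univ.biUnion fun i => (z i).primeFactors) ?_) (le_trans card_biUnion_le hW)
      intro p hp
      rw [mem_filter] at hp
      obtain ⟨i, hi⟩ := hp.2
      exact mem_biUnion.2 ⟨i, mem_univ i, hi⟩
    rw [prod_mul_distrib, ← Fintype.card_piFinset] at h1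
    calc n ^ P.card ≤ _ := h1
      _ ≤ n ^ W * (univ.filter fun c : P → Fin n => good c z).card := Nat.mul_le_mul h2 (card_le_card hsub)
  -- double counting
  have hdc : ∑ c : P → Fin n, (S.filter fun z => good c z).card =
      ∑ z ∈ S, (univ.filter fun c : P → Fin n => good c z).card := by
    simp only [card_filter]
    rw [sum_comm]
  have : Nonempty (Fin n) := ⟨⟨0, hn⟩⟩
  have hex : ∃ c ∈ (univ : Finset (P → Fin n)), S.card ≤ n ^ W * (S.filter fun z => good c z).card := by
    refine exists_le_of_sum_le univ_nonempty ?_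
    rw [sum_const, card_univ, Fintype.card_fun, Fintype.card_fin, Fintype.card_coe, ← mul_sum, hdc, mul_sum, smul_eq_mul,
      mul_comm, ← smul_eq_mul, ← sum_const]
    exact sum_le_sum fun z hz => hmany z hz
  obtain ⟨c, _, hc⟩ := hex
  exact ⟨ext c, hc⟩

private theorem val_prod_Colr {n : ℕ} (p : ℕ) [Fact p.Prime] (x : Fin n → ℕ) (hx : ∀ i, x i ≠ 0) (e : Fin n → ℤ)
    (s : Finset (Fin n)) :
    padicValRat p (∏ i ∈ s, (x i : ℚ) ^ e i) = ∑ i ∈ s, e i * (padicValNat p (x i) : ℤ) := by
  classical
  induction s using Finset.induction_on with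
  | empty => simp
  | insert a s ha ih =>
    have h1 : ((x a : ℚ) ^ e a) ≠ 0 := zpow_ne_zero _ (Nat.cast_ne_zero.2 (hx a))
    have h2 : (∏ i ∈ s, (x i : ℚ) ^ e i) ≠ 0 :=
      prod_ne_zero_iff.2 fun i _ => zpow_ne_zero _ (Nat.cast_ne_zero.2 (hx i))
    rw [prod_insert ha, sum_insert ha, padicValRat.mul h1 h2, ih, padicValRat.zpow, padicValRat.of_nat]

theorem fix_coord {n : ℕ} (c : ℕ → Fin n) (x y : Fin n → ℕ) (hx : ∀ i, x i ≠ 0) (hy : ∀ i, y i ≠ 0)
    (hcx : ∀ i, ∀ p ∈ (x i).primeFactors, c p = i) (hcy : ∀ i, ∀ p ∈ (y i).primeFactors, c p = i)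
    (e : Fin n → ℤ) (h : ∏ i, (x i : ℚ) ^ e i = ∏ i, (y i : ℚ) ^ e i) (i : Fin n) (hi : e i ≠ 0) : x i = y i := by
  classical
  have key : ∀ (u : Fin n → ℕ), (∀ i, u i ≠ 0) → (∀ i, ∀ p ∈ (u i).primeFactors, c p = i) → ∀ p, p.Prime → ∀ j, c p ≠ j →
      padicValNat p (u j) = 0 := by
    intro u hu hc p hp j hj
    refine padicValNat.eq_zero_of_not_dvd fun hd => hj ?_
    exact hc j p (Nat.mem_primeFactors.2 ⟨hp, hd, hu j⟩)
  refine Nat.eq_of_factorization_eq (hx i) (hy i) fun p => ?_
  by_cases hp : p.Prime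
  · haveI : Fact p.Prime := ⟨hp⟩
    rw [Nat.factorization_def _ hp, Nat.factorization_def _ hp]
    by_cases hc : c p = i
    · have h1 := congrArg (padicValRat p) h
      rw [val_prod_Colr p x hx e univ, val_prod_Colr p y hy e univ] at h1
      rw [sum_eq_single i, sum_eq_single i] at h1
      · have := mul_left_cancel₀ hi h1
        exact_mod_cast this
      · intro j _ hj
        rw [key y hy hcy p hp j (by rw [hc]; exact fun h => hj h.symm)]
        simp
      · intro h; exact absurd (mem_univ i) h
      · intro j _ hj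
        rw [key x hx hcx p hp j (by rw [hc]; exact fun h => hj h.symm)]
        simp
      · intro h; exact absurd (mem_univ i) h
    · rw [key x hx hcx p hp i hc, key y hy hcy p hp i hc]
  · rw [Nat.factorization_eq_zero_of_not_prime _ hp, Nat.factorization_eq_zero_of_not_prime _ hp]

end Pool.MP_a95293_nt.CG
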