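import Pool.Agent.Lib_MP_a95293_cg.Colr

/-!
# Piece CG-11 (CORE): the tensor power trick

PROOF of `core`. Let `TT` be the set of the `k`-tuples `w : Fin k → (Fin n → ℕ)` with `w j ∈ S` (`Fintype.piFinset`),
`#TT = #S ^ k`. The map `w ↦ (i ↦ (∏ j, w j) i % Q0)` has at most `Q0 ^ n` values: a fibre `T₁` with
`#TT ≤ Q0 ^ n * #T₁` (`Finset.exists_lt_card_fiber...`, or bound the sum over the fibres by the largest one;
it is easiest to prove `#T₁ ≤ f * dd ^ k * G ^ k` for every fibre `T₁` and to use `Finset.card_le_mul_card_image`).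
Let `Sg = T₁.image (fun w => ∏ j, w j)`, `e` from `hchr`, `e i ≠ 0`. `T₁` is the union of at most `f` sets `T₂` on which
`∏ l, (x l : ℚ) ^ e l` (`x = ∏ j, w j`) is constant; on `T₂` the number `x i` is a constant `ξ` (`fix_coord`; the primes of
`x i` are primes of some `w j i`, so they have colour `i`). Every `w j i` divides `ξ ≤ Z ^ k`, so `j ↦ w j i` takes at most
`dd ^ k` values on `T₂`; the fibre over `(ζ_j)` is contained in the product of the sets `{z ∈ S : z i = ζ_j}`, so it has at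
most `G ^ k` elements.
-/

set_option autoImplicit false

namespace Pool.MP_a95293_nt.CG

open Finset

/-- The primes of the product of the `i`-th coordinates have colour `i`, the product is positive and small. -/
private theorem Core_prod {n k Z : ℕ} {c : ℕ → Fin n} {S : Finset (Fin n → ℕ)}
    (hS : ∀ z ∈ S, ∀ i, (1 ≤ z i ∧ z i ≤ Z) ∧ ∀ p ∈ (z i).primeFactors, c p = i)
    {w : Fin k → (Fin n → ℕ)} (hw : ∀ j, w j ∈ S) (i : Fin n) :
    1 ≤ (∏ j, w j) i ∧ (∏ j, w j) i ≤ Z ^ k ∧ ∀ p ∈ ((∏ j, w j) i).primeFactors, c p = i := by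
  rw [Finset.prod_apply]
  refine ⟨?_, ?_, ?_⟩
  · exact Nat.one_le_iff_ne_zero.mpr (Finset.prod_ne_zero_iff.mpr fun j _ =>
      Nat.one_le_iff_ne_zero.mp ((hS _ (hw j) i).1.1))
  · calc ∏ j, w j i ≤ ∏ _j : Fin k, Z := Finset.prod_le_prod' fun j _ => (hS _ (hw j) i).1.2
      _ = Z ^ k := by rw [Finset.prod_const, Finset.card_univ, Fintype.card_fin]
  · intro p hp
    have hp1 : p.Prime := Nat.prime_of_mem_primeFactors hp
    have hp2 : p ∣ ∏ j, w j i := Nat.dvd_of_mem_primeFactors hp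
    obtain ⟨j, _, hj⟩ := (Prime.dvd_finsetProd_iff hp1.prime _).mp hp2
    refine (hS _ (hw j) i).2 p ?_
    exact Nat.mem_primeFactors.mpr ⟨hp1, hj, Nat.one_le_iff_ne_zero.mp (hS _ (hw j) i).1.1⟩

/-- The tuples with a given product in the coordinate `i`. -/
private theorem Core_fib {n k G Z dd : ℕ} {c : ℕ → Fin n} {S : Finset (Fin n → ℕ)}
    (hS : ∀ z ∈ S, ∀ i, (1 ≤ z i ∧ z i ≤ Z) ∧ ∀ p ∈ (z i).primeFactors, c p = i)
    (hfib : ∀ (i : Fin n) (ζ : ℕ), (S.filter fun z => z i = ζ).card ≤ G)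
    (hdiv : ∀ ξ : ℕ, 1 ≤ ξ → ξ ≤ Z ^ k → ξ.divisors.card ≤ dd) (i : Fin n)
    (T : Finset (Fin k → (Fin n → ℕ))) (hT : ∀ w ∈ T, ∀ j, w j ∈ S)
    (hc : ∀ w ∈ T, ∀ w' ∈ T, (∏ j, w j) i = (∏ j, w' j) i) : T.card ≤ dd ^ k * G ^ k := by
  classical
  rcases T.eq_empty_or_nonempty with h0 | ⟨w0, h0⟩
  · rw [h0, Finset.card_empty]
    exact Nat.zero_le _
  obtain ⟨hx1, hx2, _⟩ := Core_prod hS (hT w0 h0) i
  set ξ : ℕ := (∏ j, w0 j) i with hξ
  have h1 : T.card ≤ G ^ k * (Fintype.piFinset fun _ : Fin k => ξ.divisors).card := by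
    refine Finset.card_le_mul_card_image_of_maps_to (f := fun w : Fin k → (Fin n → ℕ) => fun j => w j i)
      ?_ _ ?_
    · intro w hw
      rw [Fintype.mem_piFinset]
      intro j
      rw [Nat.mem_divisors]
      refine ⟨?_, Nat.one_le_iff_ne_zero.mp hx1⟩
      have e : ξ = ∏ j, w j i := by
        rw [hξ, hc w0 h0 w hw, Finset.prod_apply]
      rw [e]
      exact Finset.dvd_prod_of_mem (fun j => w j i) (Finset.mem_univ j)
    · intro ζ _
      calc (T.filter fun w => (fun j => w j i) = ζ).card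
          ≤ (Fintype.piFinset fun j : Fin k => S.filter fun z => z i = ζ j).card := by
            refine Finset.card_le_card fun w hw => ?_
            rw [Finset.mem_filter] at hw
            rw [Fintype.mem_piFinset]
            intro j
            rw [Finset.mem_filter]
            exact ⟨hT w hw.1 j, congrFun hw.2 j⟩
        _ = ∏ j : Fin k, (S.filter fun z => z i = ζ j).card := Fintype.card_piFinset _
        _ ≤ ∏ _j : Fin k, G := Finset.prod_le_prod' fun j _ => hfib i (ζ j)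
        _ = G ^ k := by rw [Finset.prod_const, Finset.card_univ, Fintype.card_fin]
  have h2 : (Fintype.piFinset fun _ : Fin k => ξ.divisors).card ≤ dd ^ k := by
    rw [Fintype.card_piFinset, Finset.prod_const, Finset.card_univ, Fintype.card_fin]
    exact Nat.pow_le_pow_left (hdiv ξ hx1 hx2) k
  calc T.card ≤ G ^ k * (Fintype.piFinset fun _ : Fin k => ξ.divisors).card := h1
    _ ≤ G ^ k * dd ^ k := Nat.mul_le_mul_left _ h2
    _ = dd ^ k * G ^ k := Nat.mul_comm _ _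

theorem core (n k f G Z dd Q0 : ℕ) (hQ : 1 ≤ Q0) (c : ℕ → Fin n) (S : Finset (Fin n → ℕ))
    (hS : ∀ z ∈ S, ∀ i, (1 ≤ z i ∧ z i ≤ Z) ∧ ∀ p ∈ (z i).primeFactors, c p = i)
    (hchr : ∀ Sg : Finset (Fin n → ℕ), (∀ x ∈ Sg, ∃ w : Fin k → (Fin n → ℕ), (∀ j, w j ∈ S) ∧ x = ∏ j, w j) →
      (∀ x ∈ Sg, ∀ x' ∈ Sg, ∀ i, x i ≡ x' i [MOD Q0]) →
      ∃ e : Fin n → ℤ, e ≠ 0 ∧ (Sg.image fun x => ∏ i, (x i : ℚ) ^ e i).card ≤ f)
    (hfib : ∀ (i : Fin n) (ζ : ℕ), (S.filter fun z => z i = ζ).card ≤ G)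
    (hdiv : ∀ ξ : ℕ, 1 ≤ ξ → ξ ≤ Z ^ k → ξ.divisors.card ≤ dd) :
    S.card ^ k ≤ Q0 ^ n * (f * (dd ^ k * G ^ k)) := by
  classical
  have hTT : (Fintype.piFinset fun _ : Fin k => S).card = S.card ^ k := by
    rw [Fintype.card_piFinset, Finset.prod_const, Finset.card_univ, Fintype.card_fin]
  have hR : (Fintype.piFinset fun _ : Fin n => Finset.range Q0).card = Q0 ^ n := by
    rw [Fintype.card_piFinset, Finset.prod_const, Finset.card_univ, Fintype.card_fin,
      Finset.card_range]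
  rw [← hTT, ← hR, Nat.mul_comm]
  refine Finset.card_le_mul_card_image_of_maps_to
    (f := fun w : Fin k → (Fin n → ℕ) => fun i => (∏ j, w j) i % Q0) ?_ _ ?_
  · intro w _
    rw [Fintype.mem_piFinset]
    intro i
    rw [Finset.mem_range]
    exact Nat.mod_lt _ hQ
  intro r _
  obtain ⟨T₁, hT₁⟩ : ∃ T₁ : Finset (Fin k → (Fin n → ℕ)), T₁ =
    (Fintype.piFinset fun _ : Fin k => S).filter fun w => (fun i => (∏ j, w j) i % Q0) = r :=
    ⟨_, rfl⟩
  rw [← hT₁]
  have hm : ∀ w ∈ T₁, ∀ j, w j ∈ S := by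
    intro w hw
    rw [hT₁, Finset.mem_filter, Fintype.mem_piFinset] at hw
    exact hw.1
  have hr : ∀ w ∈ T₁, ∀ i, (∏ j, w j) i % Q0 = r i := by
    intro w hw i
    rw [hT₁, Finset.mem_filter] at hw
    exact congrFun hw.2 i
  obtain ⟨e, he, hf⟩ := hchr (T₁.image fun w => ∏ j, w j)
    (by
      intro x hx
      obtain ⟨w, hw, rfl⟩ := Finset.mem_image.mp hx
      exact ⟨w, hm w hw, rfl⟩)
    (by
      intro x hx x' hx' i
      obtain ⟨w, hw, rfl⟩ := Finset.mem_image.mp hx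
      obtain ⟨w', hw', rfl⟩ := Finset.mem_image.mp hx'
      exact (hr w hw i).trans (hr w' hw' i).symm)
  obtain ⟨i, hi⟩ : ∃ i, e i ≠ 0 := by
    by_contra h
    push Not at h
    exact he (funext h)
  have h1 : T₁.card ≤ (dd ^ k * G ^ k) *
      ((T₁.image fun w => ∏ j, w j).image fun x => ∏ i, (x i : ℚ) ^ e i).card := by
    refine Finset.card_le_mul_card_image_of_maps_to
      (f := fun w : Fin k → (Fin n → ℕ) => ∏ i, (((∏ j, w j) i : ℕ) : ℚ) ^ e i) ?_ _ ?_
    · intro w hw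
      exact Finset.mem_image_of_mem _ (Finset.mem_image_of_mem _ hw)
    · intro q _
      refine Core_fib hS hfib hdiv i _ ?_ ?_
      · intro w hw
        exact hm w (Finset.mem_filter.mp hw).1
      · intro w hw w' hw'
        obtain ⟨hw1, hw2⟩ := Finset.mem_filter.mp hw
        obtain ⟨hw1', hw2'⟩ := Finset.mem_filter.mp hw'
        refine fix_coord c _ _ (fun l => ?_) (fun l => ?_) (fun l => ?_) (fun l => ?_) e
          (hw2.trans hw2'.symm) i hi
        · exact Nat.one_le_iff_ne_zero.mp (Core_prod hS (hm w hw1) l).1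
        · exact Nat.one_le_iff_ne_zero.mp (Core_prod hS (hm w' hw1') l).1
        · exact (Core_prod hS (hm w hw1) l).2.2
        · exact (Core_prod hS (hm w' hw1') l).2.2
  calc T₁.card ≤ (dd ^ k * G ^ k) *
        ((T₁.image fun w => ∏ j, w j).image fun x => ∏ i, (x i : ℚ) ^ e i).card := h1
    _ ≤ (dd ^ k * G ^ k) * f := Nat.mul_le_mul_left _ hf
    _ = f * (dd ^ k * G ^ k) := Nat.mul_comm _ _

end Pool.MP_a95293_nt.CG
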