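import Pool.Agent.Lib_MP_a95293_cg.Chr
import Pool.Agent.Lib_MP_a95293_cg.Core
import Pool.Agent.Lib_MP_a95293_ps.Omg

/-!
# Piece CG-12 (CONG): few solutions of a monomial congruence modulo a huge modulus

PROOF of `cong`, induction on `n`. `n = 0`: `S` has at most one element. `n + 1`, given `κ`, `τ`:
`k = ⌈16 (n + 1) / τ⌉ + 1`; `class_char n (κ * k)` gives `h₁, f`; the induction hypothesis for `κ`, `τ / 8` gives `h₂`;
`h₀ = max h₁ h₂`. Given `E`: `X₀` from `class_char`, `C₁` from the induction hypothesis. If `X < X₀` (or `X < 2`) then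
`S.card ≤ (X₀ ^ κ + 1) ^ (n + 1)` (box). Otherwise let
`n' ^ W` with `W = max_(z ∈ S) ∑ i, ω (z i)` : `n' ^ W ≤ C X ^ (τ / 8)` by `PS.pow_omega n' ε` (`ε = τ / (8 n' (κ + 1))`) applied to
every `z i` of a `z` which attains the maximum; `colour` gives `c` and `S' = S.filter ...`, `S.card ≤ n' ^ W * S'.card`.
`core` for `S'` with `Q0` from `class_char` (a `k`-fold product of elements of `S'` has coordinates `≤ X ^ (κ k)`, prime to `q`,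
and `Rel.prod`), `Z = X ^ κ`, `dd = ⌊C₂ X ^ (κ k ε')⌋` (`PS.card_div ε'`, `ε' = τ / (8 κ' k)`, `κ' = κ + 1`),
`G = ⌊C₁ X ^ (τ / 8)⌋`: `hfib` is the induction hypothesis for the set of the `(z (i.succAbove l))_l`, `z ∈ S'`, `z i = ζ`
(the map is injective on them), exponents `m ∘ i.succAbove`; `Rel` for the shorter tuples: the factor `ζ ^ ...` is prime to
`q` and cancels (`Nat.ModEq.cancel_right_of_coprime`, `Fin.prod_univ_succAbove`); if `G = 0`.. no problem.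
Total: `S'.card ^ k ≤ (X ^ 2 * E ^ n') ^ n' * f * (C₂ X ^ (τ / 8)) ^ k * (C₁ X ^ (τ / 8)) ^ k ≤ (C₃ * X ^ (2 n' / k + τ / 4)) ^ k`,
and `2 n' / k ≤ τ / 8`; take `k`-th roots (`pow_le_pow_left₀` contrapositive / `le_of_pow_le_pow_left`).
-/

set_option autoImplicit false

namespace Pool.MP_a95293_nt.CG

open Finset
open Pool.MP_a95293_nt.RC (rd)

/-- the tuples of `S` with `z i = ζ`, seen as tuples with one coordinate less -/
private theorem Cong_rel {q n : ℕ} {m : Fin (n + 1) → ℤ} {z z' : Fin (n + 1) → ℕ} (i : Fin (n + 1))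
    (hz : z i = z' i) (hq : (z i).Coprime q) (h : Rel q m z z') :
    Rel q (fun l => m (i.succAbove l)) (fun l => z (i.succAbove l)) (fun l => z' (i.succAbove l)) := by
  unfold Rel at *
  rw [Fin.prod_univ_succAbove _ i, Fin.prod_univ_succAbove (fun i => z' i ^ (-m i).toNat) i,
    Fin.prod_univ_succAbove (fun i => z' i ^ (m i).toNat) i,
    Fin.prod_univ_succAbove (fun i => z i ^ (-m i).toNat) i, ← hz] at h
  have hc : Nat.gcd q (z i ^ (m i).toNat * z i ^ (-m i).toNat) = 1 := by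
    have h1 : (z i ^ (m i).toNat * z i ^ (-m i).toNat).Coprime q := by
      rw [← pow_add]
      exact hq.pow_left _
    exact Nat.Coprime.symm h1
  refine Nat.ModEq.cancel_left_of_coprime hc ?_
  simp only [mul_mul_mul_comm (z i ^ (m i).toNat) _ (z i ^ (-m i).toNat)] at h
  exact h

private theorem Cong_fib {q n X κ E : ℕ} {C τ : ℝ}
    (hIH : ∀ m : Fin n → ℤ, (∀ i, m i ≠ 0 ∧ |m i| ≤ E) → ∀ S : Finset (Fin n → ℕ),
      (∀ z ∈ S, (∀ i, (1 ≤ z i ∧ z i ≤ X ^ κ) ∧ (z i).Coprime q) ∧ ∀ i j, i ≠ j → (z i).Coprime (z j)) →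
      (∀ z ∈ S, ∀ z' ∈ S, Rel q m z z') → (S.card : ℝ) ≤ C * (X : ℝ) ^ τ)
    (m : Fin (n + 1) → ℤ) (hm : ∀ i, m i ≠ 0 ∧ |m i| ≤ E) (S : Finset (Fin (n + 1) → ℕ))
    (hS : ∀ z ∈ S, (∀ i, (1 ≤ z i ∧ z i ≤ X ^ κ) ∧ (z i).Coprime q) ∧ ∀ i j, i ≠ j → (z i).Coprime (z j))
    (hR : ∀ z ∈ S, ∀ z' ∈ S, Rel q m z z') (i : Fin (n + 1)) (ζ : ℕ) :
    (((S.filter fun z => z i = ζ).card : ℕ) : ℝ) ≤ C * (X : ℝ) ^ τ := by
  classical
  have hinj : Set.InjOn (fun (z : Fin (n + 1) → ℕ) (l : Fin n) => z (i.succAbove l))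
      (S.filter fun z => z i = ζ : Finset (Fin (n + 1) → ℕ)) := by
    intro z hz z' hz' h
    rw [Finset.mem_coe, Finset.mem_filter] at hz hz'
    funext l
    rcases Fin.eq_self_or_eq_succAbove i l with rfl | ⟨l', rfl⟩
    · rw [hz.2, hz'.2]
    · exact congrFun h l'
  rw [← Finset.card_image_of_injOn hinj]
  refine hIH (fun l => m (i.succAbove l)) (fun l => hm _) _ ?_ ?_
  · intro y hy
    obtain ⟨z, hz, rfl⟩ := Finset.mem_image.mp hy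
    have hz1 := hS z (Finset.mem_filter.mp hz).1
    refine ⟨fun l => hz1.1 _, fun l l' hl => hz1.2 _ _ fun h => hl ?_⟩
    exact Fin.succAbove_right_injective h
  · intro y hy y' hy'
    obtain ⟨z, hz, rfl⟩ := Finset.mem_image.mp hy
    obtain ⟨z', hz', rfl⟩ := Finset.mem_image.mp hy'
    obtain ⟨hz1, hz2⟩ := Finset.mem_filter.mp hz
    obtain ⟨hz1', hz2'⟩ := Finset.mem_filter.mp hz'
    exact Cong_rel i (hz2.trans hz2'.symm) ((hS z hz1).1 i).2 (hR z hz1 z' hz1')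

/-- the box -/
private theorem Cong_box {n B : ℕ} (S : Finset (Fin n → ℕ)) (hS : ∀ z ∈ S, ∀ i, z i ≤ B) :
    S.card ≤ (B + 1) ^ n := by
  classical
  calc S.card ≤ (Fintype.piFinset fun _ : Fin n => Finset.range (B + 1)).card := by
        refine Finset.card_le_card fun z hz => ?_
        rw [Fintype.mem_piFinset]
        intro i
        rw [Finset.mem_range]
        exact Nat.lt_succ_of_le (hS z hz i)
    _ = (B + 1) ^ n := by
        rw [Fintype.card_piFinset, Finset.prod_const, Finset.card_univ, Fintype.card_fin,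
          Finset.card_range]

/-- the number of prime factors -/
private theorem Cong_W {n X κ : ℕ} {C₀ ε : ℝ} (hC : 1 ≤ C₀) (hε : 0 < ε)
    (h0 : ∀ t : ℕ, 1 ≤ t → ((n + 1 : ℕ) : ℝ) ^ t.primeFactors.card ≤ C₀ * (t : ℝ) ^ ε)
    (z : Fin (n + 1) → ℕ) (hz : ∀ i, 1 ≤ z i ∧ z i ≤ X ^ κ) :
    ((n + 1 : ℕ) : ℝ) ^ (∑ i, (z i).primeFactors.card) ≤
      C₀ ^ (n + 1) * (X : ℝ) ^ ((κ : ℝ) * ε * ((n + 1 : ℕ) : ℝ)) := by
  have hX0 : (0 : ℝ) ≤ X := Nat.cast_nonneg _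
  rw [← Finset.prod_pow_eq_pow_sum]
  calc ∏ i, ((n + 1 : ℕ) : ℝ) ^ (z i).primeFactors.card
      ≤ ∏ _i : Fin (n + 1), (C₀ * (X : ℝ) ^ ((κ : ℝ) * ε)) := by
        refine Finset.prod_le_prod (fun i _ => by positivity) fun i _ => ?_
        refine (h0 _ (hz i).1).trans ?_
        refine mul_le_mul_of_nonneg_left ?_ (by linarith)
        rw [Real.rpow_mul hX0, Real.rpow_natCast]
        refine Real.rpow_le_rpow (Nat.cast_nonneg _) ?_ hε.le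
        exact_mod_cast (hz i).2
    _ = C₀ ^ (n + 1) * (X : ℝ) ^ ((κ : ℝ) * ε * ((n + 1 : ℕ) : ℝ)) := by
        rw [Finset.prod_const, Finset.card_univ, Fintype.card_fin, mul_pow,
          ← Real.rpow_natCast ((X : ℝ) ^ ((κ : ℝ) * ε)), ← Real.rpow_mul hX0]

/-- the `k`-th root -/
private theorem Cong_root {n k f G dd Q0 X E s : ℕ} {C₁ C₂ τ : ℝ} (hk : 1 ≤ k) (hX : 1 ≤ X)
    (hC₁ : 1 ≤ C₁) (hC₂ : 1 ≤ C₂) (hkτ : 16 * ((n + 1 : ℕ) : ℝ) ≤ k * τ)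
    (hG : (G : ℝ) ≤ C₁ * (X : ℝ) ^ (τ / 8)) (hd : (dd : ℝ) ≤ C₂ * (X : ℝ) ^ (τ / 8))
    (hQ : Q0 ≤ X ^ 2 * E ^ (n + 1))
    (hs : s ^ k ≤ Q0 ^ (n + 1) * (f * (dd ^ k * G ^ k))) :
    (s : ℝ) ≤ ((((E ^ (n + 1)) ^ (n + 1) * f + 1 : ℕ) : ℝ) * (C₂ * C₁)) * (X : ℝ) ^ (3 * τ / 8) := by
  have hX0 : (0 : ℝ) < X := by exact_mod_cast hX
  have hX1 : (1 : ℝ) ≤ X := by exact_mod_cast hX
  have hk0 : k ≠ 0 := by omega
  have hb : (0 : ℝ) ≤ ((((E ^ (n + 1)) ^ (n + 1) * f + 1 : ℕ) : ℝ) * (C₂ * C₁)) * (X : ℝ) ^ (3 * τ / 8) := by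
    have : 0 ≤ C₂ * C₁ := by nlinarith
    positivity
  refine le_of_pow_le_pow_left₀ hk0 hb ?_
  have h1 : ((Q0 : ℝ)) ≤ (X : ℝ) ^ 2 * ((E ^ (n + 1) : ℕ) : ℝ) := by exact_mod_cast hQ
  have h2 : (s : ℝ) ^ k ≤ (Q0 : ℝ) ^ (n + 1) * (f * ((dd : ℝ) ^ k * (G : ℝ) ^ k)) := by exact_mod_cast hs
  have h3 : ((Q0 : ℝ)) ^ (n + 1) ≤ (X : ℝ) ^ (2 * (n + 1)) * (((E ^ (n + 1)) ^ (n + 1) : ℕ) : ℝ) := by
    calc ((Q0 : ℝ)) ^ (n + 1) ≤ ((X : ℝ) ^ 2 * ((E ^ (n + 1) : ℕ) : ℝ)) ^ (n + 1) :=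
          pow_le_pow_left₀ (Nat.cast_nonneg _) h1 _
      _ = (X : ℝ) ^ (2 * (n + 1)) * (((E ^ (n + 1)) ^ (n + 1) : ℕ) : ℝ) := by
          rw [mul_pow, ← pow_mul]
          push_cast
          ring
  have h4 : (X : ℝ) ^ (2 * (n + 1)) ≤ ((X : ℝ) ^ (τ / 8)) ^ k := by
    rw [← Real.rpow_natCast ((X : ℝ) ^ (τ / 8)) k, ← Real.rpow_mul hX0.le, ← Real.rpow_natCast]
    refine Real.rpow_le_rpow_of_exponent_le hX1 ?_
    push_cast at hkτ ⊢
    linarith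
  have h5 : (f : ℝ) * (((E ^ (n + 1)) ^ (n + 1) : ℕ) : ℝ) ≤
      (((E ^ (n + 1)) ^ (n + 1) * f + 1 : ℕ) : ℝ) ^ k := by
    have h6 : (1 : ℝ) ≤ (((E ^ (n + 1)) ^ (n + 1) * f + 1 : ℕ) : ℝ) := by
      exact_mod_cast Nat.le_add_left 1 _
    calc (f : ℝ) * (((E ^ (n + 1)) ^ (n + 1) : ℕ) : ℝ) ≤ (((E ^ (n + 1)) ^ (n + 1) * f + 1 : ℕ) : ℝ) := by
          push_cast
          linarith [mul_comm (f : ℝ) (((E : ℝ) ^ (n + 1)) ^ (n + 1))]
      _ ≤ (((E ^ (n + 1)) ^ (n + 1) * f + 1 : ℕ) : ℝ) ^ k := le_self_pow₀ h6 hk0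
  have h7 : ((dd : ℝ)) ^ k ≤ (C₂ * (X : ℝ) ^ (τ / 8)) ^ k := pow_le_pow_left₀ (Nat.cast_nonneg _) hd _
  have h8 : ((G : ℝ)) ^ k ≤ (C₁ * (X : ℝ) ^ (τ / 8)) ^ k := pow_le_pow_left₀ (Nat.cast_nonneg _) hG _
  have hY : (X : ℝ) ^ (3 * τ / 8) = (X : ℝ) ^ (τ / 8) * ((X : ℝ) ^ (τ / 8) * (X : ℝ) ^ (τ / 8)) := by
    rw [← Real.rpow_add hX0, ← Real.rpow_add hX0]
    congr 1
    ring
  set Y : ℝ := (X : ℝ) ^ (τ / 8) with hYdef
  have hY0 : 0 ≤ Y := Real.rpow_nonneg hX0.le _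
  set M : ℝ := (((E ^ (n + 1)) ^ (n + 1) * f + 1 : ℕ) : ℝ) with hM
  have hM0 : 0 ≤ M := Nat.cast_nonneg _
  calc (s : ℝ) ^ k ≤ (Q0 : ℝ) ^ (n + 1) * (f * ((dd : ℝ) ^ k * (G : ℝ) ^ k)) := h2
    _ ≤ ((X : ℝ) ^ (2 * (n + 1)) * (((E ^ (n + 1)) ^ (n + 1) : ℕ) : ℝ)) *
        (f * ((C₂ * Y) ^ k * (C₁ * Y) ^ k)) := by
        refine mul_le_mul h3 ?_ (by positivity) (by positivity)
        refine mul_le_mul_of_nonneg_left ?_ (Nat.cast_nonneg _)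
        exact mul_le_mul h7 h8 (by positivity) (by positivity)
    _ = (X : ℝ) ^ (2 * (n + 1)) * ((f : ℝ) * (((E ^ (n + 1)) ^ (n + 1) : ℕ) : ℝ)) *
        ((C₂ * Y) ^ k * (C₁ * Y) ^ k) := by ring
    _ ≤ Y ^ k * M ^ k * ((C₂ * Y) ^ k * (C₁ * Y) ^ k) := by
        refine mul_le_mul_of_nonneg_right ?_ (by positivity)
        exact mul_le_mul h4 h5 (by positivity) (by positivity)
    _ = (M * (C₂ * C₁) * (X : ℝ) ^ (3 * τ / 8)) ^ k := by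
        rw [hY, ← mul_pow, ← mul_pow, ← mul_pow]
        congr 1
        ring

theorem cong (n : ℕ) : ∀ (κ : ℕ) (τ : ℝ), 0 < τ → ∃ h₀ : ℕ, ∀ E : ℕ, ∃ C : ℝ, 1 ≤ C ∧ ∀ X q : ℕ, 1 ≤ X →
    X ^ h₀ ≤ q → rd q ≤ X → ∀ m : Fin n → ℤ, (∀ i, m i ≠ 0 ∧ |m i| ≤ E) → ∀ S : Finset (Fin n → ℕ),
    (∀ z ∈ S, (∀ i, (1 ≤ z i ∧ z i ≤ X ^ κ) ∧ (z i).Coprime q) ∧ ∀ i j, i ≠ j → (z i).Coprime (z j)) →
    (∀ z ∈ S, ∀ z' ∈ S, Rel q m z z') → (S.card : ℝ) ≤ C * (X : ℝ) ^ τ := by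
  induction n with
  | zero =>
    intro κ τ hτ
    refine ⟨0, fun E => ⟨1, le_rfl, fun X q hX _ _ m _ S _ _ => ?_⟩⟩
    have h1 : S.card ≤ 1 := Finset.card_le_one_of_subsingleton S
    have h2 : (1 : ℝ) ≤ (X : ℝ) ^ τ := Real.one_le_rpow (by exact_mod_cast hX) hτ.le
    have h3 : (S.card : ℝ) ≤ 1 := by exact_mod_cast h1
    linarith
  | succ n ih =>
    intro κ τ hτ
    obtain ⟨k, hk⟩ : ∃ k : ℕ, k = ⌈16 * ((n + 1 : ℕ) : ℝ) / τ⌉₊ + 1 := ⟨_, rfl⟩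
    have hk1 : 1 ≤ k := by omega
    have hkτ : 16 * ((n + 1 : ℕ) : ℝ) ≤ k * τ := by
      have h1 : 16 * ((n + 1 : ℕ) : ℝ) / τ ≤ k := by
        rw [hk]
        push_cast
        have := Nat.le_ceil (16 * ((n + 1 : ℕ) : ℝ) / τ)
        push_cast at this
        linarith
      rwa [div_le_iff₀ hτ] at h1
    obtain ⟨h₁, f, hcc⟩ := class_char n (κ * k)
    obtain ⟨h₂, hIH⟩ := ih κ (τ / 8) (by positivity)
    refine ⟨max h₁ h₂, fun E => ?_⟩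
    obtain ⟨X₀, hX₀⟩ := hcc E
    obtain ⟨C₁, hC₁, hIH⟩ := hIH E
    have hε₁ : 0 < τ / (8 * ((n + 1 : ℕ) : ℝ) * (κ + 1)) := by positivity
    obtain ⟨C₀, hC₀, hom⟩ := PS.pow_omega (n + 1) _ hε₁
    have hε₂ : 0 < τ / (8 * ((κ : ℝ) + 1) * k) := by
      have : (0 : ℝ) < k := by exact_mod_cast hk1
      positivity
    obtain ⟨C₂, hC₂, hdv⟩ := PS.card_div _ hε₂
    obtain ⟨Cb, hCb⟩ : ∃ Cb : ℝ, Cb = (((X₀ ^ κ + 1) ^ (n + 1) : ℕ) : ℝ) := ⟨_, rfl⟩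
    obtain ⟨C₃, hC₃⟩ : ∃ C₃ : ℝ, C₃ = (((E ^ (n + 1)) ^ (n + 1) * f + 1 : ℕ) : ℝ) * (C₂ * C₁) :=
      ⟨_, rfl⟩
    have hCb1 : 1 ≤ Cb := by
      rw [hCb]
      exact_mod_cast Nat.one_le_pow _ _ (Nat.succ_pos _)
    have hC₃0 : 0 ≤ C₃ := by
      rw [hC₃]
      have : 0 ≤ C₂ * C₁ := by nlinarith
      positivity
    have hC₀0 : 0 ≤ C₀ ^ (n + 1) := by positivity
    refine ⟨Cb + C₀ ^ (n + 1) * C₃, ?_, ?_⟩
    · have := mul_nonneg hC₀0 hC₃0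
      linarith
    intro X q hX hq hrd m hm S hS hR
    have hX1 : (1 : ℝ) ≤ X := by exact_mod_cast hX
    have hX0 : (0 : ℝ) < X := by linarith
    have hXτ : (1 : ℝ) ≤ (X : ℝ) ^ τ := Real.one_le_rpow hX1 hτ.le
    have hCC := mul_nonneg hC₀0 hC₃0
    rcases lt_or_ge X X₀ with hlt | hge
    · have h1 : S.card ≤ (X₀ ^ κ + 1) ^ (n + 1) :=
        Cong_box S fun z hz i => ((hS z hz).1 i).1.2.trans (Nat.pow_le_pow_left hlt.le _)
      have h2 : (S.card : ℝ) ≤ Cb := by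
        rw [hCb]
        exact_mod_cast h1
      nlinarith
    rcases S.eq_empty_or_nonempty with hSe | hSn
    · rw [hSe, Finset.card_empty, Nat.cast_zero]
      have := mul_nonneg (by linarith : 0 ≤ Cb + C₀ ^ (n + 1) * C₃) (by linarith : 0 ≤ (X : ℝ) ^ τ)
      exact this
    obtain ⟨z₀, hz₀, hW⟩ := Finset.exists_max_image S (fun z => ∑ i, (z i).primeFactors.card) hSn
    obtain ⟨W, hWd⟩ : ∃ W, W = ∑ i, (z₀ i).primeFactors.card := ⟨_, rfl⟩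
    have hWb : ((n + 1 : ℕ) : ℝ) ^ W ≤ C₀ ^ (n + 1) * (X : ℝ) ^ (τ / 8) := by
      rw [hWd]
      refine (Cong_W hC₀ hε₁ hom z₀ fun i => ((hS z₀ hz₀).1 i).1).trans ?_
      refine mul_le_mul_of_nonneg_left ?_ hC₀0
      refine Real.rpow_le_rpow_of_exponent_le hX1 ?_
      have hκ : (0 : ℝ) < (κ : ℝ) + 1 := by positivity
      have hn : (0 : ℝ) < ((n + 1 : ℕ) : ℝ) := by positivity
      have e : (κ : ℝ) * (τ / (8 * ((n + 1 : ℕ) : ℝ) * (κ + 1))) * ((n + 1 : ℕ) : ℝ) =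
          τ / 8 * (κ / (κ + 1)) := by
        field_simp
      rw [e]
      have h1 : (κ : ℝ) / (κ + 1) ≤ 1 := by
        rw [div_le_one hκ]
        linarith
      nlinarith
    obtain ⟨c, hc⟩ := colour (n + 1) W (Nat.succ_pos n) S fun z hz =>
      ⟨fun i => Nat.one_le_iff_ne_zero.mp ((hS z hz).1 i).1.1, (hS z hz).2, by
        rw [hWd]
        exact hW z hz⟩
    obtain ⟨S', hS'⟩ : ∃ S' : Finset (Fin (n + 1) → ℕ), S' =
      S.filter fun z => ∀ i, ∀ p ∈ (z i).primeFactors, c p = i := ⟨_, rfl⟩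
    rw [← hS'] at hc
    have hsub : ∀ z ∈ S', z ∈ S := fun z hz => by
      rw [hS', Finset.mem_filter] at hz
      exact hz.1
    obtain ⟨Q0, hQ1, hQ2, hQ3⟩ := hX₀ X q hge
      ((Nat.pow_le_pow_right hX (le_max_left _ _)).trans hq) hrd m hm
    have hmain := core (n + 1) k f ⌊C₁ * (X : ℝ) ^ (τ / 8)⌋₊ (X ^ κ) ⌊C₂ * (X : ℝ) ^ (τ / 8)⌋₊ Q0 hQ1 c S'
      (by
        intro z hz i
        refine ⟨((hS z (hsub z hz)).1 i).1, ?_⟩
        rw [hS', Finset.mem_filter] at hz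
        exact hz.2 i)
      (by
        intro Sg hSg hcon
        refine hQ3 Sg ?_ ?_ hcon
        · intro x hx i
          obtain ⟨w, hw, rfl⟩ := hSg x hx
          rw [Finset.prod_apply]
          refine ⟨⟨?_, ?_⟩, ?_⟩
          · exact Nat.one_le_iff_ne_zero.mpr (Finset.prod_ne_zero_iff.mpr fun j _ =>
              Nat.one_le_iff_ne_zero.mp (((hS _ (hsub _ (hw j))).1 i).1.1))
          · calc ∏ j, w j i ≤ ∏ _j : Fin k, X ^ κ :=
                  Finset.prod_le_prod' fun j _ => ((hS _ (hsub _ (hw j))).1 i).1.2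
              _ = X ^ (κ * k) := by
                  rw [Finset.prod_const, Finset.card_univ, Fintype.card_fin, ← pow_mul]
          · exact Nat.Coprime.prod_left fun j _ => ((hS _ (hsub _ (hw j))).1 i).2
        · intro x hx x' hx'
          obtain ⟨w, hw, rfl⟩ := hSg x hx
          obtain ⟨w', hw', rfl⟩ := hSg x' hx'
          exact Rel.prod fun j => hR _ (hsub _ (hw j)) _ (hsub _ (hw' j)))
      (by
        intro i ζ
        refine Nat.le_floor ?_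
        exact Cong_fib (fun m hm S hS hR => hIH X q hX
          ((Nat.pow_le_pow_right hX (le_max_right _ _)).trans hq) hrd m hm S hS hR) m hm S'
          (fun z hz => hS z (hsub z hz)) (fun z hz z' hz' => hR z (hsub z hz) z' (hsub z' hz')) i ζ)
      (by
        intro ξ hξ1 hξ2
        refine Nat.le_floor ((hdv ξ hξ1).trans ?_)
        refine mul_le_mul_of_nonneg_left ?_ (by linarith)
        have hk0 : (0 : ℝ) < k := by exact_mod_cast hk1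
        have hκ : (0 : ℝ) < (κ : ℝ) + 1 := by positivity
        calc (ξ : ℝ) ^ (τ / (8 * ((κ : ℝ) + 1) * k))
            ≤ ((X : ℝ) ^ (((κ * k : ℕ) : ℝ))) ^ (τ / (8 * ((κ : ℝ) + 1) * k)) := by
              refine Real.rpow_le_rpow (Nat.cast_nonneg _) ?_ hε₂.le
              rw [Real.rpow_natCast, pow_mul]
              exact_mod_cast hξ2
          _ = (X : ℝ) ^ (((κ * k : ℕ) : ℝ) * (τ / (8 * ((κ : ℝ) + 1) * k))) := by
              rw [← Real.rpow_mul hX0.le]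
          _ ≤ (X : ℝ) ^ (τ / 8) := by
              refine Real.rpow_le_rpow_of_exponent_le hX1 ?_
              have e : ((κ * k : ℕ) : ℝ) * (τ / (8 * ((κ : ℝ) + 1) * k)) = τ / 8 * (κ / (κ + 1)) := by
                push_cast
                field_simp
              rw [e]
              have h1 : (κ : ℝ) / (κ + 1) ≤ 1 := by
                rw [div_le_one hκ]
                linarith
              nlinarith)
    have hY0 : (0 : ℝ) ≤ (X : ℝ) ^ (τ / 8) := Real.rpow_nonneg hX0.le _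
    have hs' := Cong_root hk1 hX hC₁ hC₂ hkτ
      (Nat.floor_le (mul_nonneg (by linarith) hY0)) (Nat.floor_le (mul_nonneg (by linarith) hY0))
      hQ2 hmain
    rw [← hC₃] at hs'
    have hcR : (S.card : ℝ) ≤ ((n + 1 : ℕ) : ℝ) ^ W * (S'.card : ℝ) := by exact_mod_cast hc
    calc (S.card : ℝ) ≤ ((n + 1 : ℕ) : ℝ) ^ W * (S'.card : ℝ) := hcR
      _ ≤ (C₀ ^ (n + 1) * (X : ℝ) ^ (τ / 8)) * (C₃ * (X : ℝ) ^ (3 * τ / 8)) :=
          mul_le_mul hWb hs' (Nat.cast_nonneg _) (mul_nonneg hC₀0 hY0)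
      _ = C₀ ^ (n + 1) * C₃ * (X : ℝ) ^ (τ / 2) := by
          rw [show τ / 2 = τ / 8 + 3 * τ / 8 by ring, Real.rpow_add hX0]
          ring
      _ ≤ C₀ ^ (n + 1) * C₃ * (X : ℝ) ^ τ :=
          mul_le_mul_of_nonneg_left (Real.rpow_le_rpow_of_exponent_le hX1 (by linarith)) hCC
      _ ≤ (Cb + C₀ ^ (n + 1) * C₃) * (X : ℝ) ^ τ :=
          mul_le_mul_of_nonneg_right (by linarith) (by linarith)

end Pool.MP_a95293_nt.CG
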