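import Pool.Agent.Lib_MP_a95293_ps.Defs

/-!
# MP_a95293_nt (n = 3): exponent `1/3`. Definitions

Theorem W (board note THEOREM W): for every `θ > 1/3` there is `M` such that for every `A` the number of admissible
triples with `rad ≤ X`, height between `rad ^ M` and `X ^ A`, is `O (X ^ θ)`.
Main tool, THEOREM CONG: few tuples of small integers satisfy a monomial congruence modulo a huge modulus.
-/

set_option autoImplicit false

namespace Pool.MP_a95293_nt.CG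

open Finset
open Pool.MP_a95293_nt.RC (rd Prm pr3)

/-- `∏ z_i ^ m_i ≡ ∏ z'_i ^ m_i` modulo `q`, cleared of denominators -/
def Rel (q : ℕ) {n : ℕ} (m : Fin n → ℤ) (z z' : Fin n → ℕ) : Prop :=
  (∏ i, z i ^ (m i).toNat) * (∏ i, z' i ^ (-m i).toNat) ≡
    (∏ i, z' i ^ (m i).toNat) * (∏ i, z i ^ (-m i).toNat) [MOD q]

/-- `t = F * w_1 ^ l_1 * ⋯ * w_s ^ l_s` with `F ≤ X ^ κ` and at most `s₀` powers `w_i ^ l_i`, `w_i ≤ X`, `l_i ≤ E`,
everything pairwise coprime -/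
def Cc (X κ E s₀ t : ℕ) : Prop :=
  ∃ (s : ℕ) (F : ℕ) (w l : Fin s → ℕ), s ≤ s₀ ∧ (1 ≤ F ∧ F ≤ X ^ κ) ∧
    (∀ i, (1 ≤ w i ∧ w i ≤ X) ∧ (1 ≤ l i ∧ l i ≤ E) ∧ (w i).Coprime F) ∧
    (∀ i j, i ≠ j → (w i).Coprime (w j)) ∧ t = F * ∏ i, w i ^ l i

/-- the three sides `a`, `b`, `a + b` of `z = (a, b)` -/
def sd (z : ℕ × ℕ) : Fin 3 → ℕ := ![z.1, z.2, z.1 + z.2]

/-- the polynomial `P (t x)` -/
noncomputable def scal {n : ℕ} (t : Fin n → ℚ) : MvPolynomial (Fin n) ℚ →ₐ[ℚ] MvPolynomial (Fin n) ℚ :=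
  MvPolynomial.aeval fun i => MvPolynomial.C (t i) * MvPolynomial.X i

end Pool.MP_a95293_nt.CG
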