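import Mathlib

/-!
# Piece CG-4 (DETG): determinants of polynomial functions of small arguments

PROOF of `sum_inj_gen`: the `s` with `∑ l, f s l < K` are at most `K ^ (card ι - 1)`: the map
`s ↦ (fun l : {l // l ≠ i} => f s l)` into the functions `{l // l ≠ i} → Fin K` is injective on them
(`Fintype.card_fun`, `Fintype.card_subtype_compl` / `Fintype.card {l // l ≠ i} = card ι - 1`). The other at least
`N - K ^ (card ι - 1)` values of `s` contribute `≥ K` each.
PROOF of `det_pi` (as `det_dvd2` in `Lib_MP_a95293_sf/DetB.lean`, transposed): by `add_pow` every entry is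
`∑ α ∈ box, c (k, α) * π ^ (∑ α) * ∏ l, y s l ^ α l`, `α : ι → ℕ` with `α i = 0`, `α l ≤ max E` (`Finset.prod_univ_sum` /
`Fintype.piFinset`). Expand the determinant by multilinearity in the columns `k` (transpose, `Matrix.detRowAlternating`,
`MultilinearMap.map_sum`, `MultilinearMap.map_smul_univ`): a term is a function `f : Fin N → (ι → ℕ)`; if `f` is not
injective two rows are equal and the determinant is `0`; if it is injective we can take out `π ^ (∑ ∑ f s l)`
(`Matrix.det_mul_column`/`det_mul_row`), which is `0` by `sum_inj_gen` and `hπ`.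
-/

set_option autoImplicit false

namespace Pool.MP_a95293_nt.CG

open Finset

theorem sum_inj_gen {ι : Type} [Fintype ι] [DecidableEq ι] (i : ι) (N K : ℕ) (f : Fin N → ι → ℕ)
    (hf : Function.Injective f) (hi : ∀ s, f s i = 0) :
    K * (N - K ^ (Fintype.card ι - 1)) ≤ ∑ s, ∑ l, f s l := by
  classical
  set B : Finset (Fin N) := univ.filter fun s => ∑ l, f s l < K with hB
  have h1 : B.card ≤ K ^ (Fintype.card ι - 1) := by
    have h2 : B.card ≤ (Fintype.piFinset fun _ : {l // l ≠ i} => range K).card := by
      refine card_le_card_of_injOn (fun s l => f s l.1) (fun s hs => ?_) fun s _ t _ hst => ?_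
      · have hs' : ∑ l, f s l < K := by
          have := mem_coe.1 hs
          rw [hB, mem_filter] at this
          exact this.2
        refine mem_coe.2 (Fintype.mem_piFinset.2 fun l => mem_range.2 ?_)
        exact lt_of_le_of_lt (single_le_sum (f := fun l => f s l) (fun _ _ => Nat.zero_le _)
          (mem_univ l.1)) hs'
      · refine hf (funext fun l => ?_)
        by_cases hl : l = i
        · rw [hl, hi, hi]
        · exact congrFun hst ⟨l, hl⟩
    refine h2.trans (le_of_eq ?_)
    rw [Fintype.card_piFinset, prod_const, card_range, card_univ]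
    congr 1
    exact Set.card_ne_eq i
  have h4 : K * (univ \ B).card ≤ ∑ s ∈ univ \ B, ∑ l, f s l := by
    rw [mul_comm, ← smul_eq_mul]
    refine card_nsmul_le_sum _ _ _ fun s hs => ?_
    rw [mem_sdiff, hB, mem_filter] at hs
    exact not_lt.1 fun h => hs.2 ⟨mem_univ s, h⟩
  have h5 : (univ \ B).card + B.card = N := by
    rw [card_sdiff_add_card_eq_card (subset_univ B), card_univ, Fintype.card_fin]
  calc K * (N - K ^ (Fintype.card ι - 1)) ≤ K * (univ \ B).card := Nat.mul_le_mul_left _ (by omega)
    _ ≤ _ := h4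
    _ ≤ _ := sum_le_sum_of_subset (subset_univ _)

private theorem detG_add_pow {R : Type} [CommRing R] (x : R) {e D : ℕ} (h : e ≤ D) :
    (1 + x) ^ e = ∑ j ∈ range (D + 1), x ^ j * (e.choose j : R) := by
  rw [add_comm, add_pow]
  rw [← sum_subset (range_subset_range.2 (Nat.succ_le_succ h))
    (f := fun j => x ^ j * (e.choose j : R))]
  · refine sum_congr rfl fun j _ => ?_
    rw [one_pow, mul_one]
  · intro j _ hj
    rw [mem_range, not_lt] at hj
    rw [Nat.choose_eq_zero_of_lt (by omega), Nat.cast_zero, mul_zero]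

theorem det_pi {R : Type} [CommRing R] {ι : Type} [Fintype ι] [DecidableEq ι] (i : ι) (N K : ℕ) (π : R)
    (hπ : π ^ (K * (N - K ^ (Fintype.card ι - 1))) = 0) (y : Fin N → ι → R) (E : Fin N → ι → ℕ) :
    Matrix.det (Matrix.of fun s k : Fin N => ∏ l ∈ univ.erase i, (1 + π * y s l) ^ E k l) = 0 := by
  classical
  set D : ℕ := ∑ k, ∑ l, E k l with hD
  have hED : ∀ k l, E k l ≤ D := fun k l =>
    (single_le_sum (f := fun l => E k l) (fun _ _ => Nat.zero_le _) (mem_univ l)).trans
      (single_le_sum (f := fun k => ∑ l, E k l) (fun _ _ => Nat.zero_le _) (mem_univ k))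
  set t : ι → Finset ℕ := fun l => if l = i then {0} else range (D + 1) with ht
  set S : Finset (ι → ℕ) := Fintype.piFinset t with hS
  have hent : ∀ s k : Fin N, ∏ l ∈ univ.erase i, (1 + π * y s l) ^ E k l =
      ∑ p ∈ S, (∏ l, ((E k l).choose (p l) : R)) * ∏ l, (π * y s l) ^ p l := by
    intro s k
    have h1 : ∏ l ∈ univ.erase i, (1 + π * y s l) ^ E k l =
        ∏ l : ι, ∑ j ∈ t l, (π * y s l) ^ j * ((E k l).choose j : R) := by
      rw [← mul_prod_erase univ (fun l => ∑ j ∈ t l, (π * y s l) ^ j * ((E k l).choose j : R))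
        (mem_univ i)]
      have h2 : (∑ j ∈ t i, (π * y s i) ^ j * ((E k i).choose j : R)) = 1 := by
        rw [ht]
        simp
      rw [h2, one_mul]
      refine prod_congr rfl fun l hl => ?_
      rw [mem_erase] at hl
      rw [ht]
      simp only [if_neg hl.1]
      exact detG_add_pow _ (hED k l)
    rw [h1, prod_univ_sum]
    refine sum_congr rfl fun p _ => ?_
    rw [prod_mul_distrib, mul_comm]
  have e1 : Matrix.det (Matrix.of fun s k : Fin N => ∏ l ∈ univ.erase i, (1 + π * y s l) ^ E k l) =
      (Matrix.detRowAlternating (R := R) (n := Fin N)).toMultilinearMap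
        (fun k => ∑ e : S, (∏ l, ((E k l).choose (e.1 l) : R)) •
          fun s => ∏ l, (π * y s l) ^ e.1 l) := by
    rw [← Matrix.det_transpose]
    show _ = Matrix.det _
    congr 1
    ext k s
    rw [Matrix.transpose_apply, Matrix.of_apply, hent s k, Finset.sum_apply,
      Finset.sum_coe_sort S (fun e => ((∏ l, ((E k l).choose (e l) : R)) •
          fun s => ∏ l, (π * y s l) ^ e l) s)]
    rfl
  rw [e1, MultilinearMap.map_sum]
  refine sum_eq_zero fun f _ => ?_
  rw [MultilinearMap.map_smul_univ]
  suffices h : Matrix.det (Matrix.of fun k s => ∏ l, (π * y s l) ^ (f k).1 l) = 0 by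
    show _ • Matrix.det (Matrix.of fun k s => ∏ l, (π * y s l) ^ (f k).1 l) = 0
    rw [h, smul_zero]
  by_cases hf : Function.Injective f
  · have e2 : (Matrix.of fun k s => ∏ l, (π * y s l) ^ (f k).1 l : Matrix (Fin N) (Fin N) R) =
        Matrix.of fun k s => π ^ (∑ l, (f k).1 l) *
          (Matrix.of fun k s => ∏ l, (y s l) ^ (f k).1 l : Matrix (Fin N) (Fin N) R) k s := by
      ext k s
      rw [Matrix.of_apply, Matrix.of_apply, Matrix.of_apply, ← prod_pow_eq_pow_sum,
        ← prod_mul_distrib]
      exact prod_congr rfl fun l _ => mul_pow _ _ _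
    rw [e2, Matrix.det_mul_column, prod_pow_eq_pow_sum]
    have h3 := sum_inj_gen i N K (fun k => (f k).1)
      (fun a b h => hf (Subtype.ext h)) (fun k => by
        have h4 := (Fintype.mem_piFinset.1 (f k).2) i
        rw [ht] at h4
        simpa using h4)
    rw [← Nat.sub_add_cancel h3, pow_add, hπ, mul_zero, zero_mul]
  · rw [Function.not_injective_iff] at hf
    obtain ⟨a, b, hab, hne⟩ := hf
    exact Matrix.det_zero_of_row_eq hne (by
      ext s
      simp [hab])

end Pool.MP_a95293_nt.CG
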