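import Pool.Agent.Lib_MP_a95293_cg.Defs

/-!
# Piece CG-1 (ELIM): elimination of one variable

PROOF of `elim`. Let `A = MvPolynomial (Fin n) ℚ` and `f, h' : A[X]` the images of `g, h` under
`MvPolynomial.finSuccEquiv ℚ n`. `f` is irreducible, `¬ f ∣ h'`. The coefficients of `f`, `h'` have total degree `≤ D`
(`MvPolynomial.totalDegree_coeff_finSuccEquiv_add_le` or similar) and `natDegree f, natDegree h' ≤ D`
(`MvPolynomial.natDegree_finSuccEquiv`, `degreeOf_le_totalDegree`).
Case `natDegree f = 0`: `f = C R` with `R ≠ 0`; `eval y g = eval (tail y) R` (`MvPolynomial.eval_eq_eval_mv_eval'`).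
Case `natDegree f > 0`: `R = Polynomial.resultant f h'`. By `Polynomial.exists_mul_add_mul_eq_C_resultant` (with
`m = natDegree f ≠ 0`) `C R = f * p + h' * q`, so `eval (tail y) R = 0` when `eval y g = eval y h = 0`.
`R ≠ 0`: map to `K = FractionRing A` (`Polynomial.resultant_map_map`, the degrees do not change);
`f` is primitive (`Irreducible.isPrimitive`), so by the Gauss lemma `f.map` is irreducible over `K` and does not divide
`h'.map` (`Polynomial.IsPrimitive.irreducible_iff_irreducible_map_fraction_map`,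
`IsPrimitive.dvd_iff_fraction_map_dvd_fraction_map`; for a non primitive `h'` take out the content), hence
`IsCoprime f.map h'.map` (`Irreducible.coprime_iff_not_dvd`) and `Polynomial.resultant_eq_zero_iff` gives `R ≠ 0`.
Total degree of `R`: `Matrix.det_apply`, every product has `natDegree f + natDegree h' ≤ 2 D` factors which are `0` or
coefficients, of total degree `≤ D`.
-/

set_option autoImplicit false

namespace Pool.MP_a95293_nt.CG

open Finset

private theorem Elim_coeff (n D : ℕ) (g : MvPolynomial (Fin (n + 1)) ℚ) (h : g.totalDegree ≤ D)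
    (i : ℕ) : ((MvPolynomial.finSuccEquiv ℚ n g).coeff i).totalDegree ≤ D := by
  by_cases hi : (MvPolynomial.finSuccEquiv ℚ n g).coeff i = 0
  · rw [hi, MvPolynomial.totalDegree_zero]
    exact Nat.zero_le _
  · have := MvPolynomial.totalDegree_coeff_finSuccEquiv_add_le g i hi
    omega

private theorem Elim_natDegree (n D : ℕ) (g : MvPolynomial (Fin (n + 1)) ℚ)
    (h : g.totalDegree ≤ D) : (MvPolynomial.finSuccEquiv ℚ n g).natDegree ≤ D := by
  rw [MvPolynomial.natDegree_finSuccEquiv]
  exact (MvPolynomial.degreeOf_le_totalDegree _ _).trans h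

private theorem Elim_eval (n : ℕ) (g : MvPolynomial (Fin (n + 1)) ℚ) (y : Fin (n + 1) → ℚ) :
    MvPolynomial.eval y g = ((MvPolynomial.finSuccEquiv ℚ n g).map
      (MvPolynomial.eval fun i => y i.succ)).eval (y 0) := by
  have h := MvPolynomial.eval_eq_eval_mv_eval' (fun i => y i.succ) (y 0) g
  have e : (Fin.cons (y 0) fun i => y i.succ : Fin (n + 1) → ℚ) = y := Fin.cons_self_tail y
  rwa [e] at h

private theorem Elim_det (k D n : ℕ) (M : Matrix (Fin k) (Fin k) (MvPolynomial (Fin n) ℚ))
    (h : ∀ i j, (M i j).totalDegree ≤ D) : M.det.totalDegree ≤ k * D := by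
  rw [Matrix.det_apply]
  refine MvPolynomial.totalDegree_finsetSum_le fun σ _ => ?_
  have h1 : (∏ i, M (σ i) i).totalDegree ≤ k * D := by
    refine (MvPolynomial.totalDegree_finsetProd _ _).trans ?_
    refine (Finset.sum_le_sum fun i _ => h (σ i) i).trans ?_
    rw [Finset.sum_const, Finset.card_univ, Fintype.card_fin, smul_eq_mul]
  rcases Int.units_eq_one_or (Equiv.Perm.sign σ) with e | e
  · rw [e, one_smul]
    exact h1
  · rw [e, Units.neg_smul, one_smul, MvPolynomial.totalDegree_neg]
    exact h1

private theorem Elim_res (n D : ℕ) (f h : Polynomial (MvPolynomial (Fin n) ℚ))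
    (hf : ∀ i, (f.coeff i).totalDegree ≤ D) (hh : ∀ i, (h.coeff i).totalDegree ≤ D)
    (df : f.natDegree ≤ D) (dh : h.natDegree ≤ D) :
    (Polynomial.resultant f h).totalDegree ≤ 2 * D * D := by
  have h0 : (Polynomial.resultant f h).totalDegree ≤ (f.natDegree + h.natDegree) * D := by
    unfold Polynomial.resultant
    refine Elim_det _ D n _ fun i j => ?_
    unfold Polynomial.sylvester
    rw [Matrix.of_apply]
    refine Fin.addCases (fun j => ?_) (fun j => ?_) j
    · rw [Fin.addCases_left]
      split_ifs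
      · exact hh _
      · rw [MvPolynomial.totalDegree_zero]
        exact Nat.zero_le _
    · rw [Fin.addCases_right]
      split_ifs
      · exact hf _
      · rw [MvPolynomial.totalDegree_zero]
        exact Nat.zero_le _
  refine h0.trans (Nat.mul_le_mul_right D ?_)
  omega

private theorem Elim_ne (n : ℕ) (f h : Polynomial (MvPolynomial (Fin n) ℚ)) (hf : Irreducible f)
    (hfh : ¬ f ∣ h) (h0 : f.natDegree ≠ 0) : Polynomial.resultant f h ≠ 0 := by
  haveI : IsGCDMonoid (MvPolynomial (Fin n) ℚ) := by infer_instance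
  have hp : f.IsPrimitive := hf.isPrimitive h0
  have h1 := (hp.irreducible_iff_irreducible_map_fraction_map
    (K := FractionRing (MvPolynomial (Fin n) ℚ))).1 hf
  have h2 : ¬ f.map (algebraMap _ (FractionRing (MvPolynomial (Fin n) ℚ))) ∣
      h.map (algebraMap _ (FractionRing (MvPolynomial (Fin n) ℚ))) := fun h3 =>
    hfh (hp.dvd_of_fraction_map_dvd_fraction_map h3)
  have h3 : IsCoprime (f.map (algebraMap _ (FractionRing (MvPolynomial (Fin n) ℚ))))
      (h.map (algebraMap _ (FractionRing (MvPolynomial (Fin n) ℚ)))) :=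
    (Irreducible.coprime_iff_not_dvd h1).2 h2
  have hi := IsFractionRing.injective (MvPolynomial (Fin n) ℚ)
    (FractionRing (MvPolynomial (Fin n) ℚ))
  intro h4
  have h5 := Polynomial.resultant_map_map f h f.natDegree h.natDegree
    (algebraMap _ (FractionRing (MvPolynomial (Fin n) ℚ)))
  rw [h4, map_zero] at h5
  have h6 := (Polynomial.resultant_eq_zero_iff
    (f := f.map (algebraMap _ (FractionRing (MvPolynomial (Fin n) ℚ))))
    (g := h.map (algebraMap _ (FractionRing (MvPolynomial (Fin n) ℚ))))).1 (by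
      rw [Polynomial.natDegree_map_eq_of_injective hi, Polynomial.natDegree_map_eq_of_injective hi]
      exact h5)
  exact h6.2 h3

theorem elim (n D : ℕ) (g h : MvPolynomial (Fin (n + 1)) ℚ) (hg : Irreducible g) (hgh : ¬ g ∣ h)
    (h1 : g.totalDegree ≤ D) (h2 : h.totalDegree ≤ D) :
    ∃ R : MvPolynomial (Fin n) ℚ, R ≠ 0 ∧ R.totalDegree ≤ 2 * D * D + D ∧ ∀ y : Fin (n + 1) → ℚ,
      MvPolynomial.eval y g = 0 → MvPolynomial.eval y h = 0 →
      MvPolynomial.eval (fun i => y i.succ) R = 0 := by
  set f := MvPolynomial.finSuccEquiv ℚ n g with hf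
  set f' := MvPolynomial.finSuccEquiv ℚ n h with hf'
  have hirr : Irreducible f := (MulEquiv.irreducible_iff (MvPolynomial.finSuccEquiv ℚ n)).2 hg
  have hdvd : ¬ f ∣ f' := by
    intro hd
    apply hgh
    have := map_dvd (MvPolynomial.finSuccEquiv ℚ n).symm hd
    rwa [hf, hf', AlgEquiv.symm_apply_apply, AlgEquiv.symm_apply_apply] at this
  have c1 := Elim_coeff n D g h1
  have c2 := Elim_coeff n D h h2
  have d1 := Elim_natDegree n D g h1
  have d2 := Elim_natDegree n D h h2
  by_cases h0 : f.natDegree = 0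
  · have e := Polynomial.eq_C_of_natDegree_eq_zero h0
    refine ⟨f.coeff 0, ?_, ?_, ?_⟩
    · intro h3
      rw [h3, Polynomial.C_0] at e
      exact hirr.ne_zero e
    · exact (c1 0).trans (Nat.le_add_left _ _)
    · intro y hy _
      rw [Elim_eval, ← hf, e, Polynomial.map_C, Polynomial.eval_C] at hy
      exact hy
  · refine ⟨Polynomial.resultant f f', Elim_ne n f f' hirr hdvd h0, ?_, ?_⟩
    · exact (Elim_res n D f f' c1 c2 d1 d2).trans (Nat.le_add_right _ _)
    · intro y hy1 hy2
      obtain ⟨p, q, -, -, e⟩ := Polynomial.exists_mul_add_mul_eq_C_resultant f f' le_rfl le_rfl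
        (Or.inl h0)
      have e2 := congrArg (fun P => (P.map (MvPolynomial.eval fun i => y i.succ)).eval (y 0)) e
      simp only [Polynomial.map_add, Polynomial.map_mul, Polynomial.eval_add, Polynomial.eval_mul,
        Polynomial.map_C, Polynomial.eval_C] at e2
      rw [Elim_eval, ← hf] at hy1
      rw [Elim_eval, ← hf'] at hy2
      rw [hy1, hy2, zero_mul, zero_mul, add_zero] at e2
      exact e2.symm

end Pool.MP_a95293_nt.CG
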