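import Pool.Agent.Lib_MP_a95293_cg.Cong
import Pool.Agent.Lib_MP_a95293_ps.Gcp

/-!
# Piece CG-13 (FAMK): families from CONG

PROOF of `pairs`. `κ' = κ + 1`. `h₀` = the maximum of the `h₀` of `cong n κ' τ`, `n ≤ 2 s₀ + 2`; `C` similarly (times the number of
patterns). For `z ∈ S` choose the representations `z.1 = F * ∏ w_i ^ l_i`, `z.2 = F' * ∏ w'_i ^ l'_i`; the pattern is
`(s, s', l, l')` with `s, s' ≤ s₀`, `l, l' ≤ E`: at most `(s₀ + 1) ^ 2 * (E + 1) ^ (2 s₀)` patterns (encode `l` as a function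
`Fin s₀ → Fin (E + 1)` extended by `0`). For a fixed pattern map `z` to the tuple `(F, w, F', w')` indexed by
`Fin ((s + 1) + (s' + 1))` (`Fin.append (Fin.cons F w) (Fin.cons F' w')`), exponents `(1, l, -1, -l')`: `Rel q m` of two tuples
is exactly `z.1 * z'.2 ≡ z'.1 * z.2` (`Fin.prod_univ_add`, `Fin.prod_univ_succ`), the coordinates are pairwise coprime
(`z.1.Coprime z.2`), prime to `q`, and the tuple determines `z`.
PROOF of `famK_aux`: `PS.gcp` with `f₁ = q`, `f₂ = d`, `f₃ = 1` and the weight `w = C₀ X ^ (ε / 2)`, `C₀` from `pairs` with `τ = ε / 2`: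
the fibre over `(q, d)` is mapped injectively by `z ↦ (u z, v z)` to a set as in `pairs`. `h₀` from `pairs`.
-/

set_option autoImplicit false

namespace Pool.MP_a95293_nt.CG

open Finset
open Pool.MP_a95293_nt.RC (rd Prm pr3)

/-- padding with powers of one -/
private theorem FamK_pad {X κ E s₀ t : ℕ} (hX : 1 ≤ X) (h : Cc X κ E s₀ t) :
    ∃ (F : ℕ) (w l : Fin s₀ → ℕ), (1 ≤ F ∧ F ≤ X ^ κ) ∧
      (∀ i, (1 ≤ w i ∧ w i ≤ X) ∧ (1 ≤ l i ∧ l i ≤ E + 1) ∧ (w i).Coprime F) ∧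
      (∀ i j, i ≠ j → (w i).Coprime (w j)) ∧ t = F * ∏ i, w i ^ l i := by
  obtain ⟨s, F, w, l, hs, hF, h1, h2, h3⟩ := h
  obtain ⟨r, rfl⟩ := Nat.exists_eq_add_of_le hs
  refine ⟨F, Fin.append w (fun _ => 1), Fin.append l (fun _ => 1), hF, ?_, ?_, ?_⟩
  · intro i
    refine Fin.addCases (fun i => ?_) (fun i => ?_) i
    · rw [Fin.append_left, Fin.append_left]
      obtain ⟨h4, h5, h6⟩ := h1 i
      exact ⟨h4, ⟨h5.1, h5.2.trans (Nat.le_succ E)⟩, h6⟩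
    · rw [Fin.append_right, Fin.append_right]
      exact ⟨⟨le_refl 1, hX⟩, ⟨le_refl 1, by omega⟩, Nat.coprime_one_left F⟩
  · intro i j
    refine Fin.addCases (fun i => ?_) (fun i => ?_) i
    · refine Fin.addCases (fun j => ?_) (fun j => ?_) j
      · intro hij
        rw [Fin.append_left, Fin.append_left]
        exact h2 i j fun e => hij (by rw [e])
      · intro _
        rw [Fin.append_left, Fin.append_right]
        exact Nat.coprime_one_right _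
    · intro _
      rw [Fin.append_right]
      exact Nat.coprime_one_left _
  · rw [h3, Fin.prod_univ_add]
    congr 1
    simp only [Fin.append_left, Fin.append_right, one_pow, Finset.prod_const_one, mul_one]

/-- the tuple `(F, w, F', w')` -/
private def FamK_T {s₀ : ℕ} (F : ℕ) (w : Fin s₀ → ℕ) (F' : ℕ) (w' : Fin s₀ → ℕ) :
    Fin ((s₀ + 1) + (s₀ + 1)) → ℕ :=
  Fin.append (Fin.cons F w : Fin (s₀ + 1) → ℕ) (Fin.cons F' w' : Fin (s₀ + 1) → ℕ)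

/-- the exponents `(1, l, -1, -l')` -/
private def FamK_m {s₀ : ℕ} (l l' : Fin s₀ → ℕ) : Fin ((s₀ + 1) + (s₀ + 1)) → ℤ :=
  Fin.append (Fin.cons 1 (fun i => (l i : ℤ)) : Fin (s₀ + 1) → ℤ)
    (Fin.cons (-1) (fun i => -(l' i : ℤ)) : Fin (s₀ + 1) → ℤ)

private theorem FamK_pos {s₀ : ℕ} (F : ℕ) (w : Fin s₀ → ℕ) (F' : ℕ) (w' : Fin s₀ → ℕ)
    (l l' : Fin s₀ → ℕ) : ∏ i, FamK_T F w F' w' i ^ (FamK_m l l' i).toNat = F * ∏ i, w i ^ l i := by
  unfold FamK_T FamK_m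
  rw [Fin.prod_univ_add]
  simp only [Fin.append_left, Fin.append_right, Fin.prod_univ_succ, Fin.cons_zero, Fin.cons_succ]
  have h1 : (1 : ℤ).toNat = 1 := rfl
  have h2 : (-1 : ℤ).toNat = 0 := rfl
  have h3 : ∀ n : ℕ, (-(n : ℤ)).toNat = 0 := fun n => by simp
  simp only [h1, h2, h3, Int.toNat_natCast, pow_one, pow_zero, Finset.prod_const_one, mul_one]

private theorem FamK_neg {s₀ : ℕ} (F : ℕ) (w : Fin s₀ → ℕ) (F' : ℕ) (w' : Fin s₀ → ℕ)
    (l l' : Fin s₀ → ℕ) :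
    ∏ i, FamK_T F w F' w' i ^ (-FamK_m l l' i).toNat = F' * ∏ i, w' i ^ l' i := by
  unfold FamK_T FamK_m
  rw [Fin.prod_univ_add]
  simp only [Fin.append_left, Fin.append_right, Fin.prod_univ_succ, Fin.cons_zero, Fin.cons_succ]
  have h1 : (1 : ℤ).toNat = 1 := rfl
  have h2 : (-1 : ℤ).toNat = 0 := rfl
  have h3 : ∀ n : ℕ, (-(n : ℤ)).toNat = 0 := fun n => by simp
  simp only [neg_neg, h1, h2, h3, Int.toNat_natCast, pow_one, pow_zero, Finset.prod_const_one,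
    one_mul]

private theorem FamK_mem {s₀ : ℕ} {P : ℕ → Prop} {F : ℕ} {w : Fin s₀ → ℕ} {F' : ℕ}
    {w' : Fin s₀ → ℕ} (h1 : P F) (h2 : ∀ i, P (w i)) (h3 : P F') (h4 : ∀ i, P (w' i)) (i) :
    P (FamK_T F w F' w' i) := by
  unfold FamK_T
  refine Fin.addCases (fun i => ?_) (fun i => ?_) i
  · rw [Fin.append_left]
    refine Fin.cases ?_ (fun i => ?_) i
    · rw [Fin.cons_zero]
      exact h1
    · rw [Fin.cons_succ]
      exact h2 i
  · rw [Fin.append_right]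
    refine Fin.cases ?_ (fun i => ?_) i
    · rw [Fin.cons_zero]
      exact h3
    · rw [Fin.cons_succ]
      exact h4 i

private theorem FamK_cons {s₀ : ℕ} {F : ℕ} {w : Fin s₀ → ℕ} (h1 : ∀ i, (w i).Coprime F)
    (h2 : ∀ i j, i ≠ j → (w i).Coprime (w j)) (i j : Fin (s₀ + 1)) (hij : i ≠ j) :
    ((Fin.cons F w : Fin (s₀ + 1) → ℕ) i).Coprime ((Fin.cons F w : Fin (s₀ + 1) → ℕ) j) := by
  revert hij
  refine Fin.cases ?_ (fun i => ?_) i
  · refine Fin.cases ?_ (fun j => ?_) j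
    · intro h
      exact absurd rfl h
    · intro _
      rw [Fin.cons_zero, Fin.cons_succ]
      exact (h1 j).symm
  · refine Fin.cases ?_ (fun j => ?_) j
    · intro _
      rw [Fin.cons_zero, Fin.cons_succ]
      exact h1 i
    · intro hij
      rw [Fin.cons_succ, Fin.cons_succ]
      exact h2 i j fun e => hij (by rw [e])

private theorem FamK_cop {s₀ : ℕ} {a b F : ℕ} {w : Fin s₀ → ℕ} {F' : ℕ}
    {w' : Fin s₀ → ℕ} (hab : a.Coprime b) (h1 : F ∣ a) (h2 : ∀ i, w i ∣ a) (h3 : F' ∣ b)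
    (h4 : ∀ i, w' i ∣ b) (h5 : ∀ i, (w i).Coprime F) (h6 : ∀ i j, i ≠ j → (w i).Coprime (w j))
    (h7 : ∀ i, (w' i).Coprime F') (h8 : ∀ i j, i ≠ j → (w' i).Coprime (w' j)) (i j)
    (hij : i ≠ j) : (FamK_T F w F' w' i).Coprime (FamK_T F w F' w' j) := by
  have h9 : ∀ i, (Fin.cons F w : Fin (s₀ + 1) → ℕ) i ∣ a := by
    intro i
    refine Fin.cases ?_ (fun i => ?_) i
    · rw [Fin.cons_zero]
      exact h1
    · rw [Fin.cons_succ]
      exact h2 i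
  have h10 : ∀ i, (Fin.cons F' w' : Fin (s₀ + 1) → ℕ) i ∣ b := by
    intro i
    refine Fin.cases ?_ (fun i => ?_) i
    · rw [Fin.cons_zero]
      exact h3
    · rw [Fin.cons_succ]
      exact h4 i
  unfold FamK_T
  revert hij
  refine Fin.addCases (fun i => ?_) (fun i => ?_) i
  · refine Fin.addCases (fun j => ?_) (fun j => ?_) j
    · intro hij
      rw [Fin.append_left, Fin.append_left]
      exact FamK_cons h5 h6 i j fun e => hij (by rw [e])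
    · intro _
      rw [Fin.append_left, Fin.append_right]
      exact Nat.Coprime.of_dvd (h9 i) (h10 j) hab
  · refine Fin.addCases (fun j => ?_) (fun j => ?_) j
    · intro _
      rw [Fin.append_left, Fin.append_right]
      exact Nat.Coprime.of_dvd (h10 i) (h9 j) hab.symm
    · intro hij
      rw [Fin.append_right, Fin.append_right]
      exact FamK_cons h7 h8 i j fun e => hij (by rw [e])

private theorem FamK_inj {s₀ : ℕ} {F₁ F₂ F₁' F₂' : ℕ} {w₁ w₂ w₁' w₂' : Fin s₀ → ℕ}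
    (h : FamK_T F₁ w₁ F₁' w₁' = FamK_T F₂ w₂ F₂' w₂') :
    F₁ = F₂ ∧ w₁ = w₂ ∧ F₁' = F₂' ∧ w₁' = w₂' := by
  have h1 : ∀ i, (Fin.cons F₁ w₁ : Fin (s₀ + 1) → ℕ) i = (Fin.cons F₂ w₂ : Fin (s₀ + 1) → ℕ) i := by
    intro i
    have := congrFun h (Fin.castAdd (s₀ + 1) i)
    unfold FamK_T at this
    rwa [Fin.append_left, Fin.append_left] at this
  have h2 : ∀ i, (Fin.cons F₁' w₁' : Fin (s₀ + 1) → ℕ) i =
      (Fin.cons F₂' w₂' : Fin (s₀ + 1) → ℕ) i := by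
    intro i
    have := congrFun h (Fin.natAdd (s₀ + 1) i)
    unfold FamK_T at this
    rwa [Fin.append_right, Fin.append_right] at this
  refine ⟨?_, funext fun i => ?_, ?_, funext fun i => ?_⟩
  · have := h1 0
    rwa [Fin.cons_zero, Fin.cons_zero] at this
  · have := h1 i.succ
    rwa [Fin.cons_succ, Fin.cons_succ] at this
  · have := h2 0
    rwa [Fin.cons_zero, Fin.cons_zero] at this
  · have := h2 i.succ
    rwa [Fin.cons_succ, Fin.cons_succ] at this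

private theorem FamK_m_ok {s₀ E : ℕ} {l l' : Fin s₀ → ℕ} (h1 : ∀ i, 1 ≤ l i ∧ l i ≤ E + 1)
    (h2 : ∀ i, 1 ≤ l' i ∧ l' i ≤ E + 1) (i) :
    FamK_m l l' i ≠ 0 ∧ |FamK_m l l' i| ≤ ((E + 1 : ℕ) : ℤ) := by
  have hE : (1 : ℤ) ≤ ((E + 1 : ℕ) : ℤ) := by push_cast; omega
  unfold FamK_m
  refine Fin.addCases (fun i => ?_) (fun i => ?_) i
  · rw [Fin.append_left]
    refine Fin.cases ?_ (fun i => ?_) i
    · rw [Fin.cons_zero]
      exact ⟨one_ne_zero, by rwa [abs_one]⟩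
    · rw [Fin.cons_succ]
      have h3 := h1 i
      refine ⟨by omega, ?_⟩
      rw [abs_of_nonneg (by omega)]
      exact_mod_cast h3.2
  · rw [Fin.append_right]
    refine Fin.cases ?_ (fun i => ?_) i
    · rw [Fin.cons_zero]
      exact ⟨by norm_num, by rwa [abs_neg, abs_one]⟩
    · rw [Fin.cons_succ]
      have h3 := h2 i
      refine ⟨by omega, ?_⟩
      rw [abs_neg, abs_of_nonneg (by omega)]
      exact_mod_cast h3.2

theorem pairs (s₀ κ : ℕ) (τ : ℝ) (hτ : 0 < τ) : ∃ h₀ : ℕ, ∀ E : ℕ, ∃ C : ℝ, 1 ≤ C ∧ ∀ X q : ℕ, 1 ≤ X →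
    X ^ h₀ ≤ q → rd q ≤ X → ∀ S : Finset (ℕ × ℕ), (∀ z ∈ S, z.1.Coprime z.2 ∧ z.1.Coprime q ∧
      z.2.Coprime q ∧ Cc X κ E s₀ z.1 ∧ Cc X κ E s₀ z.2) →
    (∀ z ∈ S, ∀ z' ∈ S, z.1 * z'.2 ≡ z'.1 * z.2 [MOD q]) → (S.card : ℝ) ≤ C * (X : ℝ) ^ τ := by
  classical
  obtain ⟨h₀, hc⟩ := cong ((s₀ + 1) + (s₀ + 1)) (κ + 1) τ hτ
  refine ⟨h₀, fun E => ?_⟩
  obtain ⟨C, hC, hcE⟩ := hc (E + 1)
  refine ⟨(((E + 2) ^ s₀ * (E + 2) ^ s₀ : ℕ) : ℝ) * C, ?_, ?_⟩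
  · have h1 : (1 : ℝ) ≤ (((E + 2) ^ s₀ * (E + 2) ^ s₀ : ℕ) : ℝ) := by
      exact_mod_cast Nat.mul_pos (by positivity) (by positivity)
    exact one_le_mul_of_one_le_of_one_le h1 hC
  intro X q hX hq hrd S hS hrel
  have hX0 : (0 : ℝ) ≤ X := Nat.cast_nonneg X
  have key : ∀ z : ℕ × ℕ, ∃ (F F' : ℕ) (w w' l l' : Fin s₀ → ℕ), z ∈ S →
      ((1 ≤ F ∧ F ≤ X ^ κ) ∧
        (∀ i, (1 ≤ w i ∧ w i ≤ X) ∧ (1 ≤ l i ∧ l i ≤ E + 1) ∧ (w i).Coprime F) ∧
        (∀ i j, i ≠ j → (w i).Coprime (w j)) ∧ z.1 = F * ∏ i, w i ^ l i) ∧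
      ((1 ≤ F' ∧ F' ≤ X ^ κ) ∧
        (∀ i, (1 ≤ w' i ∧ w' i ≤ X) ∧ (1 ≤ l' i ∧ l' i ≤ E + 1) ∧ (w' i).Coprime F') ∧
        (∀ i j, i ≠ j → (w' i).Coprime (w' j)) ∧ z.2 = F' * ∏ i, w' i ^ l' i) := by
    intro z
    by_cases hz : z ∈ S
    · obtain ⟨F, w, l, h1⟩ := FamK_pad hX (hS z hz).2.2.2.1
      obtain ⟨F', w', l', h2⟩ := FamK_pad hX (hS z hz).2.2.2.2
      exact ⟨F, F', w, w', l, l', fun _ => ⟨h1, h2⟩⟩
    · exact ⟨0, 0, fun _ => 0, fun _ => 0, fun _ => 0, fun _ => 0, fun h => absurd h hz⟩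
  choose F F' w w' l l' h using key
  set P : Finset ((Fin s₀ → ℕ) × (Fin s₀ → ℕ)) :=
    (Fintype.piFinset fun _ => range (E + 2)) ×ˢ (Fintype.piFinset fun _ => range (E + 2)) with hP
  have hPcard : P.card = (E + 2) ^ s₀ * (E + 2) ^ s₀ := by
    rw [hP, card_product, Fintype.card_piFinset]
    simp only [card_range, prod_const, card_univ, Fintype.card_fin]
  have hfib : S.card = ∑ p ∈ P, (S.filter fun z => (l z, l' z) = p).card := by
    apply card_eq_sum_card_fiberwise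
    intro z hz
    obtain ⟨h1, h2⟩ := h z hz
    rw [mem_coe, hP, mem_product, Fintype.mem_piFinset, Fintype.mem_piFinset]
    exact ⟨fun i => mem_range.2 (Nat.lt_succ_of_le (h1.2.1 i).2.1.2),
      fun i => mem_range.2 (Nat.lt_succ_of_le (h2.2.1 i).2.1.2)⟩
  have hdw : ∀ z ∈ S, F z ∣ z.1 ∧ (∀ i, w z i ∣ z.1) ∧ F' z ∣ z.2 ∧ (∀ i, w' z i ∣ z.2) := by
    intro z hz
    obtain ⟨⟨-, h1, -, h2⟩, ⟨-, h3, -, h4⟩⟩ := h z hz
    refine ⟨?_, fun i => ?_, ?_, fun i => ?_⟩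
    · rw [h2]
      exact dvd_mul_right _ _
    · rw [h2]
      exact ((dvd_pow_self (w z i) (by have := (h1 i).2.1.1; omega)).trans
        (dvd_prod_of_mem (fun i => w z i ^ l z i) (mem_univ i))).mul_left _
    · rw [h4]
      exact dvd_mul_right _ _
    · rw [h4]
      exact ((dvd_pow_self (w' z i) (by have := (h3 i).2.1.1; omega)).trans
        (dvd_prod_of_mem (fun i => w' z i ^ l' z i) (mem_univ i))).mul_left _
  have hb : ∀ p ∈ P, ((S.filter fun z => (l z, l' z) = p).card : ℝ) ≤ C * (X : ℝ) ^ τ := by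
    intro p _
    rcases (S.filter fun z => (l z, l' z) = p).eq_empty_or_nonempty with h0 | ⟨z₀, hz₀⟩
    · rw [h0]
      simp only [card_empty, Nat.cast_zero]
      have := Real.rpow_nonneg hX0 τ
      have hC0 : (0 : ℝ) ≤ C := by linarith
      exact mul_nonneg hC0 this
    · have hmem : ∀ z ∈ S.filter fun z => (l z, l' z) = p, z ∈ S ∧ l z = p.1 ∧ l' z = p.2 := by
        intro z hz
        rw [mem_filter] at hz
        exact ⟨hz.1, congrArg Prod.fst hz.2, congrArg Prod.snd hz.2⟩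
      have hinj : Set.InjOn (fun z => FamK_T (F z) (w z) (F' z) (w' z))
          (S.filter fun z => (l z, l' z) = p) := by
        intro z hz z' hz' he
        obtain ⟨h1, h2, h3⟩ := hmem z hz
        obtain ⟨h1', h2', h3'⟩ := hmem z' hz'
        obtain ⟨e1, e2, e3, e4⟩ := FamK_inj he
        obtain ⟨⟨-, -, -, g1⟩, ⟨-, -, -, g2⟩⟩ := h z h1
        obtain ⟨⟨-, -, -, g1'⟩, ⟨-, -, -, g2'⟩⟩ := h z' h1'
        refine Prod.ext ?_ ?_
        · rw [g1, g1', e1, e2, h2, h2']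
        · rw [g2, g2', e3, e4, h3, h3']
      rw [← card_image_of_injOn hinj]
      obtain ⟨g1, g2, g3⟩ := hmem z₀ hz₀
      refine hcE X q hX hq hrd (FamK_m p.1 p.2) ?_ _ ?_ ?_
      · rw [← g2, ← g3]
        obtain ⟨⟨-, h1, -, -⟩, ⟨-, h3, -, -⟩⟩ := h z₀ g1
        exact fun i => FamK_m_ok (fun i => (h1 i).2.1) (fun i => (h3 i).2.1) i
      · intro y hy
        obtain ⟨z, hz, rfl⟩ := mem_image.1 hy
        obtain ⟨hzS, -, -⟩ := hmem z hz
        obtain ⟨c1, c2, c3, -, -⟩ := hS z hzS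
        obtain ⟨d1, d2, d3, d4⟩ := hdw z hzS
        obtain ⟨⟨f1, f2, f3, -⟩, ⟨f5, f6, f7, -⟩⟩ := h z hzS
        have hXk : X ^ κ ≤ X ^ (κ + 1) := Nat.pow_le_pow_right hX (Nat.le_succ κ)
        have hXk' : X ≤ X ^ (κ + 1) := by
          calc X = X ^ 1 := (pow_one X).symm
            _ ≤ X ^ (κ + 1) := Nat.pow_le_pow_right hX (by omega)
        refine ⟨fun i => FamK_mem (P := fun t => (1 ≤ t ∧ t ≤ X ^ (κ + 1)) ∧ t.Coprime q)
          ⟨⟨f1.1, f1.2.trans hXk⟩, Nat.Coprime.of_dvd_left d1 c2⟩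
          (fun i => ⟨⟨(f2 i).1.1, (f2 i).1.2.trans hXk'⟩, Nat.Coprime.of_dvd_left (d2 i) c2⟩)
          ⟨⟨f5.1, f5.2.trans hXk⟩, Nat.Coprime.of_dvd_left d3 c3⟩
          (fun i => ⟨⟨(f6 i).1.1, (f6 i).1.2.trans hXk'⟩, Nat.Coprime.of_dvd_left (d4 i) c3⟩) i,
          fun i j hij => FamK_cop c1 d1 d2 d3 d4 (fun i => (f2 i).2.2) f3 (fun i => (f6 i).2.2) f7
            i j hij⟩
      · intro y hy y' hy'
        obtain ⟨z, hz, rfl⟩ := mem_image.1 hy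
        obtain ⟨z', hz', rfl⟩ := mem_image.1 hy'
        obtain ⟨h1, h2, h3⟩ := hmem z hz
        obtain ⟨h1', h2', h3'⟩ := hmem z' hz'
        obtain ⟨⟨-, -, -, g1⟩, ⟨-, -, -, g2⟩⟩ := h z h1
        obtain ⟨⟨-, -, -, g1'⟩, ⟨-, -, -, g2'⟩⟩ := h z' h1'
        unfold Rel
        rw [FamK_pos, FamK_neg, FamK_pos, FamK_neg]
        rw [h2] at g1
        rw [h3] at g2
        rw [h2'] at g1'
        rw [h3'] at g2'
        rw [← g1, ← g2, ← g1', ← g2']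
        exact hrel z h1 z' h1'
  calc (S.card : ℝ) = ∑ p ∈ P, ((S.filter fun z => (l z, l' z) = p).card : ℝ) := by
        rw [hfib]
        push_cast
        rfl
    _ ≤ ∑ p ∈ P, C * (X : ℝ) ^ τ := sum_le_sum hb
    _ = (((E + 2) ^ s₀ * (E + 2) ^ s₀ : ℕ) : ℝ) * C * (X : ℝ) ^ τ := by
        rw [sum_const, nsmul_eq_mul, hPcard, mul_assoc]

theorem famK_aux (s₀ κ : ℕ) (ε : ℝ) (hε : 0 < ε) : ∃ h₀ : ℕ, ∀ A E : ℕ, ∃ C : ℝ, 1 ≤ C ∧
    ∀ (X : ℕ) (Y : ℝ), 1 ≤ X → 0 ≤ Y → ∀ (S : Finset (ℕ × ℕ)) (q d u v : ℕ × ℕ → ℕ),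
    (∀ z ∈ S, (X ^ h₀ ≤ q z ∧ q z ≤ X ^ A) ∧ (1 ≤ d z ∧ d z ≤ X ^ A) ∧ rd (q z) ≤ X ∧
      (u z).Coprime (v z) ∧ (u z).Coprime (q z) ∧ (v z).Coprime (q z) ∧ Cc X κ E s₀ (u z) ∧
      Cc X κ E s₀ (v z) ∧ (rd (q z) : ℝ) * rd (d z) ≤ Y) →
    (∀ z ∈ S, ∀ z' ∈ S, q z = q z' → d z = d z' → u z * v z' ≡ u z' * v z [MOD q z]) →
    (∀ z ∈ S, ∀ z' ∈ S, q z = q z' → d z = d z' → u z = u z' → v z = v z' → z = z') →
    (S.card : ℝ) ≤ C * (X : ℝ) ^ ε * Y := by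
  classical
  obtain ⟨h₀, hp⟩ := pairs s₀ κ (ε / 2) (by positivity)
  refine ⟨h₀, fun A E => ?_⟩
  obtain ⟨C, hC, hpE⟩ := hp E
  obtain ⟨Cg, hCg, hg⟩ := PS.gcp A (ε / 2) (by positivity)
  refine ⟨Cg * C, one_le_mul_of_one_le_of_one_le hCg hC, ?_⟩
  intro X Y hX hY S q d u v hS hrel hinj
  have hX1 : (1 : ℝ) ≤ X := by exact_mod_cast hX
  have hX0 : (0 : ℝ) < X := by linarith
  have hXe2 : (X : ℝ) ^ (ε / 2) * (X : ℝ) ^ (ε / 2) = (X : ℝ) ^ ε := by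
    rw [← Real.rpow_add hX0]
    congr 1
    ring
  have hC0 : (0 : ℝ) ≤ C := by linarith
  set w : ℝ := C * (X : ℝ) ^ (ε / 2) with hw
  have hw0 : 0 ≤ w := by positivity
  have main := hg X (w * Y) hX (by positivity) S q d (fun _ => 1) (fun _ => w)
    (fun s hs => ⟨(Nat.one_le_pow _ _ hX).trans (hS s hs).1.1, (hS s hs).1.2⟩)
    (fun s hs => (hS s hs).2.1) (fun s hs => ⟨le_refl 1, Nat.one_le_pow _ _ hX⟩) ?_ ?_
  · refine main.trans (le_of_eq ?_)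
    rw [hw, ← hXe2]
    ring
  · intro s hs
    refine ⟨s, hs, rfl, rfl, rfl, ?_⟩
    have hmem : ∀ t ∈ S.filter (fun t => q t = q s ∧ d t = d s ∧ (1 : ℕ) = 1),
        t ∈ S ∧ q t = q s ∧ d t = d s := by
      intro t ht
      rw [mem_filter] at ht
      exact ⟨ht.1, ht.2.1, ht.2.2.1⟩
    have hi : Set.InjOn (fun t => (u t, v t))
        (S.filter (fun t => q t = q s ∧ d t = d s ∧ (1 : ℕ) = 1)) := by
      intro t ht t' ht' he
      obtain ⟨h1, h2, h3⟩ := hmem t ht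
      obtain ⟨h1', h2', h3'⟩ := hmem t' ht'
      exact hinj t h1 t' h1' (h2.trans h2'.symm) (h3.trans h3'.symm) (congrArg Prod.fst he)
        (congrArg Prod.snd he)
    rw [← card_image_of_injOn hi]
    refine hpE X (q s) hX (hS s hs).1.1 (hS s hs).2.2.1 _ ?_ ?_
    · intro y hy
      obtain ⟨t, ht, rfl⟩ := mem_image.1 hy
      obtain ⟨h1, h2, h3⟩ := hmem t ht
      obtain ⟨-, -, -, g1, g2, g3, g4, g5, -⟩ := hS t h1
      rw [h2] at g2 g3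
      exact ⟨g1, g2, g3, g4, g5⟩
    · intro y hy y' hy'
      obtain ⟨t, ht, rfl⟩ := mem_image.1 hy
      obtain ⟨t', ht', rfl⟩ := mem_image.1 hy'
      obtain ⟨h1, h2, h3⟩ := hmem t ht
      obtain ⟨h1', h2', h3'⟩ := hmem t' ht'
      have := hrel t h1 t' h1' (h2.trans h2'.symm) (h3.trans h3'.symm)
      rwa [h2] at this
  · intro s hs
    have h1 : (rd 1 : ℝ) = 1 := by simp [rd]
    show (rd (q s) : ℝ) * rd (d s) * rd 1 * w ≤ w * Y
    rw [h1, mul_one, mul_comm w Y]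
    exact mul_le_mul_of_nonneg_right (hS s hs).2.2.2.2.2.2.2.2 hw0

end Pool.MP_a95293_nt.CG
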