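import Pool.Agent.Lib_MP_a95293_cg.FamK
import Pool.Agent.Lib_MP_a95293_ps.FamC

/-!
# Piece CG-14 (FAMS): the families E, K1, K2 for arbitrary sides

PROOF of `famE`: split `S` by `i : Fin 3`; `i = 0` (`q ∣ z.1`): `PS.fam1b`; `i = 1`: `PS.fam1'`; `i = 2`: `PS.fam1`. `C` is three times
the maximum (the sum) of the three constants (a larger constant in the hypothesis is allowed:
`C₁ * x ≤ C * x ≤ q`).
PROOF of `famK`: split `S` by the roles `(i, j, k)`, all different (at most `6` of them) and by K1/K2. K2: `famK_aux` with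
`d = 1`, `u = sd z j`, `v = sd z k`; if `q ∣ sd z i`, `q ∣ sd z' i` then `sd z j * sd z' k ≡ sd z' j * sd z k` modulo `q`
(`sd z 0 + sd z 1 = sd z 2`; check the three values of `i`). K1: `d = sd z j`, `u = sd z k`, `v = 1` (`Cc X κ E s₀ 1` with `s = 0`,
`F = 1`): `q ∣ sd z i`, `q ∣ sd z' i`, `sd z j = sd z' j` imply `sd z k ≡ sd z' k` modulo `q`. Two different sides determine `z`.
`q` is prime to the sides `j`, `k` because the three sides are pairwise coprime (`Prm`). `rd q ≤ X` because `q ∣ sd z i`,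
`rd (sd z i) ≤ rd (pr3 z) ≤ X`.
-/

set_option autoImplicit false

namespace Pool.MP_a95293_nt.CG

open Finset
open Pool.MP_a95293_nt.RC (rd Prm pr3)

private theorem FamS_sd0 (z : ℕ × ℕ) : sd z 0 = z.1 := rfl

private theorem FamS_sd1 (z : ℕ × ℕ) : sd z 1 = z.2 := rfl

private theorem FamS_sd2 (z : ℕ × ℕ) : sd z 2 = z.1 + z.2 := rfl

/-- the six orders -/
private theorem FamS_six {i j k : Fin 3} (h1 : i ≠ j) (h2 : j ≠ k) (h3 : i ≠ k) :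
    (i = 0 ∧ j = 1 ∧ k = 2) ∨ (i = 0 ∧ j = 2 ∧ k = 1) ∨ (i = 1 ∧ j = 0 ∧ k = 2) ∨
      (i = 1 ∧ j = 2 ∧ k = 0) ∨ (i = 2 ∧ j = 0 ∧ k = 1) ∨ (i = 2 ∧ j = 1 ∧ k = 0) := by
  revert i j k
  decide

theorem famE (A : ℕ) (ε : ℝ) (hε : 0 < ε) : ∃ C : ℝ, 1 ≤ C ∧ ∀ (X : ℕ) (Y : ℝ), 1 ≤ X → 0 ≤ Y →
    ∀ S : Finset (ℕ × ℕ), (∀ z ∈ S, Prm z ∧ rd (pr3 z) ≤ X ∧ z.1 + z.2 ≤ X ^ A ∧
      ∃ i j k : Fin 3, i ≠ j ∧ j ≠ k ∧ i ≠ k ∧ ∃ q : ℕ, 1 ≤ q ∧ q ∣ sd z i ∧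
        C * (rd (sd z j) : ℝ) ^ 2 ≤ q ∧ C * (rd (sd z k) : ℝ) ^ 2 ≤ q ∧
        (rd q : ℝ) * Real.sqrt ((rd (sd z j) : ℝ) * rd (sd z k)) ≤ Y) →
    (S.card : ℝ) ≤ C * (X : ℝ) ^ ε * Y := by
  classical
  obtain ⟨C₀, hC₀, h₀⟩ := PS.fam1b A ε hε
  obtain ⟨C₁, hC₁, h₁⟩ := PS.fam1' A ε hε
  obtain ⟨C₂, hC₂, h₂⟩ := PS.fam1 A ε hε
  refine ⟨C₀ + C₁ + C₂, by linarith, ?_⟩
  intro X Y hX hY S hS
  set C := C₀ + C₁ + C₂ with hC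
  have g0 : ∀ x q : ℝ, C * x ^ 2 ≤ q → C₀ * x ^ 2 ≤ q := fun x q h =>
    (mul_le_mul_of_nonneg_right (by linarith) (sq_nonneg x)).trans h
  have g1 : ∀ x q : ℝ, C * x ^ 2 ≤ q → C₁ * x ^ 2 ≤ q := fun x q h =>
    (mul_le_mul_of_nonneg_right (by linarith) (sq_nonneg x)).trans h
  have g2 : ∀ x q : ℝ, C * x ^ 2 ≤ q → C₂ * x ^ 2 ≤ q := fun x q h =>
    (mul_le_mul_of_nonneg_right (by linarith) (sq_nonneg x)).trans h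
  set P₀ : ℕ × ℕ → Prop := fun z => ∃ q : ℕ, 1 ≤ q ∧ q ∣ z.1 ∧ C₀ * (rd z.2 : ℝ) ^ 2 ≤ q ∧
    C₀ * (rd (z.1 + z.2) : ℝ) ^ 2 ≤ q ∧ (rd q : ℝ) * Real.sqrt ((rd z.2 : ℝ) * rd (z.1 + z.2)) ≤ Y
    with hP₀
  set P₁ : ℕ × ℕ → Prop := fun z => ∃ q : ℕ, 1 ≤ q ∧ q ∣ z.2 ∧ C₁ * (rd z.1 : ℝ) ^ 2 ≤ q ∧
    C₁ * (rd (z.1 + z.2) : ℝ) ^ 2 ≤ q ∧ (rd q : ℝ) * Real.sqrt ((rd z.1 : ℝ) * rd (z.1 + z.2)) ≤ Y
    with hP₁
  set P₂ : ℕ × ℕ → Prop := fun z => ∃ q : ℕ, 1 ≤ q ∧ q ∣ z.1 + z.2 ∧ C₂ * (rd z.1 : ℝ) ^ 2 ≤ q ∧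
    C₂ * (rd z.2 : ℝ) ^ 2 ≤ q ∧ (rd q : ℝ) * Real.sqrt ((rd z.1 : ℝ) * rd z.2) ≤ Y
    with hP₂
  have hcov : ∀ z ∈ S, P₀ z ∨ P₁ z ∨ P₂ z := by
    intro z hz
    obtain ⟨-, -, -, i, j, k, e1, e2, e3, q, q1, q2, q3, q4, q5⟩ := hS z hz
    rcases FamS_six e1 e2 e3 with ⟨rfl, rfl, rfl⟩ | ⟨rfl, rfl, rfl⟩ | ⟨rfl, rfl, rfl⟩ |
      ⟨rfl, rfl, rfl⟩ | ⟨rfl, rfl, rfl⟩ | ⟨rfl, rfl, rfl⟩
    · exact Or.inl ⟨q, q1, q2, g0 _ _ q3, g0 _ _ q4, q5⟩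
    · rw [mul_comm (rd (sd z 2) : ℝ)] at q5
      exact Or.inl ⟨q, q1, q2, g0 _ _ q4, g0 _ _ q3, q5⟩
    · exact Or.inr (Or.inl ⟨q, q1, q2, g1 _ _ q3, g1 _ _ q4, q5⟩)
    · rw [mul_comm (rd (sd z 2) : ℝ)] at q5
      exact Or.inr (Or.inl ⟨q, q1, q2, g1 _ _ q4, g1 _ _ q3, q5⟩)
    · exact Or.inr (Or.inr ⟨q, q1, q2, g2 _ _ q3, g2 _ _ q4, q5⟩)
    · rw [mul_comm (rd (sd z 1) : ℝ)] at q5
      exact Or.inr (Or.inr ⟨q, q1, q2, g2 _ _ q4, g2 _ _ q3, q5⟩)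
  have b0 := h₀ X Y hX hY (S.filter P₀) fun z hz => by
    obtain ⟨hz1, hz2⟩ := mem_filter.1 hz
    obtain ⟨p1, p2, p3, -⟩ := hS z hz1
    exact ⟨p1, p2, p3, hz2⟩
  have b1 := h₁ X Y hX hY (S.filter P₁) fun z hz => by
    obtain ⟨hz1, hz2⟩ := mem_filter.1 hz
    obtain ⟨p1, p2, p3, -⟩ := hS z hz1
    exact ⟨p1, p2, p3, hz2⟩
  have b2 := h₂ X Y hX hY (S.filter P₂) fun z hz => by
    obtain ⟨hz1, hz2⟩ := mem_filter.1 hz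
    obtain ⟨p1, p2, p3, -⟩ := hS z hz1
    exact ⟨p1, p2, p3, hz2⟩
  have hsub : S ⊆ S.filter P₀ ∪ (S.filter P₁ ∪ S.filter P₂) := by
    intro z hz
    rw [mem_union, mem_union, mem_filter, mem_filter, mem_filter]
    rcases hcov z hz with h | h | h
    · exact Or.inl ⟨hz, h⟩
    · exact Or.inr (Or.inl ⟨hz, h⟩)
    · exact Or.inr (Or.inr ⟨hz, h⟩)
  have hc : S.card ≤ (S.filter P₀).card + ((S.filter P₁).card + (S.filter P₂).card) :=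
    (card_le_card hsub).trans ((card_union_le _ _).trans
      (Nat.add_le_add_left (card_union_le _ _) _))
  have hc' : (S.card : ℝ) ≤ (S.filter P₀).card + ((S.filter P₁).card + (S.filter P₂).card) := by
    exact_mod_cast hc
  calc (S.card : ℝ) ≤ (S.filter P₀).card + ((S.filter P₁).card + (S.filter P₂).card) := hc'
    _ ≤ C₀ * (X : ℝ) ^ ε * Y + (C₁ * (X : ℝ) ^ ε * Y + C₂ * (X : ℝ) ^ ε * Y) := by
        gcongr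
    _ = C * (X : ℝ) ^ ε * Y := by
        rw [hC]
        ring

private theorem FamS_rd {q n : ℕ} (h : q ∣ n) (hn : n ≠ 0) : rd q ≤ rd n :=
  Nat.le_of_dvd (RC.rd_pos n)
    (prod_dvd_prod_of_subset _ _ _ (Nat.primeFactors_mono h hn))

private theorem FamS_pos {z : ℕ × ℕ} (hz : Prm z) (i : Fin 3) : 1 ≤ sd z i := by
  obtain ⟨h1, h2, -⟩ := hz
  fin_cases i
  · exact h1
  · exact h2
  · show 1 ≤ z.1 + z.2
    omega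

private theorem FamS_le {z : ℕ × ℕ} (i : Fin 3) : sd z i ≤ z.1 + z.2 := by
  fin_cases i
  · show z.1 ≤ z.1 + z.2
    omega
  · show z.2 ≤ z.1 + z.2
    omega
  · exact le_refl _

private theorem FamS_dvd (z : ℕ × ℕ) (i : Fin 3) : sd z i ∣ pr3 z := by
  unfold Pool.MP_a95293_nt.RC.pr3
  fin_cases i
  · exact Dvd.intro _ (mul_assoc z.1 z.2 (z.1 + z.2)).symm
  · exact Dvd.intro (z.1 * (z.1 + z.2)) (by show z.2 * (z.1 * (z.1 + z.2)) = _; ring)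
  · exact Dvd.intro_left _ rfl

private theorem FamS_cop {z : ℕ × ℕ} (hz : Prm z) {i j : Fin 3} (hij : i ≠ j) :
    (sd z i).Coprime (sd z j) := by
  obtain ⟨-, -, h⟩ := hz
  have h02 : z.1.Coprime (z.1 + z.2) := by
    rw [Nat.coprime_self_add_right]
    exact h
  have h12 : z.2.Coprime (z.1 + z.2) := by
    rw [add_comm, Nat.coprime_self_add_right]
    exact h.symm
  fin_cases i <;> fin_cases j
  · exact absurd rfl hij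
  · exact h
  · exact h02
  · exact h.symm
  · exact absurd rfl hij
  · exact h12
  · exact h02.symm
  · exact h12.symm
  · exact absurd rfl hij

private theorem FamS_rel2 {z z' : ℕ × ℕ} {q : ℕ} {i j k : Fin 3} (e1 : i ≠ j) (e2 : j ≠ k)
    (e3 : i ≠ k) (h : q ∣ sd z i) (h' : q ∣ sd z' i) :
    sd z j * sd z' k ≡ sd z' j * sd z k [MOD q] := by
  rw [Nat.modEq_iff_dvd]
  have h1 : (q : ℤ) ∣ (sd z i : ℤ) := Int.natCast_dvd_natCast.2 h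
  have h2 : (q : ℤ) ∣ (sd z' i : ℤ) := Int.natCast_dvd_natCast.2 h'
  obtain ⟨s, hs⟩ := h1
  obtain ⟨t, ht⟩ := h2
  rcases FamS_six e1 e2 e3 with ⟨rfl, rfl, rfl⟩ | ⟨rfl, rfl, rfl⟩ | ⟨rfl, rfl, rfl⟩ |
    ⟨rfl, rfl, rfl⟩ | ⟨rfl, rfl, rfl⟩ | ⟨rfl, rfl, rfl⟩ <;>
    simp only [FamS_sd0, FamS_sd1, FamS_sd2] at hs ht ⊢ <;> push_cast at hs ht ⊢
  · exact ⟨z'.2 * s - z.2 * t, by linear_combination (z'.2 : ℤ) * hs - (z.2 : ℤ) * ht⟩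
  · exact ⟨z.2 * t - z'.2 * s, by linear_combination (z.2 : ℤ) * ht - (z'.2 : ℤ) * hs⟩
  · exact ⟨z'.1 * s - z.1 * t, by linear_combination (z'.1 : ℤ) * hs - (z.1 : ℤ) * ht⟩
  · exact ⟨z.1 * t - z'.1 * s, by linear_combination (z.1 : ℤ) * ht - (z'.1 : ℤ) * hs⟩
  · exact ⟨z.2 * t - z'.2 * s, by linear_combination (z.2 : ℤ) * ht - (z'.2 : ℤ) * hs⟩
  · exact ⟨z'.2 * s - z.2 * t, by linear_combination (z'.2 : ℤ) * hs - (z.2 : ℤ) * ht⟩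

private theorem FamS_rel1 {z z' : ℕ × ℕ} {q : ℕ} {i j k : Fin 3} (e1 : i ≠ j) (e2 : j ≠ k)
    (e3 : i ≠ k) (h : q ∣ sd z i) (h' : q ∣ sd z' i) (hj : sd z j = sd z' j) :
    sd z k ≡ sd z' k [MOD q] := by
  rw [Nat.modEq_iff_dvd]
  have h1 : (q : ℤ) ∣ (sd z i : ℤ) := Int.natCast_dvd_natCast.2 h
  have h2 : (q : ℤ) ∣ (sd z' i : ℤ) := Int.natCast_dvd_natCast.2 h'
  have hj' : (sd z j : ℤ) = sd z' j := by rw [hj]
  obtain ⟨s, hs⟩ := h1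
  obtain ⟨t, ht⟩ := h2
  rcases FamS_six e1 e2 e3 with ⟨rfl, rfl, rfl⟩ | ⟨rfl, rfl, rfl⟩ | ⟨rfl, rfl, rfl⟩ |
    ⟨rfl, rfl, rfl⟩ | ⟨rfl, rfl, rfl⟩ | ⟨rfl, rfl, rfl⟩ <;>
    simp only [FamS_sd0, FamS_sd1, FamS_sd2] at hs ht hj' ⊢ <;> push_cast at hs ht hj' ⊢
  · exact ⟨t - s, by linear_combination ht - hs - hj'⟩
  · exact ⟨s - t, by linear_combination hs - ht - hj'⟩
  · exact ⟨t - s, by linear_combination ht - hs - hj'⟩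
  · exact ⟨s - t, by linear_combination hs - ht - hj'⟩
  · exact ⟨t - s, by linear_combination ht - hs + hj'⟩
  · exact ⟨t - s, by linear_combination ht - hs + hj'⟩

private theorem FamS_inj {z z' : ℕ × ℕ} {j k : Fin 3} (e2 : j ≠ k) (hj : sd z j = sd z' j)
    (hk : sd z k = sd z' k) : z = z' := by
  have key : z.1 = z'.1 ∧ z.2 = z'.2 := by
    fin_cases j <;> fin_cases k
    · exact absurd rfl e2
    · exact ⟨hj, hk⟩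
    · have h1 : z.1 = z'.1 := hj
      have h2 : z.1 + z.2 = z'.1 + z'.2 := hk
      omega
    · exact ⟨hk, hj⟩
    · exact absurd rfl e2
    · have h1 : z.2 = z'.2 := hj
      have h2 : z.1 + z.2 = z'.1 + z'.2 := hk
      omega
    · have h1 : z.1 = z'.1 := hk
      have h2 : z.1 + z.2 = z'.1 + z'.2 := hj
      omega
    · have h1 : z.2 = z'.2 := hk
      have h2 : z.1 + z.2 = z'.1 + z'.2 := hj
      omega
    · exact absurd rfl e2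
  exact Prod.ext key.1 key.2

private theorem FamS_Cc1 {X κ E s₀ : ℕ} (hX : 1 ≤ X) : Cc X κ E s₀ 1 :=
  ⟨0, 1, fun i => i.elim0, fun i => i.elim0, Nat.zero_le _, ⟨le_refl 1, Nat.one_le_pow _ _ hX⟩,
    fun i => i.elim0, fun i => i.elim0, by simp⟩

theorem famK (s₀ κ : ℕ) (ε : ℝ) (hε : 0 < ε) : ∃ h₀ : ℕ, ∀ A E : ℕ, ∃ C : ℝ, 1 ≤ C ∧
    ∀ (X : ℕ) (Y : ℝ), 1 ≤ X → 0 ≤ Y → ∀ S : Finset (ℕ × ℕ), (∀ z ∈ S, Prm z ∧ rd (pr3 z) ≤ X ∧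
      z.1 + z.2 ≤ X ^ A ∧ ∃ i j k : Fin 3, i ≠ j ∧ j ≠ k ∧ i ≠ k ∧ ∃ q : ℕ, X ^ h₀ ≤ q ∧ q ∣ sd z i ∧
        ((Cc X κ E s₀ (sd z k) ∧ (rd q : ℝ) * rd (sd z j) ≤ Y) ∨
          (Cc X κ E s₀ (sd z j) ∧ Cc X κ E s₀ (sd z k) ∧ (rd q : ℝ) ≤ Y))) →
    (S.card : ℝ) ≤ C * (X : ℝ) ^ ε * Y := by
  classical
  obtain ⟨h₀, hp⟩ := famK_aux s₀ κ ε hε
  refine ⟨h₀, fun A E => ?_⟩
  obtain ⟨C, hC, h⟩ := hp A E
  refine ⟨54 * C, by linarith, ?_⟩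
  intro X Y hX hY S hS
  set P₁ : Fin 3 × Fin 3 × Fin 3 → ℕ × ℕ → Prop := fun t z => t.1 ≠ t.2.1 ∧ t.2.1 ≠ t.2.2 ∧
    t.1 ≠ t.2.2 ∧ ∃ q : ℕ, X ^ h₀ ≤ q ∧ q ∣ sd z t.1 ∧ Cc X κ E s₀ (sd z t.2.2) ∧
      (rd q : ℝ) * rd (sd z t.2.1) ≤ Y with hP₁
  set P₂ : Fin 3 × Fin 3 × Fin 3 → ℕ × ℕ → Prop := fun t z => t.1 ≠ t.2.1 ∧ t.2.1 ≠ t.2.2 ∧
    t.1 ≠ t.2.2 ∧ ∃ q : ℕ, X ^ h₀ ≤ q ∧ q ∣ sd z t.1 ∧ Cc X κ E s₀ (sd z t.2.1) ∧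
      Cc X κ E s₀ (sd z t.2.2) ∧ (rd q : ℝ) ≤ Y with hP₂
  have c1 : ∀ t, ((S.filter (P₁ t)).card : ℝ) ≤ C * (X : ℝ) ^ ε * Y := by
    rintro ⟨i, j, k⟩
    have hm : ∀ z, z ∈ S.filter (P₁ (i, j, k)) → z ∈ S ∧ i ≠ j ∧ j ≠ k ∧ i ≠ k ∧
        ∃ q : ℕ, X ^ h₀ ≤ q ∧ q ∣ sd z i ∧ Cc X κ E s₀ (sd z k) ∧ (rd q : ℝ) * rd (sd z j) ≤ Y :=
      fun z hz => mem_filter.1 hz
    choose! q hq using fun z (hz : z ∈ S.filter (P₁ (i, j, k))) => (hm z hz).2.2.2.2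
    refine h X Y hX hY (S.filter (P₁ (i, j, k))) q (fun z => sd z j) (fun z => sd z k)
      (fun _ => 1) ?_ ?_ ?_
    · intro z hz
      obtain ⟨a1, a2, a3, a4, -⟩ := hm z hz
      obtain ⟨q1, q2, q3, q4⟩ := hq z hz
      obtain ⟨p1, p2, p3, -⟩ := hS z a1
      have hz0 : 0 < sd z i := FamS_pos p1 i
      have hpr : pr3 z ≠ 0 := by
        unfold Pool.MP_a95293_nt.RC.pr3
        have h1 := p1.1
        have h2 := p1.2.1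
        positivity
      refine ⟨⟨q1, (Nat.le_of_dvd hz0 q2).trans ((FamS_le i).trans p3)⟩,
        ⟨FamS_pos p1 j, (FamS_le j).trans p3⟩,
        (FamS_rd (q2.trans (FamS_dvd z i)) hpr).trans p2, Nat.coprime_one_right _,
        Nat.Coprime.coprime_dvd_right q2 (FamS_cop p1 a4.symm), Nat.coprime_one_left _, q3,
        FamS_Cc1 hX, q4⟩
    · intro z hz z' hz' e e'
      obtain ⟨a1, a2, a3, a4, -⟩ := hm z hz
      show sd z k * 1 ≡ sd z' k * 1 [MOD q z]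
      rw [mul_one, mul_one]
      exact FamS_rel1 a2 a3 a4 (hq z hz).2.1 (e ▸ (hq z' hz').2.1) e'
    · intro z hz z' hz' _ e' e'' _
      exact FamS_inj (hm z hz).2.2.1 e' e''
  have c2 : ∀ t, ((S.filter (P₂ t)).card : ℝ) ≤ C * (X : ℝ) ^ ε * Y := by
    rintro ⟨i, j, k⟩
    have hm : ∀ z, z ∈ S.filter (P₂ (i, j, k)) → z ∈ S ∧ i ≠ j ∧ j ≠ k ∧ i ≠ k ∧
        ∃ q : ℕ, X ^ h₀ ≤ q ∧ q ∣ sd z i ∧ Cc X κ E s₀ (sd z j) ∧ Cc X κ E s₀ (sd z k) ∧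
          (rd q : ℝ) ≤ Y :=
      fun z hz => mem_filter.1 hz
    choose! q hq using fun z (hz : z ∈ S.filter (P₂ (i, j, k))) => (hm z hz).2.2.2.2
    refine h X Y hX hY (S.filter (P₂ (i, j, k))) q (fun _ => 1) (fun z => sd z j)
      (fun z => sd z k) ?_ ?_ ?_
    · intro z hz
      obtain ⟨a1, a2, a3, a4, -⟩ := hm z hz
      obtain ⟨q1, q2, q3, q4, q5⟩ := hq z hz
      obtain ⟨p1, p2, p3, -⟩ := hS z a1
      have hz0 : 0 < sd z i := FamS_pos p1 i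
      have hpr : pr3 z ≠ 0 := by
        unfold Pool.MP_a95293_nt.RC.pr3
        have h1 := p1.1
        have h2 := p1.2.1
        positivity
      have hr1 : rd 1 = 1 := by
        unfold Pool.MP_a95293_nt.RC.rd
        simp
      refine ⟨⟨q1, (Nat.le_of_dvd hz0 q2).trans ((FamS_le i).trans p3)⟩,
        ⟨le_refl 1, Nat.one_le_pow _ _ hX⟩,
        (FamS_rd (q2.trans (FamS_dvd z i)) hpr).trans p2, FamS_cop p1 a3,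
        Nat.Coprime.coprime_dvd_right q2 (FamS_cop p1 a2.symm),
        Nat.Coprime.coprime_dvd_right q2 (FamS_cop p1 a4.symm), q3, q4, ?_⟩
      rw [hr1, Nat.cast_one, mul_one]
      exact q5
    · intro z hz z' hz' e _
      obtain ⟨a1, a2, a3, a4, -⟩ := hm z hz
      exact FamS_rel2 a2 a3 a4 (hq z hz).2.1 (e ▸ (hq z' hz').2.1)
    · intro z hz z' hz' _ _ e' e''
      exact FamS_inj (hm z hz).2.2.1 e' e''
  have hsub : S ⊆ (univ : Finset (Fin 3 × Fin 3 × Fin 3)).biUnion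
      fun t => S.filter (P₁ t) ∪ S.filter (P₂ t) := by
    intro z hz
    obtain ⟨-, -, -, i, j, k, e1, e2, e3, q, q1, q2, q3⟩ := hS z hz
    rw [mem_biUnion]
    refine ⟨(i, j, k), mem_univ _, ?_⟩
    rw [mem_union, mem_filter, mem_filter]
    rcases q3 with q3 | q3
    · exact Or.inl ⟨hz, e1, e2, e3, q, q1, q2, q3⟩
    · exact Or.inr ⟨hz, e1, e2, e3, q, q1, q2, q3⟩
  have hc : S.card ≤ ∑ t : Fin 3 × Fin 3 × Fin 3, ((S.filter (P₁ t)).card +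
      (S.filter (P₂ t)).card) :=
    (card_le_card hsub).trans (card_biUnion_le.trans
      (sum_le_sum fun t _ => card_union_le _ _))
  have hc' : (S.card : ℝ) ≤ ∑ t : Fin 3 × Fin 3 × Fin 3, (((S.filter (P₁ t)).card : ℝ) +
      (S.filter (P₂ t)).card) := by
    exact_mod_cast hc
  have hc'' : ∑ t : Fin 3 × Fin 3 × Fin 3, (((S.filter (P₁ t)).card : ℝ) +
      (S.filter (P₂ t)).card) ≤ ∑ _t : Fin 3 × Fin 3 × Fin 3, (2 * (C * (X : ℝ) ^ ε * Y)) :=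
    sum_le_sum fun t _ => by
      have h1 := c1 t
      have h2 := c2 t
      linarith
  refine (hc'.trans hc'').trans (le_of_eq ?_)
  rw [sum_const, card_univ]
  have h27 : Fintype.card (Fin 3 × Fin 3 × Fin 3) = 27 := by
    simp [Fintype.card_prod]
  rw [h27, nsmul_eq_mul]
  push_cast
  ring

end Pool.MP_a95293_nt.CG
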