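import Pool.Agent.Lib_MP_a95293_cg.Defs

/-!
# Piece CG-15 (SIDE): small part of a side, spread and concentrated sides, levels

`p` is small if `p ^ J < X`. `Qs J X n` is the part of `n` composed of small primes.
PROOF of `spread`: greedy grouping, e.g. by strong induction on `n`-parts: claim: a set `U` of primes with `p ^ J < X` and
`(∏ p ∈ U, p) ≤ X` can be partitioned in at most `J + 1` sets `V` with `(∏ p ∈ V, p) ^ J ≤ X ^ 2`: take a maximal sub-set `V`
with `(∏ V) ^ J ≤ X ^ 2` or stop as soon as `(∏ V) ^ J ≥ X` (adding one prime multiplies `(∏ V) ^ J` by less than `X`); every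
full group has `(∏ V) ^ J ≥ X`, so there are at most `J` full groups. One group has
`(∏_(p ∈ V) p ^ v_p (n)) ^ (J + 1) ≥ n ≥ X ^ ((J + 1) h)`.
(A cleaner induction: by induction on `g`: if `(∏ U) ^ J < X ^ (g + 1)` then `U` is a union of `g + 1` sets with `(∏ V) ^ J < X ^ 2`.)
PROOF of `conc`: `F = Qs J X n * ∏ (p ∣ n big, p ^ v < X ^ L) p ^ v`; there are at most `J` primes `p ∣ n` with `X ≤ p ^ J`, since
`(∏ p) ^ J ≤ rd n ^ J ≤ X ^ J` (strictly: `J + 1` of them would give `X ^ (J + 1) ≤ X ^ J`). So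
`F ≤ X ^ L * X ^ (J L)`. The `w_i` are the other big primes, `X ^ L ≤ p ^ v` (`Finset.equivFin` enumeration), exponents
`v_p n ≤ A J` because `X ^ v ≤ p ^ (J v) ≤ n ^ J ≤ X ^ (A J)`.
PROOF of `level`: for `i ≤ V` (`V + 1` values) suppose some `x ∈ U` has `X ^ L i ≤ x < X ^ L (i + 1)`; the map `i ↦ x` is
injective (the intervals are disjoint), so `V + 1 ≤ U.card ≤ V`.
-/

set_option autoImplicit false

namespace Pool.MP_a95293_nt.CG

open Finset
open Pool.MP_a95293_nt.RC (rd Prm pr3)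

/-- the part of `n` composed of the primes `p` with `p ^ J < X` -/
def Qs (J X n : ℕ) : ℕ := ∏ p ∈ n.primeFactors.filter (fun p => p ^ J < X), p ^ n.factorization p

/-- a group of primes with `X ≤ (∏ V) ^ J < X ^ 2` -/
private theorem side_group (J X : ℕ) (U : Finset ℕ) (hU : ∀ p ∈ U, p ^ J < X)
    (h : X ≤ (∏ p ∈ U, p) ^ J) (hX : 2 ≤ X) :
    ∃ V ⊆ U, X ≤ (∏ p ∈ V, p) ^ J ∧ (∏ p ∈ V, p) ^ J < X ^ 2 := by
  classical
  induction U using Finset.induction_on with
  | empty =>
    rw [Finset.prod_empty, one_pow] at h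
    omega
  | insert a U ha ih =>
    by_cases h1 : X ≤ (∏ p ∈ U, p) ^ J
    · obtain ⟨V, hV, h2, h3⟩ := ih (fun p hp => hU p (mem_insert_of_mem hp)) h1
      exact ⟨V, hV.trans (subset_insert a U), h2, h3⟩
    · refine ⟨insert a U, subset_rfl, h, ?_⟩
      rw [prod_insert ha, mul_pow, pow_two]
      have h2 : a ^ J < X := hU a (mem_insert_self a U)
      exact Nat.mul_lt_mul_of_lt_of_le h2 (by omega) (by omega)

private theorem side_split (J X : ℕ) (hX : 2 ≤ X) (w : ℕ → ℕ) (hw : ∀ p, 1 ≤ w p) (g : ℕ) :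
    ∀ U : Finset ℕ, (∀ p ∈ U, p ^ J < X) → (∏ p ∈ U, p) ^ J < X ^ (g + 1) →
      ∃ V ⊆ U, (∏ p ∈ V, p) ^ J ≤ X ^ 2 ∧ ∏ p ∈ U, w p ≤ (∏ p ∈ V, w p) ^ (g + 1) := by
  classical
  have hone : ∀ V : Finset ℕ, 1 ≤ ∏ p ∈ V, w p := fun V => Finset.one_le_prod' fun p _ => hw p
  induction g with
  | zero =>
    intro U _ hb
    refine ⟨U, subset_rfl, ?_, by rw [zero_add, pow_one]⟩
    rw [zero_add, pow_one] at hb
    nlinarith
  | succ g ih =>
    intro U hU hb
    by_cases h1 : X ≤ (∏ p ∈ U, p) ^ J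
    · obtain ⟨V0, hV0, h2, h3⟩ := side_group J X U hU h1 hX
      have h4 : (∏ p ∈ U \ V0, p) ^ J < X ^ (g + 1) := by
        have h5 : (∏ p ∈ U \ V0, p) ^ J * (∏ p ∈ V0, p) ^ J = (∏ p ∈ U, p) ^ J := by
          rw [← mul_pow, prod_sdiff hV0]
        have h6 : (∏ p ∈ U \ V0, p) ^ J * X < X ^ (g + 1) * X := by
          calc (∏ p ∈ U \ V0, p) ^ J * X ≤ (∏ p ∈ U \ V0, p) ^ J * (∏ p ∈ V0, p) ^ J :=
                Nat.mul_le_mul_left _ h2
            _ = (∏ p ∈ U, p) ^ J := h5
            _ < X ^ (g + 1 + 1) := hb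
            _ = X ^ (g + 1) * X := pow_succ _ _
        exact lt_of_mul_lt_mul_right h6 (Nat.zero_le _)
      obtain ⟨V1, hV1, h5, h6⟩ := ih (U \ V0) (fun p hp => hU p (mem_sdiff.1 hp).1) h4
      have h7 : ∏ p ∈ U, w p = (∏ p ∈ U \ V0, w p) * ∏ p ∈ V0, w p := (prod_sdiff hV0).symm
      rcases le_total (∏ p ∈ V0, w p) (∏ p ∈ V1, w p) with h8 | h8
      · refine ⟨V1, hV1.trans sdiff_subset, h5, ?_⟩
        rw [h7, pow_succ]
        exact Nat.mul_le_mul h6 h8
      · refine ⟨V0, hV0, h3.le, ?_⟩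
        rw [h7, pow_succ]
        exact Nat.mul_le_mul (h6.trans (Nat.pow_le_pow_left h8 _)) le_rfl
    · refine ⟨U, subset_rfl, ?_, ?_⟩
      · nlinarith
      · calc ∏ p ∈ U, w p = (∏ p ∈ U, w p) ^ 1 := (pow_one _).symm
          _ ≤ (∏ p ∈ U, w p) ^ (g + 1 + 1) := Nat.pow_le_pow_right (hone U) (by omega)

private theorem side_rd_le {n : ℕ} {V : Finset ℕ} (hn : n ≠ 0) (hV : V ⊆ n.primeFactors) :
    ∏ p ∈ V, p ≤ rd n := by
  unfold rd
  exact Finset.prod_le_prod_of_subset_of_one_le' hV fun p hp _ =>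
    (Nat.prime_of_mem_primeFactors hp).one_lt.le

private theorem side_prod {n : ℕ} (hn : n ≠ 0) :
    ∏ p ∈ n.primeFactors, p ^ n.factorization p = n :=
  Nat.prod_factorization_pow_eq_self hn

theorem spread (J X n h : ℕ) (hX : 2 ≤ X) (hn : 1 ≤ n) (hr : rd n ≤ X)
    (hs : X ^ ((J + 1) * h) ≤ Qs J X n) :
    ∃ q : ℕ, q ∣ n ∧ X ^ h ≤ q ∧ rd q ^ J ≤ X ^ 2 := by
  classical
  have hn0 : n ≠ 0 := by omega
  have hsub : n.primeFactors.filter (fun p => p ^ J < X) ⊆ n.primeFactors := filter_subset _ _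
  have hb : (∏ p ∈ n.primeFactors.filter (fun p => p ^ J < X), p) ^ J < X ^ (J + 1) := by
    calc (∏ p ∈ n.primeFactors.filter (fun p => p ^ J < X), p) ^ J ≤ X ^ J :=
          Nat.pow_le_pow_left ((side_rd_le hn0 hsub).trans hr) _
      _ < X ^ (J + 1) := Nat.pow_lt_pow_right (by omega) (by omega)
  have hw : ∀ p, 1 ≤ (fun p => if p = 0 then 1 else p ^ n.factorization p) p := by
    intro p
    show 1 ≤ if p = 0 then 1 else p ^ n.factorization p
    split_ifs with h1
    · exact le_rfl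
    · exact Nat.one_le_pow _ _ (by omega)
  obtain ⟨V, hV, h1, h2⟩ := side_split J X hX (fun p => if p = 0 then 1 else p ^ n.factorization p)
    hw J _ (fun p hp => (mem_filter.1 hp).2) hb
  have hVn : V ⊆ n.primeFactors := hV.trans hsub
  have e : ∀ S ⊆ n.primeFactors, ∏ p ∈ S, (if p = 0 then 1 else p ^ n.factorization p) =
      ∏ p ∈ S, p ^ n.factorization p := by
    intro S hS
    refine prod_congr rfl fun p hp => if_neg ?_
    exact (Nat.prime_of_mem_primeFactors (hS hp)).ne_zero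
  rw [e _ hsub, e _ hVn] at h2
  refine ⟨∏ p ∈ V, p ^ n.factorization p, ?_, ?_, ?_⟩
  · conv_rhs => rw [← side_prod hn0]
    exact prod_dvd_prod_of_subset _ _ _ hVn
  · have h3 : (X ^ h) ^ (J + 1) ≤ (∏ p ∈ V, p ^ n.factorization p) ^ (J + 1) := by
      rw [← pow_mul, mul_comm h]
      exact hs.trans h2
    exact (Nat.pow_le_pow_iff_left (by omega)).1 h3
  · refine le_trans (Nat.pow_le_pow_left ?_ _) h1
    unfold rd
    refine Finset.prod_le_prod_of_subset_of_one_le' ?_ fun p hp _ =>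
      (Nat.prime_of_mem_primeFactors (hVn hp)).one_lt.le
    intro p hp
    have hp' := Nat.prime_of_mem_primeFactors hp
    have h3 : p ∣ ∏ p ∈ V, p ^ n.factorization p := Nat.dvd_of_mem_primeFactors hp
    obtain ⟨r, hr, h4⟩ := (hp'.prime.dvd_finsetProd_iff _).1 h3
    have h5 := hp'.dvd_of_dvd_pow h4
    rw [(Nat.prime_dvd_prime_iff_eq hp' (Nat.prime_of_mem_primeFactors (hVn hr))).1 h5]
    exact hr

/-- at most `J` primes `p ∣ n` have `X ≤ p ^ J` -/
private theorem side_big_card (J X n : ℕ) (hX : 2 ≤ X) (hr : rd n ≤ X) :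
    (n.primeFactors.filter fun p => X ≤ p ^ J).card ≤ J := by
  rcases Nat.eq_zero_or_pos n with hn | hn
  · subst hn
    simp
  · have h1 : X ^ (n.primeFactors.filter fun p => X ≤ p ^ J).card ≤ X ^ J := by
      calc X ^ (n.primeFactors.filter fun p => X ≤ p ^ J).card
          = ∏ p ∈ n.primeFactors.filter (fun p => X ≤ p ^ J), X := by rw [prod_const]
        _ ≤ ∏ p ∈ n.primeFactors.filter (fun p => X ≤ p ^ J), p ^ J :=
          Finset.prod_le_prod' fun p hp => (mem_filter.1 hp).2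
        _ = (∏ p ∈ n.primeFactors.filter (fun p => X ≤ p ^ J), p) ^ J := prod_pow _ _ _
        _ ≤ X ^ J := Nat.pow_le_pow_left
          ((side_rd_le (by omega) (filter_subset _ _)).trans hr) _
    exact (Nat.pow_le_pow_iff_right (by omega)).1 h1

theorem conc (J X n L A : ℕ) (hX : 2 ≤ X) (hn : 1 ≤ n) (hr : rd n ≤ X) (hnA : n ≤ X ^ A)
    (hs : Qs J X n < X ^ L) :
    Cc X ((J + 1) * L) (A * J) J n ∧
    ((∀ p ∈ n.primeFactors, X ≤ p ^ J → p ^ n.factorization p < X ^ L) → n ≤ X ^ ((J + 1) * L)) := by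
  classical
  have hn0 : n ≠ 0 := by omega
  obtain ⟨B, hBdef⟩ : ∃ B, B = n.primeFactors.filter (fun p => X ≤ p ^ J) := ⟨_, rfl⟩
  obtain ⟨B1, hB1def⟩ : ∃ B1, B1 = B.filter (fun p => p ^ n.factorization p < X ^ L) := ⟨_, rfl⟩
  obtain ⟨W, hWdef⟩ : ∃ W, W = B.filter (fun p => ¬ p ^ n.factorization p < X ^ L) := ⟨_, rfl⟩
  have hBc : B.card ≤ J := by
    rw [hBdef]
    exact side_big_card J X n hX hr
  have hBn : B ⊆ n.primeFactors := by
    rw [hBdef]
    exact filter_subset _ _
  have hB1B : B1 ⊆ B := by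
    rw [hB1def]
    exact filter_subset _ _
  have hWB : W ⊆ B := by
    rw [hWdef]
    exact filter_subset _ _
  have hpr : ∀ p ∈ n.primeFactors, p.Prime := fun p hp => Nat.prime_of_mem_primeFactors hp
  obtain ⟨F, hF⟩ : ∃ F, F = Qs J X n * ∏ p ∈ B1, p ^ n.factorization p := ⟨_, rfl⟩
  have hprod : n = F * ∏ p ∈ W, p ^ n.factorization p := by
    have h1 : n = Qs J X n * ∏ p ∈ B, p ^ n.factorization p := by
      conv_lhs => rw [← side_prod hn0]
      rw [← prod_filter_mul_prod_filter_not n.primeFactors (fun p => p ^ J < X)]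
      unfold Qs
      congr 2
      rw [hBdef]
      ext p
      simp only [mem_filter, not_lt]
    rw [hF, mul_assoc, hB1def, hWdef, prod_filter_mul_prod_filter_not]
    exact h1
  have hB1c : ∏ p ∈ B1, p ^ n.factorization p ≤ (X ^ L) ^ J := by
    calc ∏ p ∈ B1, p ^ n.factorization p ≤ ∏ p ∈ B1, X ^ L :=
          Finset.prod_le_prod' fun p hp => by
            rw [hB1def] at hp
            exact (mem_filter.1 hp).2.le
      _ = (X ^ L) ^ B1.card := by rw [prod_const]
      _ ≤ (X ^ L) ^ J := Nat.pow_le_pow_right (Nat.pow_pos (by omega))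
          ((card_le_card hB1B).trans hBc)
  have hFle : F ≤ X ^ ((J + 1) * L) := by
    rw [hF, add_mul, one_mul, pow_add, mul_comm]
    refine Nat.mul_le_mul ?_ hs.le
    rw [mul_comm J L, pow_mul]
    exact hB1c
  have hFpos : 1 ≤ F := by
    rcases Nat.eq_zero_or_pos F with h0 | h0
    · rw [h0, zero_mul] at hprod
      omega
    · exact h0
  refine ⟨⟨W.card, F, fun i => (W.equivFin.symm i).1, fun i =>
    n.factorization (W.equivFin.symm i).1, (card_le_card hWB).trans hBc, ⟨hFpos, hFle⟩,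
    ?_, ?_, ?_⟩, ?_⟩
  · intro i
    obtain ⟨p, hpdef⟩ : ∃ p, p = (W.equivFin.symm i : ℕ) := ⟨_, rfl⟩
    have hpW : p ∈ W := by
      rw [hpdef]
      exact (W.equivFin.symm i).2
    beta_reduce
    rw [← hpdef]
    have hpB := hWB hpW
    have hpn := hBn hpB
    have hp := hpr p hpn
    have hpJ : X ≤ p ^ J := by
      rw [hBdef] at hpB
      exact (mem_filter.1 hpB).2
    refine ⟨⟨hp.one_lt.le, ?_⟩, ⟨?_, ?_⟩, ?_⟩
    · refine le_trans ?_ hr
      have := side_rd_le hn0 (V := {p}) (singleton_subset_iff.2 hpn)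
      rwa [prod_singleton] at this
    · exact Nat.pos_of_ne_zero (Finsupp.mem_support_iff.1 (by
        rw [Nat.support_factorization]
        exact hpn))
    · have h1 : X ^ n.factorization p ≤ X ^ (A * J) := by
        calc X ^ n.factorization p ≤ (p ^ J) ^ n.factorization p := Nat.pow_le_pow_left hpJ _
          _ = (p ^ n.factorization p) ^ J := by rw [← pow_mul, ← pow_mul, mul_comm]
          _ ≤ n ^ J := Nat.pow_le_pow_left (Nat.ordProj_le p hn0) _
          _ ≤ (X ^ A) ^ J := Nat.pow_le_pow_left hnA _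
          _ = X ^ (A * J) := by rw [← pow_mul]
      exact (Nat.pow_le_pow_iff_right (by omega)).1 h1
    · rw [hF]
      have hcop : ∀ S ⊆ n.primeFactors, p ∉ S → p.Coprime (∏ r ∈ S, r ^ n.factorization r) := by
        intro S hS hpS
        refine Nat.Coprime.prod_right fun r hr => ?_
        refine Nat.Coprime.pow_right _ ((Nat.coprime_primes hp (hpr r (hS hr))).2 ?_)
        rintro rfl
        exact hpS hr
      refine Nat.Coprime.mul_right (hcop _ (filter_subset _ _) ?_) (hcop _ (hB1B.trans hBn) ?_)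
      · intro h1
        have := (mem_filter.1 h1).2
        omega
      · intro h1
        rw [hB1def] at h1
        rw [hWdef] at hpW
        exact (mem_filter.1 hpW).2 (mem_filter.1 h1).2
  · intro i j hij
    refine (Nat.coprime_primes (hpr _ (hBn (hWB (W.equivFin.symm i).2)))
      (hpr _ (hBn (hWB (W.equivFin.symm j).2)))).2 fun h1 => hij ?_
    exact W.equivFin.symm.injective (Subtype.ext h1)
  · rw [W.equivFin.symm.prod_comp (fun x : W => (x : ℕ) ^ n.factorization x),
      Finset.prod_coe_sort W (fun p => p ^ n.factorization p)]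
    exact hprod
  · intro hall
    have hW : W = ∅ := by
      rw [hWdef, filter_eq_empty_iff]
      intro p hp
      rw [not_not]
      refine hall p (hBn hp) ?_
      rw [hBdef] at hp
      exact (mem_filter.1 hp).2
    rw [hW, prod_empty, mul_one] at hprod
    rw [hprod]
    exact hFle

theorem level (X V : ℕ) (hX : 1 ≤ X) (L : ℕ → ℕ) (hL : Monotone L) (U : Finset ℕ) (hU : U.card ≤ V) :
    ∃ i ≤ V, ∀ x ∈ U, x < X ^ L i ∨ X ^ L (i + 1) ≤ x := by
  classical
  by_contra hcon
  push Not at hcon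
  have hex : ∀ i : Fin (V + 1), ∃ x ∈ U, X ^ L i ≤ x ∧ x < X ^ L (i + 1) :=
    fun i => hcon i (by omega)
  choose f hf1 hf2 hf3 using hex
  have hlt : ∀ i j : Fin (V + 1), i < j → f i < f j := by
    intro i j hij
    refine (hf3 i).trans_le (le_trans ?_ (hf2 j))
    exact Nat.pow_le_pow_right hX (hL (Nat.succ_le_of_lt hij))
  have hinj : Function.Injective f := by
    intro i j hij
    rcases lt_trichotomy i j with h1 | h1 | h1
    · exact absurd hij (hlt i j h1).ne
    · exact h1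
    · exact absurd hij (hlt j i h1).ne'
  have hcard : (univ.image f).card = V + 1 := by
    rw [card_image_of_injective _ hinj, card_univ, Fintype.card_fin]
  have hsub : univ.image f ⊆ U := by
    intro x hx
    obtain ⟨i, _, rfl⟩ := mem_image.1 hx
    exact hf1 i
  have := card_le_card hsub
  omega

/-- at most `J` primes `p ∣ n` have `X ≤ p ^ J` -/
theorem big_card (J X n : ℕ) (hX : 2 ≤ X) (hr : rd n ≤ X) :
    (n.primeFactors.filter fun p => X ≤ p ^ J).card ≤ J :=
  side_big_card J X n hX hr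

end Pool.MP_a95293_nt.CG
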