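import Pool.Agent.Lib_MP_a95293_cg.Defs

/-!
# Piece CG-2 (ZCL): scaling of polynomials, and the class lemma of the zero estimate

PROOFS. `coeff_scal`: enough for monomials (`MvPolynomial.induction_on'` or `MvPolynomial.as_sum`):
`scal t (monomial e c) = monomial e (c * ∏ i, t i ^ e i)`. `eval_scal`, `scal_scal`: `MvPolynomial.eval_aeval`-type
lemmas, `MvPolynomial.algHom_ext`. `scal_deg`: by `coeff_scal` the support does not grow.
`cls`: `t ∈ Sg`, `t⁻¹ : i ↦ (t i)⁻¹`. From `g ∣ scal t P` we get `scal t⁻¹ g ∣ scal t⁻¹ (scal t P) = P`; `scal t⁻¹` is an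
algebra automorphism (inverse `scal t`), so `scal t⁻¹ g` is irreducible. `P` has at most `D` irreducible factors up to
units: in `UniqueFactorizationMonoid.factors P` every factor has total degree `≥ 1` (an irreducible polynomial is not
constant) and `MvPolynomial.totalDegree` is additive on products (`MvPolynomial.totalDegree_mul_of_isDomain`), so the
multiset has at most `D` elements; `UniqueFactorizationMonoid.exists_mem_factors_of_dvd` attaches to `t` an element
`φ t` of `(factors P).toFinset`, associated to `scal t⁻¹ g`. If `φ t = φ t'` then `scal t⁻¹ g = C c * scal t'⁻¹ g`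
(units of `MvPolynomial` over a field are constants, `MvPolynomial.isUnit_iff_eq_C_of_isReduced` or totalDegree),
so `∏ (t i)⁻¹ ^ e i = c * ∏ (t' i)⁻¹ ^ e i` for every `e` in the support of `g`. With two different elements `e₁, e₂` of
the support (as `2 ≤ g.support.card`) take `e i = e₁ i - e₂ i`: `∏ t i ^ e i = ∏ t' i ^ e i`. So the image has at most
`D` elements (it factors through `φ`).
-/

set_option autoImplicit false

namespace Pool.MP_a95293_nt.CG

open Finset

private theorem zcl_scal_monomial {n : ℕ} (t : Fin n → ℚ) (d : Fin n →₀ ℕ) (a : ℚ) :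
    scal t (MvPolynomial.monomial d a) = MvPolynomial.monomial d (a * ∏ i, t i ^ d i) := by
  rw [scal, MvPolynomial.aeval_monomial, MvPolynomial.monomial_eq, Finsupp.prod_fintype _ _ (by simp),
    Finsupp.prod_fintype _ _ (by simp)]
  simp only [mul_pow, Finset.prod_mul_distrib, map_mul, map_prod, map_pow, MvPolynomial.algebraMap_eq]
  ring

theorem coeff_scal {n : ℕ} (t : Fin n → ℚ) (P : MvPolynomial (Fin n) ℚ) (e : Fin n →₀ ℕ) :
    (scal t P).coeff e = (∏ i, t i ^ e i) * P.coeff e := by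
  classical
  induction P using MvPolynomial.induction_on' with
  | monomial d a =>
    rw [zcl_scal_monomial, MvPolynomial.coeff_monomial, MvPolynomial.coeff_monomial]
    split_ifs with h
    · rw [h]; ring
    · simp
  | add p q hp hq =>
    rw [map_add, MvPolynomial.coeff_add, MvPolynomial.coeff_add, hp, hq]
    ring

theorem eval_scal {n : ℕ} (t y : Fin n → ℚ) (P : MvPolynomial (Fin n) ℚ) :
    MvPolynomial.eval y (scal t P) = MvPolynomial.eval (t * y) P := by
  induction P using MvPolynomial.induction_on with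
  | C a => simp [scal]
  | add p q hp hq => rw [map_add, map_add, map_add, hp, hq]
  | mul_X p i hp =>
    rw [map_mul, map_mul, map_mul, hp]
    simp [scal]

theorem scal_deg {n : ℕ} (t : Fin n → ℚ) (P : MvPolynomial (Fin n) ℚ) :
    (scal t P).totalDegree ≤ P.totalDegree := by
  have h : (scal t P).support ⊆ P.support := by
    intro e he
    rw [MvPolynomial.mem_support_iff] at he ⊢
    intro h0
    apply he
    rw [coeff_scal, h0, mul_zero]
  exact Finset.sup_mono h

theorem scal_ne_zero {n : ℕ} (t : Fin n → ℚ) (ht : ∀ i, t i ≠ 0) (P : MvPolynomial (Fin n) ℚ) (hP : P ≠ 0) :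
    scal t P ≠ 0 := by
  intro h
  apply hP
  ext e
  have h1 := coeff_scal t P e
  rw [h, MvPolynomial.coeff_zero] at h1
  rw [MvPolynomial.coeff_zero]
  have h2 : ∏ i, t i ^ e i ≠ 0 := Finset.prod_ne_zero_iff.2 fun i _ => pow_ne_zero _ (ht i)
  rcases mul_eq_zero.1 h1.symm with h3 | h3
  · exact absurd h3 h2
  · exact h3

private theorem zcl_inv {n : ℕ} (t s : Fin n → ℚ) (hts : ∀ i, t i * s i = 1) (P : MvPolynomial (Fin n) ℚ) :
    scal t (scal s P) = P := by
  ext e
  rw [coeff_scal, coeff_scal, ← mul_assoc, ← Finset.prod_mul_distrib]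
  have : ∏ i, t i ^ e i * s i ^ e i = 1 := by
    apply Finset.prod_eq_one
    intro i _
    rw [← mul_pow, hts, one_pow]
  rw [this, one_mul]

private theorem zcl_irr {n : ℕ} (t s : Fin n → ℚ) (hts : ∀ i, t i * s i = 1) (g : MvPolynomial (Fin n) ℚ)
    (hg : Irreducible g) : Irreducible (scal t g) := by
  have hst : ∀ i, s i * t i = 1 := fun i => by rw [mul_comm]; exact hts i
  let e : MvPolynomial (Fin n) ℚ ≃ₐ[ℚ] MvPolynomial (Fin n) ℚ :=
    AlgEquiv.ofAlgHom (scal t) (scal s)
      (by ext1 x; exact zcl_inv t s hts _)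
      (by ext1 x; exact zcl_inv s t hst _)
  have h := (MulEquiv.irreducible_iff (f := e) (x := g)).2 hg
  exact h

private theorem zcl_deg_pos {n : ℕ} (a : MvPolynomial (Fin n) ℚ) (ha : Irreducible a) : 1 ≤ a.totalDegree := by
  by_contra h
  have h0 : a.totalDegree = 0 := by omega
  rw [MvPolynomial.totalDegree_eq_zero_iff_eq_C] at h0
  apply ha.not_isUnit
  rw [MvPolynomial.isUnit_iff_eq_C_of_isReduced]
  refine ⟨_, ?_, h0⟩
  rw [isUnit_iff_ne_zero]
  intro h1
  rw [h1, map_zero] at h0
  exact ha.ne_zero h0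

private theorem zcl_card {n : ℕ} (s : Multiset (MvPolynomial (Fin n) ℚ)) (hs : ∀ a ∈ s, Irreducible a) :
    Multiset.card s ≤ s.prod.totalDegree := by
  induction s using Multiset.induction with
  | empty => simp
  | cons a s ih =>
    have h1 := ih fun b hb => hs b (Multiset.mem_cons_of_mem hb)
    have ha := hs a (Multiset.mem_cons_self a s)
    have hp : s.prod ≠ 0 := by
      apply Multiset.prod_ne_zero
      intro h
      exact (hs 0 (Multiset.mem_cons_of_mem h)).ne_zero rfl
    rw [Multiset.prod_cons, Multiset.card_cons, MvPolynomial.totalDegree_mul_of_isDomain ha.ne_zero hp]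
    have := zcl_deg_pos a ha
    omega

theorem cls (n D : ℕ) (P g : MvPolynomial (Fin n) ℚ) (hP : P ≠ 0) (hD : P.totalDegree ≤ D)
    (hg : Irreducible g) (hs : 2 ≤ g.support.card) (Sg : Finset (Fin n → ℚ)) (h0 : ∀ t ∈ Sg, ∀ i, t i ≠ 0)
    (hdvd : ∀ t ∈ Sg, g ∣ scal t P) :
    ∃ e : Fin n → ℤ, e ≠ 0 ∧ (Sg.image fun t => ∏ i, t i ^ e i).card ≤ D := by
  classical
  obtain ⟨e₁, h₁, e₂, h₂, h12⟩ := Finset.one_lt_card.1 (show 1 < g.support.card by omega)
  refine ⟨fun i => (e₁ i : ℤ) - e₂ i, ?_, ?_⟩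
  · intro h
    apply h12
    ext i
    have := congrFun h i
    simp only [Pi.zero_apply] at this
    omega
  have key : ∀ t ∈ Sg, ∃ q ∈ UniqueFactorizationMonoid.factors P,
      Associated (scal (fun i => (t i)⁻¹) g) q := by
    intro t ht
    have h1 : ∀ i, (t i)⁻¹ * t i = 1 := fun i => inv_mul_cancel₀ (h0 t ht i)
    have h2 : Irreducible (scal (fun i => (t i)⁻¹) g) := zcl_irr _ t h1 g hg
    have h3 : scal (fun i => (t i)⁻¹) g ∣ P := by
      have := map_dvd (scal (fun i => (t i)⁻¹)) (hdvd t ht)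
      rwa [zcl_inv _ t h1 P] at this
    exact UniqueFactorizationMonoid.exists_mem_factors_of_dvd hP h2 h3
  choose! φ hφ1 hφ2 using key
  have hfac : ∀ t ∈ Sg, ∀ t' ∈ Sg, φ t = φ t' →
      ∏ i, t i ^ ((e₁ i : ℤ) - e₂ i) = ∏ i, t' i ^ ((e₁ i : ℤ) - e₂ i) := by
    intro t ht t' ht' h
    have h3 : Associated (scal (fun i => (t i)⁻¹) g) (scal (fun i => (t' i)⁻¹) g) :=
      (hφ2 t ht).trans (h ▸ (hφ2 t' ht').symm)
    obtain ⟨u, hu⟩ := h3
    obtain ⟨c, hc, hcu⟩ := MvPolynomial.isUnit_iff_eq_C_of_isReduced.1 u.isUnit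
    have hc0 : c ≠ 0 := hc.ne_zero
    have hco : ∀ e ∈ g.support, c * ∏ i, t' i ^ e i = ∏ i, t i ^ e i := by
      intro e he
      have hge : g.coeff e ≠ 0 := MvPolynomial.mem_support_iff.1 he
      have h4 := congrArg (MvPolynomial.coeff e) hu
      rw [hcu, mul_comm, MvPolynomial.coeff_C_mul, coeff_scal, coeff_scal] at h4
      have hA : ∏ i, t i ^ e i ≠ 0 := Finset.prod_ne_zero_iff.2 fun i _ => pow_ne_zero _ (h0 t ht i)
      have hB : ∏ i, t' i ^ e i ≠ 0 := Finset.prod_ne_zero_iff.2 fun i _ => pow_ne_zero _ (h0 t' ht' i)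
      have hA' : ∏ i, (t i)⁻¹ ^ e i = (∏ i, t i ^ e i)⁻¹ := by
        rw [← Finset.prod_inv_distrib]
        exact Finset.prod_congr rfl fun i _ => inv_pow _ _
      have hB' : ∏ i, (t' i)⁻¹ ^ e i = (∏ i, t' i ^ e i)⁻¹ := by
        rw [← Finset.prod_inv_distrib]
        exact Finset.prod_congr rfl fun i _ => inv_pow _ _
      rw [hA', hB'] at h4
      have h5 : c * (∏ i, t i ^ e i)⁻¹ = (∏ i, t' i ^ e i)⁻¹ := by
        apply mul_right_cancel₀ hge
        rw [← h4]; ring
      field_simp at h5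
      linarith [h5]
    have hz : ∀ s ∈ Sg, ∏ i, s i ^ ((e₁ i : ℤ) - e₂ i) = (∏ i, s i ^ e₁ i) / ∏ i, s i ^ e₂ i := by
      intro s hs'
      rw [← Finset.prod_div_distrib]
      apply Finset.prod_congr rfl
      intro i _
      rw [zpow_sub₀ (h0 s hs' i), zpow_natCast, zpow_natCast]
    rw [hz t ht, hz t' ht', ← hco e₁ h₁, ← hco e₂ h₂]
    rw [mul_div_mul_left _ _ hc0]
  set f : (Fin n → ℚ) → ℚ := fun t => ∏ i, t i ^ ((e₁ i : ℤ) - e₂ i) with hf
  let hh : MvPolynomial (Fin n) ℚ → ℚ := fun q =>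
    if hq : ∃ t ∈ Sg, φ t = q then f hq.choose else 0
  have himg : Sg.image f ⊆ (Sg.image φ).image hh := by
    intro v hv
    obtain ⟨t, ht, rfl⟩ := Finset.mem_image.1 hv
    refine Finset.mem_image.2 ⟨φ t, Finset.mem_image_of_mem φ ht, ?_⟩
    have hq : ∃ t' ∈ Sg, φ t' = φ t := ⟨t, ht, rfl⟩
    have : hh (φ t) = f hq.choose := dif_pos hq
    rw [this]
    exact hfac _ hq.choose_spec.1 t ht hq.choose_spec.2
  have hsub : Sg.image φ ⊆ (UniqueFactorizationMonoid.factors P).toFinset := by
    intro q hq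
    obtain ⟨t, ht, rfl⟩ := Finset.mem_image.1 hq
    exact Multiset.mem_toFinset.2 (hφ1 t ht)
  calc (Sg.image f).card ≤ ((Sg.image φ).image hh).card := Finset.card_le_card himg
    _ ≤ (Sg.image φ).card := Finset.card_image_le
    _ ≤ (UniqueFactorizationMonoid.factors P).toFinset.card := Finset.card_le_card hsub
    _ ≤ Multiset.card (UniqueFactorizationMonoid.factors P) := Multiset.toFinset_card_le _
    _ ≤ (UniqueFactorizationMonoid.factors P).prod.totalDegree :=
        zcl_card _ fun a ha => UniqueFactorizationMonoid.irreducible_of_factor a ha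
    _ ≤ P.totalDegree := by
        obtain ⟨u, hu⟩ := UniqueFactorizationMonoid.factors_prod hP
        conv_rhs => rw [← hu]
        have h1 : (UniqueFactorizationMonoid.factors P).prod ≠ 0 := by
          intro h
          rw [h, zero_mul] at hu
          exact hP hu.symm
        rw [MvPolynomial.totalDegree_mul_of_isDomain h1 u.ne_zero]
        omega
    _ ≤ D := hD

end Pool.MP_a95293_nt.CG
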