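import Pool.Agent.Lib_MP_a95293_cg.Elim
import Pool.Agent.Lib_MP_a95293_cg.Zcl

/-!
# Piece CG-3 (ZERO): the zero estimate on the torus

PROOF of `zero_est`, induction on `n`, `f (0, D) = 0`, `f (n + 1, D) = max D (f (n, D * (2 * D * D + D)))`.
`n = 0`: `eval (∏ over the empty type) P = 0` contradicts `P ≠ 0` (`MvPolynomial.eq_C_of_isEmpty`).
`n + 1`: if `Sg = ∅` take any `e ≠ 0`. Let `t₀ ∈ Sg`, `Q = scal t₀ P ≠ 0`, `totalDegree ≤ D`;
`Q` is associated to the product of the multiset `F = UniqueFactorizationMonoid.factors Q`, which has at most `D` elements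
(see `cls`), all dividing `Q`, so of total degree `≤ D` (`MvPolynomial.totalDegree_mul_of_isDomain`).
(B) If some `g ∈ F` with `2 ≤ g.support.card` divides `scal t P` for all `t ∈ Sg`: `cls`.
(A) Otherwise for every `g ∈ F` with `2 ≤ g.support.card` choose `t_g ∈ Sg` with `¬ g ∣ scal t_g P` and the polynomial `R_g`
of `elim` for `g`, `scal t_g P`; let `R` be the product of the `R_g` over `F.toFinset.filter (2 ≤ support.card)`:
`R ≠ 0`, totalDegree `≤ D * (2 * D * D + D)`. For `s : Fin n → Sg` let `y = ∏ s j` (in `Fin (n + 1) → ℚ`, all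
coordinates non-zero): `eval y Q = eval (t₀ * y) P = 0` (the `(n + 1)`-fold product `t₀ * ∏ s j`), so some `g ∈ F` has
`eval y g = 0`; `g` has at least two terms (a polynomial with at most one term, `≠ 0`, has no zero with non-zero
coordinates), and `eval y (scal t_g P) = 0` for the same reason, so `eval (tail y) R_g = 0`, `eval (tail y) R = 0`.
So the induction hypothesis applies to `R` and `Sg.image (fun t i => t i.succ)` (choose preimages): `e'`; take
`e = Fin.cons 0 e'`.
-/

set_option autoImplicit false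

namespace Pool.MP_a95293_nt.CG

open Finset

private theorem zero_deg_pos {n : ℕ} (g : MvPolynomial (Fin n) ℚ) (hg : Irreducible g) :
    1 ≤ g.totalDegree := by
  by_contra h
  have h0 : g.totalDegree = 0 := by omega
  have h1 : g = MvPolynomial.C (g.coeff 0) := MvPolynomial.totalDegree_eq_zero_iff_eq_C.1 h0
  have h2 : g.coeff 0 ≠ 0 := by
    intro h3
    rw [h3, MvPolynomial.C_0] at h1
    exact hg.ne_zero h1
  refine hg.not_isUnit ?_
  rw [h1]
  exact (IsUnit.mk0 _ h2).map MvPolynomial.C

private theorem zero_deg_prod {n : ℕ} (F : Multiset (MvPolynomial (Fin n) ℚ))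
    (hF : ∀ g ∈ F, Irreducible g) : F.prod ≠ 0 ∧ Multiset.card F ≤ F.prod.totalDegree ∧
      ∀ g ∈ F, g.totalDegree ≤ F.prod.totalDegree := by
  induction F using Multiset.induction_on with
  | empty =>
    refine ⟨by simp, by simp, fun g hg => absurd hg (Multiset.notMem_zero g)⟩
  | cons a F ih =>
    obtain ⟨h1, h2, h3⟩ := ih fun g hg => hF g (Multiset.mem_cons_of_mem hg)
    have ha := hF a (Multiset.mem_cons_self a F)
    have h4 := zero_deg_pos a ha
    have h5 : (a ::ₘ F).prod.totalDegree = a.totalDegree + F.prod.totalDegree := by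
      rw [Multiset.prod_cons, MvPolynomial.totalDegree_mul_of_isDomain ha.ne_zero h1]
    refine ⟨?_, ?_, ?_⟩
    · rw [Multiset.prod_cons]
      exact mul_ne_zero ha.ne_zero h1
    · rw [h5, Multiset.card_cons]
      omega
    · intro g hg
      rw [h5]
      rcases Multiset.mem_cons.1 hg with rfl | hg
      · omega
      · have := h3 g hg
        omega

private theorem zero_fac {n : ℕ} (Q : MvPolynomial (Fin n) ℚ) (hQ : Q ≠ 0) :
    ∃ F : Multiset (MvPolynomial (Fin n) ℚ), (∀ g ∈ F, Irreducible g) ∧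
      Multiset.card F ≤ Q.totalDegree ∧ (∀ g ∈ F, g.totalDegree ≤ Q.totalDegree) ∧
      (∀ y : Fin n → ℚ, MvPolynomial.eval y Q = 0 → ∃ g ∈ F, MvPolynomial.eval y g = 0) := by
  obtain ⟨F, hF, u, hu⟩ := WfDvdMonoid.exists_factors Q hQ
  obtain ⟨h1, h2, h3⟩ := zero_deg_prod F hF
  have h4 : F.prod.totalDegree ≤ Q.totalDegree := by
    rw [← hu, MvPolynomial.totalDegree_mul_of_isDomain h1 u.ne_zero]
    omega
  refine ⟨F, hF, h2.trans h4, fun g hg => (h3 g hg).trans h4, fun y hy => ?_⟩
  rw [← hu, map_mul] at hy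
  have h5 : MvPolynomial.eval y (u : MvPolynomial (Fin n) ℚ) ≠ 0 :=
    (u.isUnit.map (MvPolynomial.eval y)).ne_zero
  have h6 := (mul_eq_zero.1 hy).resolve_right h5
  rw [map_multiset_prod, Multiset.prod_eq_zero_iff, Multiset.mem_map] at h6
  exact h6

private theorem zero_two {n : ℕ} (g : MvPolynomial (Fin n) ℚ) (hg : g ≠ 0) (y : Fin n → ℚ)
    (hy : ∀ i, y i ≠ 0) (h : MvPolynomial.eval y g = 0) : 2 ≤ g.support.card := by
  by_contra hc
  have h1 : g.support.Nonempty := by
    rw [Finset.nonempty_iff_ne_empty]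
    intro h2
    exact hg (MvPolynomial.support_eq_empty.1 h2)
  have h3 : g.support.card = 1 := by
    have := h1.card_pos
    omega
  obtain ⟨e, he⟩ := Finset.card_eq_one.1 h3
  have h4 : g = MvPolynomial.monomial e (g.coeff e) := by
    conv_lhs => rw [MvPolynomial.as_sum g]
    rw [he, Finset.sum_singleton]
  have h5 : g.coeff e ≠ 0 := by
    rw [← MvPolynomial.mem_support_iff, he]
    exact Finset.mem_singleton_self e
  rw [h4, MvPolynomial.eval_monomial] at h
  rcases mul_eq_zero.1 h with h6 | h6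
  · exact h5 h6
  · rw [Finsupp.prod, Finset.prod_eq_zero_iff] at h6
    obtain ⟨i, -, hi⟩ := h6
    exact pow_ne_zero _ (hy i) hi

theorem zero_est (n D : ℕ) : ∃ f : ℕ, ∀ (P : MvPolynomial (Fin n) ℚ), P ≠ 0 → P.totalDegree ≤ D →
    ∀ Sg : Finset (Fin n → ℚ), (∀ t ∈ Sg, ∀ i, t i ≠ 0) →
    (∀ s : Fin n → (Fin n → ℚ), (∀ j, s j ∈ Sg) → MvPolynomial.eval (∏ j, s j) P = 0) →
    ∃ e : Fin n → ℤ, e ≠ 0 ∧ (Sg.image fun t => ∏ i, t i ^ e i).card ≤ f := by
  classical
  induction n generalizing D with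
  | zero =>
    refine ⟨0, fun P hP hD Sg h0 hs => ?_⟩
    exfalso
    have h1 := hs (fun j => j.elim0) (fun j => j.elim0)
    have h2 : P = MvPolynomial.C (P.coeff 0) := MvPolynomial.eq_C_of_isEmpty P
    rw [h2, MvPolynomial.eval_C] at h1
    rw [h1, MvPolynomial.C_0] at h2
    exact hP h2
  | succ n ih =>
    obtain ⟨f, hf⟩ := ih (D * (2 * D * D + D))
    refine ⟨max D f, fun P hP hD Sg h0 hs => ?_⟩
    rcases Sg.eq_empty_or_nonempty with hSe | ⟨t0, ht0⟩
    · subst hSe
      refine ⟨fun _ => 1, ?_, ?_⟩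
      · intro h
        have := congrFun h 0
        simp at this
      · simp
    set Q := scal t0 P with hQ
    have hQ0 : Q ≠ 0 := scal_ne_zero t0 (h0 t0 ht0) P hP
    have hQD : Q.totalDegree ≤ D := (scal_deg t0 P).trans hD
    obtain ⟨F, hF, hFc, hFd, hFe⟩ := zero_fac Q hQ0
    by_cases hB : ∃ g ∈ F, 2 ≤ g.support.card ∧ ∀ t ∈ Sg, g ∣ scal t P
    · obtain ⟨g, hg, hg2, hgd⟩ := hB
      obtain ⟨e, he, hc⟩ := cls (n + 1) D P g hP hD (hF g hg) hg2 Sg h0 hgd
      exact ⟨e, he, hc.trans (le_max_left _ _)⟩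
    push Not at hB
    have hA : ∀ g : MvPolynomial (Fin (n + 1)) ℚ, ∃ (t : Fin (n + 1) → ℚ)
        (R : MvPolynomial (Fin n) ℚ), g ∈ F → 2 ≤ g.support.card → t ∈ Sg ∧ R ≠ 0 ∧
        R.totalDegree ≤ 2 * D * D + D ∧ ∀ y : Fin (n + 1) → ℚ,
        MvPolynomial.eval y g = 0 → MvPolynomial.eval y (scal t P) = 0 →
        MvPolynomial.eval (fun i => y i.succ) R = 0 := by
      intro g
      by_cases hg : g ∈ F ∧ 2 ≤ g.support.card
      · obtain ⟨t, ht, hgt⟩ := hB g hg.1 hg.2
        obtain ⟨R, hR0, hRd, hR⟩ := elim n D g (scal t P) (hF g hg.1) hgt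
          ((hFd g hg.1).trans hQD) ((scal_deg t P).trans hD)
        exact ⟨t, R, fun _ _ => ⟨ht, hR0, hRd, hR⟩⟩
      · exact ⟨t0, 0, fun h1 h2 => absurd ⟨h1, h2⟩ hg⟩
    choose τ ρ hτ using hA
    set G := F.toFinset.filter (fun g => 2 ≤ g.support.card) with hG
    have hGm : ∀ g ∈ G, g ∈ F ∧ 2 ≤ g.support.card := by
      intro g hg
      rw [hG, Finset.mem_filter, Multiset.mem_toFinset] at hg
      exact hg
    have hGc : G.card ≤ D := by
      refine (Finset.card_le_card (Finset.filter_subset _ _)).trans ?_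
      exact (Multiset.toFinset_card_le F).trans (hFc.trans hQD)
    have hR0 : ∏ g ∈ G, ρ g ≠ 0 := Finset.prod_ne_zero_iff.2 fun g hg =>
      (hτ g (hGm g hg).1 (hGm g hg).2).2.1
    have hRd : (∏ g ∈ G, ρ g).totalDegree ≤ D * (2 * D * D + D) := by
      refine (MvPolynomial.totalDegree_finset_prod G ρ).trans ?_
      refine (Finset.sum_le_card_nsmul G _ (2 * D * D + D) fun g hg =>
        (hτ g (hGm g hg).1 (hGm g hg).2).2.2.1).trans ?_
      rw [smul_eq_mul]
      exact Nat.mul_le_mul_right _ hGc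
    obtain ⟨e', he', hc'⟩ := hf (∏ g ∈ G, ρ g) hR0 hRd
      (Sg.image fun t (i : Fin n) => t i.succ) (by
        intro t ht i
        obtain ⟨t', ht', rfl⟩ := Finset.mem_image.1 ht
        exact h0 t' ht' _) (by
        intro s' hs'
        have h1 : ∀ j, ∃ t ∈ Sg, (fun i : Fin n => t i.succ) = s' j := fun j =>
          Finset.mem_image.1 (hs' j)
        choose s hsS hss using h1
        have hy0 : ∀ i, (∏ j, s j) i ≠ 0 := by
          intro i
          rw [Finset.prod_apply]
          exact Finset.prod_ne_zero_iff.2 fun j _ => h0 (s j) (hsS j) i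
        have hev : ∀ t ∈ Sg, MvPolynomial.eval (∏ j, s j) (scal t P) = 0 := by
          intro t ht
          rw [eval_scal]
          have h2 := hs (Fin.cons t s) (by
            intro j
            refine Fin.cases ?_ (fun j => ?_) j
            · exact ht
            · exact hsS j)
          rw [Fin.prod_univ_succ] at h2
          exact h2
        obtain ⟨g, hg, hgy⟩ := hFe _ (hev t0 ht0)
        have hg2 := zero_two g (hF g hg).ne_zero _ hy0 hgy
        obtain ⟨h3, -, -, h4⟩ := hτ g hg hg2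
        have h5 := h4 _ hgy (hev _ h3)
        have h6 : (fun i : Fin n => (∏ j, s j) i.succ) = ∏ j, s' j := by
          funext i
          rw [Finset.prod_apply, Finset.prod_apply]
          exact Finset.prod_congr rfl fun j _ => by rw [← hss j]
        rw [h6] at h5
        rw [map_prod]
        refine Finset.prod_eq_zero (i := g) ?_ h5
        rw [hG, Finset.mem_filter, Multiset.mem_toFinset]
        exact ⟨hg, hg2⟩)
    refine ⟨Fin.cons 0 e', ?_, ?_⟩
    · intro h
      refine he' ?_
      funext i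
      have := congrFun h i.succ
      rw [Fin.cons_succ] at this
      exact this
    · refine le_trans (le_of_eq ?_) (hc'.trans (le_max_right _ _))
      rw [Finset.image_image]
      congr 1
      refine Finset.image_congr fun t _ => ?_
      simp only [Function.comp]
      rw [Fin.prod_univ_succ, Fin.cons_zero, zpow_zero, one_mul]
      exact Finset.prod_congr rfl fun i _ => by rw [Fin.cons_succ]

end Pool.MP_a95293_nt.CG
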